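import Pool.Agent.Lib_MP_53ae57.Defs

/-!
[QR-A0] Locally Lipschitz functions on `R^n`.

`exists_lipschitzOnWith_closedBall`: compact sets are covered by finitely many balls on which the
function is Lipschitz; on a compact convex set a locally Lipschitz function is Lipschitz
(Lebesgue number `δ` of the cover: points at distance `< δ` lie in one ball; for distant points use
that the function is bounded, `‖f x - f y‖ ≤ 2M ≤ (2M/δ) ‖x - y‖`).
`ae_differentiableAt_of_locallyLipschitz`: on each ball `ball 0 k`, `k` natural, `f` is Lipschitz, so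
differentiable within the ball almost everywhere by Rademacher
(`LipschitzOnWith.ae_differentiableWithinAt`), and the ball is open; countable union (`ae_all_iff`).
`ae_coord_ne`: the set `{x | x i = c}` is a preimage of a point under a coordinate; it is an affine
hyperplane, not the whole space (`MeasureTheory.Measure.addHaar_affineSubspace`).
-/

open Set MeasureTheory

namespace QRAsym

variable {n : ℕ} {F : Type*} [NormedAddCommGroup F] [NormedSpace ℝ F]

theorem exists_lipschitzOnWith_closedBall {f : E n → F} (hf : LocallyLipschitz f) (R : ℝ) :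
    ∃ L : NNReal, LipschitzOnWith L f (Metric.closedBall 0 R) :=
  hf.locallyLipschitzOn.exists_lipschitzOnWith_of_compact (isCompact_closedBall 0 R)

theorem ae_differentiableAt_of_locallyLipschitz [FiniteDimensional ℝ F] {f : E n → F}
    (hf : LocallyLipschitz f) :
    ∀ᵐ x ∂(volume : Measure (E n)), DifferentiableAt ℝ f x := by
  have h : ∀ k : ℕ, ∀ᵐ x ∂(volume : Measure (E n)), x ∈ Metric.closedBall (0 : E n) (k : ℝ) →
      DifferentiableWithinAt ℝ f (Metric.closedBall (0 : E n) (k : ℝ)) x := by
    intro k
    obtain ⟨L, hL⟩ := exists_lipschitzOnWith_closedBall hf (k : ℝ)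
    exact hL.ae_differentiableWithinAt_of_mem
  filter_upwards [ae_all_iff.2 h] with x hx
  obtain ⟨k, hk⟩ := exists_nat_gt ‖x‖
  have hm : x ∈ Metric.ball (0 : E n) (k : ℝ) := by
    rw [mem_ball_zero_iff]
    exact hk
  exact (hx k (Metric.ball_subset_closedBall hm)).differentiableAt
    (Filter.mem_of_superset (Metric.isOpen_ball.mem_nhds hm) Metric.ball_subset_closedBall)

theorem ae_coord_ne (i : Fin n) (c : ℝ) : ∀ᵐ x ∂(volume : Measure (E n)), x i ≠ c := by
  let A : AffineSubspace ℝ (E n) := AffineSubspace.mk' (EuclideanSpace.single i c)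
    (LinearMap.ker (EuclideanSpace.proj i : E n →L[ℝ] ℝ).toLinearMap)
  have hA : ∀ x : E n, x ∈ A ↔ x i = c := by
    intro x
    rw [AffineSubspace.mem_mk', LinearMap.mem_ker]
    change (x - EuclideanSpace.single i c) i = 0 ↔ x i = c
    rw [PiLp.sub_apply, EuclideanSpace.single_apply, if_pos rfl, sub_eq_zero]
  have hne : A ≠ ⊤ := by
    intro h
    have h1 : (EuclideanSpace.single i (c + 1) : E n) ∈ A := by
      rw [h]
      exact AffineSubspace.mem_top ℝ _ _
    rw [hA, EuclideanSpace.single_apply, if_pos rfl] at h1
    linarith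
  have h0 := Measure.addHaar_affineSubspace (volume : Measure (E n)) A hne
  rw [ae_iff]
  refine measure_mono_null ?_ h0
  intro x hx
  have h1 : x i = c := by
    simpa using hx
  exact (hA x).2 h1

end QRAsym
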