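import Pool.Agent.Lib_MP_53ae57.Defs

/-!
[QR-A1] The triangle wave `fold s = (-1)^k (s - 2k)`, `k = round(s/2)`.

Proofs.  `round_eq`: `|s/2 - k| < 1/2`, use `round_eq` / `Int.floor_eq_iff` for `round x = ⌊x + 1/2⌋`.
`fold_eq`: if `|s - 2k| < 1` by `round_eq'`; if `s = 2k + 1` then `round(s/2) = k + 1` and
`(-1)^(k+1) (-1) = (-1)^k`; if `s = 2k - 1` then `round(s/2) = k`.
`abs_fold_le`: `|s/2 - round(s/2)| ≤ 1/2` (`abs_sub_round`).
`fold_lipschitz`: put `k = round(s/2)`, `l = round(s'/2)`; if `k = l` clear. Otherwise, say `k < l`,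
then `s ≤ 2k + 1 ≤ 2l - 1 ≤ s'`. If `l = k + 1` then, with `r = 2k + 1`, `fold r` is given by both
formulas (`fold_eq` for `k` and for `k + 1`), so `|fold s - fold s'| ≤ |s - r| + |r - s'| = |s - s'|`.
If `l ≥ k + 2` then `s' - s ≥ 2 ≥ |fold s - fold s'|`.
`fold_reach`: the interval `[p, p + 4]` contains an integer `4j + 1` (value `1`, `k = 2j`) and an
integer `4j + 3` (value `-1`, `k = 2j + 1`).
`exists_abs_fold_eq_one`: between `s` and `s'` there is an odd integer `2k + 1`, where `|fold| = 1`.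
-/

open Set

namespace QRAsym

private theorem A1_Fold_sgn (k : ℤ) : |(-1 : ℝ) ^ k| = 1 := by
  rw [abs_zpow, abs_neg, abs_one, one_zpow]

private theorem A1_Fold_bd (s : ℝ) : |s - 2 * (round (s / 2) : ℝ)| ≤ 1 := by
  have h := abs_sub_round (s / 2)
  rw [abs_le] at h ⊢
  constructor <;> linarith [h.1, h.2]

private theorem A1_Fold_mono {s s' : ℝ} (h : s ≤ s') : round (s / 2) ≤ round (s' / 2) := by
  rw [round_eq, round_eq]
  exact Int.floor_mono (by linarith)

theorem round_eq' (k : ℤ) (s : ℝ) (h : |s - 2 * k| < 1) : round (s / 2) = k := by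
  rw [round_eq, Int.floor_eq_iff]
  rw [abs_lt] at h
  constructor <;> linarith [h.1, h.2]

theorem fold_eq (k : ℤ) (s : ℝ) (h : |s - 2 * k| ≤ 1) : fold s = (-1 : ℝ) ^ k * (s - 2 * k) := by
  rcases lt_or_eq_of_le h with h1 | h1
  · unfold fold
    rw [round_eq' k s h1]
  · rcases abs_eq (zero_le_one' ℝ) |>.1 h1 with h2 | h2
    · have hk : round (s / 2) = k + 1 := by
        rw [round_eq, Int.floor_eq_iff]
        push_cast
        constructor <;> linarith
      unfold fold
      rw [hk, zpow_add_one₀ (by norm_num), h2]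
      push_cast
      have : s - 2 * ((k : ℝ) + 1) = -1 := by linarith
      rw [this]
      ring
    · have hk : round (s / 2) = k := by
        rw [round_eq, Int.floor_eq_iff]
        constructor <;> linarith
      unfold fold
      rw [hk]

theorem abs_fold_le (s : ℝ) : |fold s| ≤ 1 := by
  unfold fold
  rw [abs_mul, A1_Fold_sgn, one_mul]
  exact A1_Fold_bd s

theorem fold_lipschitz : LipschitzWith 1 fold := by
  have key : ∀ s s' : ℝ, s ≤ s' → |fold s - fold s'| ≤ s' - s := by
    intro s s' hss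
    have hk := A1_Fold_bd s
    have hl := A1_Fold_bd s'
    have hkl := A1_Fold_mono hss
    have e1 := fold_eq _ s hk
    have e2 := fold_eq _ s' hl
    generalize round (s / 2) = k at *
    generalize round (s' / 2) = l at *
    rw [abs_le] at hk hl
    rcases lt_or_eq_of_le hkl with h | h
    · rcases eq_or_lt_of_le (Int.add_one_le_iff.2 h) with h1 | h1
      · rw [e1, e2, ← h1, zpow_add_one₀ (by norm_num)]
        rw [← h1] at hl
        push_cast at hl ⊢
        have h2 : (-1 : ℝ) ^ k * (s - 2 * k) - (-1 : ℝ) ^ k * -1 * (s' - 2 * ((k : ℝ) + 1)) =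
            (-1 : ℝ) ^ k * ((s - 2 * k) + (s' - 2 * ((k : ℝ) + 1))) := by ring
        rw [h2, abs_mul, A1_Fold_sgn, one_mul, abs_le]
        constructor <;> linarith [hk.1, hk.2, hl.1, hl.2]
      · have h2 : ((k : ℝ) + 2) ≤ l := by exact_mod_cast (show k + 2 ≤ l by omega)
        have h3 := abs_fold_le s
        have h4 := abs_fold_le s'
        rw [abs_le] at h3 h4 ⊢
        constructor <;> linarith [hk.2, hl.1, h3.1, h3.2, h4.1, h4.2]
    · subst h
      rw [e1, e2, ← mul_sub, abs_mul, A1_Fold_sgn, one_mul]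
      have h2 : s - 2 * (k : ℝ) - (s' - 2 * k) = -(s' - s) := by ring
      rw [h2, abs_neg, abs_of_nonneg (by linarith)]
  apply LipschitzWith.mk_one
  intro s s'
  rw [Real.dist_eq, Real.dist_eq]
  rcases le_total s s' with h | h
  · rw [abs_sub_comm s s', abs_of_nonneg (by linarith : 0 ≤ s' - s)]
    exact key s s' h
  · rw [abs_sub_comm, abs_of_nonneg (by linarith : 0 ≤ s - s')]
    exact key s' s h

theorem fold_reach (p : ℝ) :
    (∃ s ∈ Icc p (p + 4), fold s = 1) ∧ (∃ s ∈ Icc p (p + 4), fold s = -1) := by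
  constructor
  · have h1 := Int.le_ceil ((p - 1) / 4)
    have h2 := Int.ceil_lt_add_one ((p - 1) / 4)
    generalize ⌈(p - 1) / 4⌉ = j at *
    refine ⟨4 * j + 1, ⟨by linarith, by linarith⟩, ?_⟩
    have h3 : (4 * (j : ℝ) + 1) - 2 * ((2 * j : ℤ) : ℝ) = 1 := by push_cast; ring
    rw [fold_eq (2 * j) _ (by rw [h3, abs_one]), h3, zpow_mul]
    norm_num
  · have h1 := Int.le_ceil ((p - 3) / 4)
    have h2 := Int.ceil_lt_add_one ((p - 3) / 4)
    generalize ⌈(p - 3) / 4⌉ = j at *
    refine ⟨4 * j + 3, ⟨by linarith, by linarith⟩, ?_⟩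
    have h3 : (4 * (j : ℝ) + 3) - 2 * ((2 * j + 1 : ℤ) : ℝ) = 1 := by push_cast; ring
    rw [fold_eq (2 * j + 1) _ (by rw [h3, abs_one]), h3, zpow_add_one₀ (by norm_num), zpow_mul]
    norm_num

theorem exists_abs_fold_eq_one (s s' : ℝ) (h : round (s / 2) ≠ round (s' / 2)) :
    ∃ θ ∈ Icc (0 : ℝ) 1, |fold (s + θ * (s' - s))| = 1 := by
  have hk := A1_Fold_bd s
  have hl := A1_Fold_bd s'
  have hss : s ≠ s' := fun h1 => h (by rw [h1])
  have hr : ∀ k : ℤ, |fold (2 * k + 1)| = 1 := by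
    intro k
    have h3 : (2 * (k : ℝ) + 1) - 2 * (k : ℝ) = 1 := by ring
    rw [fold_eq k _ (by rw [h3, abs_one]), h3, mul_one, A1_Fold_sgn]
  generalize round (s / 2) = k at *
  generalize round (s' / 2) = l at *
  rw [abs_le] at hk hl
  rcases lt_or_gt_of_ne h with h1 | h1
  · have h2 : ((k : ℝ) + 1) ≤ l := by exact_mod_cast h1
    have h4 : s < s' := by
      rcases lt_or_gt_of_ne hss with h5 | h5
      · exact h5
      · linarith [hk.2, hl.1]
    have h5 : 0 < s' - s := by linarith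
    refine ⟨(2 * k + 1 - s) / (s' - s), ⟨?_, ?_⟩, ?_⟩
    · exact div_nonneg (by linarith [hk.2]) h5.le
    · rw [div_le_one h5]
      linarith [hl.1]
    · rw [div_mul_cancel₀ _ h5.ne', add_sub_cancel, hr]
  · have h2 : ((l : ℝ) + 1) ≤ k := by exact_mod_cast h1
    have h4 : s' < s := by
      rcases lt_or_gt_of_ne hss with h5 | h5
      · linarith [hk.1, hl.2]
      · exact h5
    have h5 : 0 < s - s' := by linarith
    refine ⟨(s - (2 * l + 1)) / (s - s'), ⟨?_, ?_⟩, ?_⟩
    · exact div_nonneg (by linarith [hk.1]) h5.le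
    · rw [div_le_one h5]
      linarith [hl.2]
    · have h6 : s + (s - (2 * (l : ℝ) + 1)) / (s - s') * (s' - s) = 2 * l + 1 := by
        field_simp
        ring
      rw [h6, hr]

end QRAsym
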