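import Pool.Agent.Lib_MP_53ae57.A1_Fold

/-!
[QR-A2] Elementary facts on the sine.

Write `t = |x_last|`. `sine_castSucc`, `sine_last`: unfold (`Fin.snoc_castSucc`, `Fin.snoc_last`).
`mx_le`: `‖sineFst x‖ ≤ e^t` by `pi_norm_le_iff_of_nonneg` and `abs_fold_le`, and `1 ≤ e^t`.
`cellSign`: a product of numbers `(-1)^k` and of the sign. `mx_eq_of_fold`: if `|fold (x i)| = 1`
then `‖sineFst x‖ ≥ e^t`. `sub_mx_eq_zero`: for `x_last = 0`, `e^0 = 1 ≤ mx x ≤ e^0`.
`gauge_sine`: the norm in `gauge (sine x)` is `‖sineFst x‖`, `|sine x last| = e^t - mx x`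
(for `x_last = 0` both sides are `0`), so the gauge is `mx x + e^t - mx x`.
`norm_sine_le`: all `m + 1` coordinates are at most `e^t` in absolute value; use
`EuclideanSpace.norm_eq` and `Real.sqrt_le_left`/`Real.sqrt_le_sqrt`, `√(m+1) ≤ m+1`.
`sine_axis`: for `x = t e_last` all `fold 0 = 0`, so `mx x = 1` and `|sine x last| = e^|t| - 1` for `t ≠ 0`.
-/

open Set

namespace QRAsym

variable {m : ℕ}

theorem sine_castSucc (x : E (m + 1)) (i : Fin m) :
    sine x i.castSucc = Real.exp |x (Fin.last m)| * fold (x i.castSucc) := by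
  have h : sine x i.castSucc = Fin.snoc (α := fun _ => ℝ) (sineFst x)
    (cellSign x * (Real.exp |x (Fin.last m)| - mx x)) i.castSucc := rfl
  rw [h, Fin.snoc_castSucc]
  rfl

theorem sine_last (x : E (m + 1)) :
    sine x (Fin.last m) = cellSign x * (Real.exp |x (Fin.last m)| - mx x) := by
  have h : sine x (Fin.last m) = Fin.snoc (α := fun _ => ℝ) (sineFst x)
    (cellSign x * (Real.exp |x (Fin.last m)| - mx x)) (Fin.last m) := rfl
  rw [h, Fin.snoc_last]

theorem one_le_mx (x : E (m + 1)) : 1 ≤ mx x := le_max_left _ _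

theorem mx_le (x : E (m + 1)) : mx x ≤ Real.exp |x (Fin.last m)| := by
  unfold mx
  refine max_le (Real.one_le_exp (abs_nonneg _))
    ((pi_norm_le_iff_of_nonneg (Real.exp_pos _).le).2 fun i => ?_)
  unfold sineFst
  rw [norm_mul, Real.norm_eq_abs, Real.norm_eq_abs, abs_of_pos (Real.exp_pos _)]
  exact mul_le_of_le_one_right (Real.exp_pos _).le (abs_fold_le _)

private theorem A2_abs_prod (x : E (m + 1)) :
    |∏ i : Fin m, (-1 : ℝ) ^ (round (x i.castSucc / 2))| = 1 := by
  rw [Finset.abs_prod]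
  refine Finset.prod_eq_one fun i _ => ?_
  rw [abs_zpow, abs_neg, abs_one, one_zpow]

theorem abs_cellSign_le (x : E (m + 1)) : |cellSign x| ≤ 1 := by
  unfold cellSign
  rw [abs_mul, A2_abs_prod, one_mul]
  rcases lt_trichotomy (x (Fin.last m)) 0 with h | h | h
  · rw [sign_neg h]
    simp
  · rw [h, sign_zero]
    simp
  · rw [sign_pos h]
    simp

theorem abs_cellSign (x : E (m + 1)) (h : x (Fin.last m) ≠ 0) : |cellSign x| = 1 := by
  unfold cellSign
  rw [abs_mul, A2_abs_prod, one_mul]
  rcases lt_or_gt_of_ne h with h | h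
  · rw [sign_neg h]
    simp
  · rw [sign_pos h]
    simp

theorem mx_eq_of_fold (x : E (m + 1)) (i : Fin m) (h : |fold (x i.castSucc)| = 1) :
    mx x = Real.exp |x (Fin.last m)| := by
  refine le_antisymm (mx_le x) ((le_trans ?_ (norm_le_pi_norm (sineFst x) i)).trans
    (le_max_right _ _))
  unfold sineFst
  rw [norm_mul, Real.norm_eq_abs, Real.norm_eq_abs, h, mul_one]
  exact le_abs_self _

theorem mx_eq_of_last (x : E (m + 1)) (h : x (Fin.last m) = 0) :
    mx x = Real.exp |x (Fin.last m)| := by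
  refine le_antisymm (mx_le x) ?_
  rw [h, abs_zero, Real.exp_zero]
  exact one_le_mx x

theorem gauge_sine (x : E (m + 1)) : gauge (sine x) = Real.exp |x (Fin.last m)| := by
  have h1 : (fun i : Fin m => sine x i.castSucc) = sineFst x := by
    funext i
    rw [sine_castSucc]
    rfl
  have h2 : max 1 ‖sineFst x‖ = mx x := rfl
  have h3 : |sine x (Fin.last m)| = Real.exp |x (Fin.last m)| - mx x := by
    rw [sine_last, abs_mul, abs_of_nonneg (sub_nonneg.2 (mx_le x))]
    by_cases h : x (Fin.last m) = 0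
    · rw [mx_eq_of_last x h, sub_self, mul_zero]
    · rw [abs_cellSign x h, one_mul]
  unfold gauge
  rw [h1, h2, h3]
  ring

theorem fold_eq_div (x : E (m + 1)) (i : Fin m) :
    fold (x i.castSucc) = sine x i.castSucc / gauge (sine x) := by
  rw [gauge_sine, sine_castSucc, mul_div_cancel_left₀ _ (Real.exp_pos _).ne']

private theorem A2_abs_le (x : E (m + 1)) (i : Fin (m + 1)) :
    ‖sine x i‖ ≤ Real.exp |x (Fin.last m)| := by
  rw [Real.norm_eq_abs]
  induction i using Fin.lastCases with
  | last =>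
    have h1 := one_le_mx x
    have h2 := mx_le x
    rw [sine_last, abs_mul, abs_of_nonneg (sub_nonneg.2 h2)]
    have h3 := mul_le_mul_of_nonneg_right (abs_cellSign_le x) (sub_nonneg.2 h2)
    linarith
  | cast i =>
    rw [sine_castSucc, abs_mul, abs_of_pos (Real.exp_pos _)]
    exact mul_le_of_le_one_right (Real.exp_pos _).le (abs_fold_le _)

theorem norm_sine_le (x : E (m + 1)) : ‖sine x‖ ≤ (m + 1) * Real.exp |x (Fin.last m)| := by
  have he := Real.exp_pos |x (Fin.last m)|
  have hm : (0 : ℝ) ≤ m := Nat.cast_nonneg m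
  rw [EuclideanSpace.norm_eq]
  refine Real.sqrt_le_iff.2 ⟨by positivity, ?_⟩
  calc ∑ i, ‖sine x i‖ ^ 2 ≤ ∑ _i : Fin (m + 1), Real.exp |x (Fin.last m)| ^ 2 :=
        Finset.sum_le_sum fun i _ => pow_le_pow_left₀ (norm_nonneg _) (A2_abs_le x i) 2
    _ = (m + 1) * Real.exp |x (Fin.last m)| ^ 2 := by
        rw [Finset.sum_const, Finset.card_univ, Fintype.card_fin, nsmul_eq_mul]
        push_cast
        ring
    _ ≤ ((m + 1) * Real.exp |x (Fin.last m)|) ^ 2 := by
        rw [mul_pow]
        refine mul_le_mul_of_nonneg_right ?_ (by positivity)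
        nlinarith

theorem norm_sine_axis (t : ℝ) :
    Real.exp |t| - 1 ≤ ‖sine (EuclideanSpace.single (Fin.last m) t : E (m + 1))‖ := by
  set x : E (m + 1) := EuclideanSpace.single (Fin.last m) t with hx
  have hl : x (Fin.last m) = t := by
    rw [hx, EuclideanSpace.single_apply, if_pos rfl]
  have hc : ∀ i : Fin m, x i.castSucc = 0 := fun i => by
    rw [hx, EuclideanSpace.single_apply, if_neg (Fin.castSucc_lt_last i).ne]
  by_cases ht : t = 0
  · rw [ht, abs_zero, Real.exp_zero, sub_self]
    exact norm_nonneg _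
  · have hf : fold 0 = 0 := by
      unfold fold
      rw [zero_div, round_zero]
      simp
    have h0 : sineFst x = 0 := by
      funext i
      unfold sineFst
      rw [hc i, hf, mul_zero]
      rfl
    have hmx : mx x = 1 := by
      unfold mx
      rw [h0, norm_zero]
      exact max_eq_left zero_le_one
    have h1 := PiLp.norm_apply_le (sine x) (Fin.last m)
    rw [Real.norm_eq_abs, sine_last, abs_mul, abs_cellSign x (by rw [hl]; exact ht), one_mul, hmx,
      hl] at h1
    exact (le_abs_self _).trans h1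

end QRAsym
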