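import Pool.Agent.Lib_MP_53ae57.A0_AE
import Pool.Agent.Lib_MP_53ae57.A2_SineBasic

/-!
[QR-A3] The sine and `mx` are locally Lipschitz.

Proof. It suffices to find for every `R > 0` a constant `L` with `‖sine x - sine y‖ ≤ L ‖x - y‖` for
`x, y` in the ball `B(0, R)` (convex).  Coordinate `i < m`: `e^|x_last| fold(x_i)` is a product of two
bounded Lipschitz functions on the ball.  `mx` is the maximum of `1` and of the (sup) norm of
`sineFst`, so it is Lipschitz there as well, and so is `M x = e^|x_last| - mx x ≥ 0`.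
Last coordinate `cellSign x * M x`: if `cellSign x = cellSign y` clear. If not, then either the signs
of `x_last` and `y_last` are different, so that `x_last + θ (y_last - x_last) = 0` for some
`θ ∈ [0,1]`, or `round(x_i/2) ≠ round(y_i/2)` for some `i`, so that `|fold| = 1` at
`x_i + θ (y_i - x_i)` for some `θ ∈ [0,1]` (`exists_abs_fold_eq_one`). In both cases `M z = 0` at
`z = x + θ (y - x)` (`mx_eq_of_last`, `mx_eq_of_fold`), so
`|cellSign x M x - cellSign y M y| ≤ M x + M y = |M x - M z| + |M z - M y| ≤ L ‖x - y‖`.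
-/

open Set

namespace QRAsym

variable {m : ℕ}

/-- Lipschitz on all balls around the origin implies locally Lipschitz. -/
private theorem A3_loc {n : ℕ} {F : Type*} [PseudoMetricSpace F] {f : E n → F}
    (h : ∀ R : ℝ, 0 < R → ∃ L : ℝ, 0 ≤ L ∧ ∀ x ∈ Metric.ball (0 : E n) R,
      ∀ y ∈ Metric.ball (0 : E n) R, dist (f x) (f y) ≤ L * ‖x - y‖) : LocallyLipschitz f := by
  intro x
  obtain ⟨L, hL0, hL⟩ := h (‖x‖ + 1) (by positivity)
  refine ⟨L.toNNReal, Metric.ball (0 : E n) (‖x‖ + 1), ?_, ?_⟩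
  · apply Metric.isOpen_ball.mem_nhds
    rw [mem_ball_zero_iff]
    linarith
  · apply LipschitzOnWith.of_dist_le_mul
    intro y hy z hz
    rw [Real.coe_toNNReal L hL0, dist_eq_norm y z]
    exact hL y hy z hz

private theorem A3_exp {R a b : ℝ} (ha : |a| ≤ R) (hb : |b| ≤ R) :
    |(Real.exp (|a|) - Real.exp (|b|))| ≤ Real.exp R * |a - b| := by
  have key : ∀ s t : ℝ, s ≤ R → t ≤ s → Real.exp s - Real.exp t ≤ Real.exp R * (s - t) := by
    intro s t hs hts
    have h1 := Real.add_one_le_exp (t - s)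
    have h2 : Real.exp t = Real.exp s * Real.exp (t - s) := by
      rw [← Real.exp_add]
      congr 1
      ring
    have h3 : Real.exp s ≤ Real.exp R := Real.exp_le_exp.2 hs
    have h4 : 0 ≤ s - t := by linarith
    calc Real.exp s - Real.exp t = Real.exp s * (1 - Real.exp (t - s)) := by rw [h2]; ring
      _ ≤ Real.exp s * (s - t) := by
          apply mul_le_mul_of_nonneg_left _ (Real.exp_pos s).le
          linarith
      _ ≤ Real.exp R * (s - t) := mul_le_mul_of_nonneg_right h3 h4
  have h5 : |(|a| - |b|)| ≤ |a - b| := abs_abs_sub_abs_le a b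
  have h6 : |(Real.exp (|a|) - Real.exp (|b|))| ≤ Real.exp R * |(|a| - |b|)| := by
    rcases le_total |a| |b| with h | h
    · rw [abs_sub_comm, abs_of_nonneg (sub_nonneg.2 (Real.exp_le_exp.2 h)), abs_sub_comm,
        abs_of_nonneg (sub_nonneg.2 h)]
      exact key _ _ hb h
    · rw [abs_of_nonneg (sub_nonneg.2 (Real.exp_le_exp.2 h)), abs_of_nonneg (sub_nonneg.2 h)]
      exact key _ _ ha h
  exact h6.trans (mul_le_mul_of_nonneg_left h5 (Real.exp_pos R).le)

private theorem A3_coord {n : ℕ} (x : E n) (i : Fin n) : |x i| ≤ ‖x‖ := by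
  rw [← Real.norm_eq_abs]
  exact PiLp.norm_apply_le x i

private theorem A3_ball {n : ℕ} {R : ℝ} {x : E n} (hx : x ∈ Metric.ball (0 : E n) R) (i : Fin n) :
    |x i| ≤ R := by
  rw [mem_ball_zero_iff] at hx
  exact (A3_coord x i).trans hx.le

private theorem A3_coord_sub {n : ℕ} (x y : E n) (i : Fin n) : |x i - y i| ≤ ‖x - y‖ :=
  A3_coord (x - y) i

private theorem A3_fst {R : ℝ} {x y : E (m + 1)} (hx : x ∈ Metric.ball (0 : E (m + 1)) R)
    (hy : y ∈ Metric.ball (0 : E (m + 1)) R) (i : Fin m) :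
    |sineFst x i - sineFst y i| ≤ 2 * Real.exp R * ‖x - y‖ := by
  have h1 := A3_exp (A3_ball hx (Fin.last m)) (A3_ball hy (Fin.last m))
  have h2 : |fold (x i.castSucc) - fold (y i.castSucc)| ≤ |x i.castSucc - y i.castSucc| := by
    have h := fold_lipschitz.dist_le_mul (x i.castSucc) (y i.castSucc)
    rw [Real.dist_eq, Real.dist_eq, NNReal.coe_one, one_mul] at h
    exact h
  have h3 := abs_fold_le (x i.castSucc)
  have h4 := A3_coord_sub x y (Fin.last m)
  have h5 := A3_coord_sub x y i.castSucc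
  have h6 : Real.exp |y (Fin.last m)| ≤ Real.exp R :=
    Real.exp_le_exp.2 (A3_ball hy (Fin.last m))
  have h7 : sineFst x i - sineFst y i =
      (Real.exp |x (Fin.last m)| - Real.exp |y (Fin.last m)|) * fold (x i.castSucc) +
        Real.exp |y (Fin.last m)| * (fold (x i.castSucc) - fold (y i.castSucc)) := by
    unfold sineFst
    ring
  have h0 : 0 ≤ ‖x - y‖ := norm_nonneg _
  have hR := (Real.exp_pos R).le
  calc |sineFst x i - sineFst y i| ≤
        |(Real.exp |x (Fin.last m)| - Real.exp |y (Fin.last m)|) * fold (x i.castSucc)| +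
        |Real.exp |y (Fin.last m)| * (fold (x i.castSucc) - fold (y i.castSucc))| := by
          rw [h7]
          exact abs_add_le _ _
    _ ≤ Real.exp R * ‖x - y‖ * 1 + Real.exp R * ‖x - y‖ := by
          rw [abs_mul, abs_mul, abs_of_pos (Real.exp_pos |y (Fin.last m)|)]
          apply add_le_add
          · exact mul_le_mul (h1.trans (mul_le_mul_of_nonneg_left h4 hR)) h3 (abs_nonneg _)
              (mul_nonneg hR h0)
          · exact mul_le_mul h6 (h2.trans h5) (abs_nonneg _) hR
    _ = 2 * Real.exp R * ‖x - y‖ := by ring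

private theorem A3_mx {R : ℝ} {x y : E (m + 1)} (hx : x ∈ Metric.ball (0 : E (m + 1)) R)
    (hy : y ∈ Metric.ball (0 : E (m + 1)) R) : |mx x - mx y| ≤ 2 * Real.exp R * ‖x - y‖ := by
  have h1 : ‖sineFst x - sineFst y‖ ≤ 2 * Real.exp R * ‖x - y‖ := by
    rw [pi_norm_le_iff_of_nonneg (by positivity)]
    intro i
    rw [Real.norm_eq_abs]
    exact A3_fst hx hy i
  have h2 : |mx x - mx y| ≤ |‖sineFst x‖ - ‖sineFst y‖| := by
    unfold mx
    rw [max_comm 1 ‖sineFst x‖, max_comm 1 ‖sineFst y‖]
    exact abs_max_sub_max_le_abs _ _ _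
  exact h2.trans ((abs_norm_sub_norm_le _ _).trans h1)

private theorem A3_M {R : ℝ} {x y : E (m + 1)} (hx : x ∈ Metric.ball (0 : E (m + 1)) R)
    (hy : y ∈ Metric.ball (0 : E (m + 1)) R) :
    |(Real.exp |x (Fin.last m)| - mx x) - (Real.exp |y (Fin.last m)| - mx y)| ≤
      3 * Real.exp R * ‖x - y‖ := by
  have h1 := A3_exp (A3_ball hx (Fin.last m)) (A3_ball hy (Fin.last m))
  have h2 := A3_mx hx hy
  have h4 := A3_coord_sub x y (Fin.last m)
  have h5 := mul_le_mul_of_nonneg_left h4 (Real.exp_pos R).le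
  have h6 : (Real.exp |x (Fin.last m)| - mx x) - (Real.exp |y (Fin.last m)| - mx y) =
      (Real.exp |x (Fin.last m)| - Real.exp |y (Fin.last m)|) - (mx x - mx y) := by ring
  rw [h6]
  have h7 := abs_sub (Real.exp |x (Fin.last m)| - Real.exp |y (Fin.last m)|) (mx x - mx y)
  linarith

/-- between points with different `cellSign` there is a point with `M = 0` -/
private theorem A3_between {x y : E (m + 1)} (h : cellSign x ≠ cellSign y) :
    ∃ θ ∈ Icc (0 : ℝ) 1, Real.exp |(x + θ • (y - x)) (Fin.last m)| - mx (x + θ • (y - x)) = 0 := by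
  have hc : ∀ (θ : ℝ) (i : Fin (m + 1)), (x + θ • (y - x)) i = x i + θ * (y i - x i) := by
    intro θ i
    rw [PiLp.add_apply, PiLp.smul_apply, PiLp.sub_apply, smul_eq_mul]
  by_cases hs : SignType.sign (x (Fin.last m)) = SignType.sign (y (Fin.last m))
  · have h1 : ∃ i : Fin m, round (x i.castSucc / 2) ≠ round (y i.castSucc / 2) := by
      by_contra hn
      push Not at hn
      apply h
      unfold cellSign
      rw [hs]
      congr 1
      exact Finset.prod_congr rfl fun i _ => by rw [hn i]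
    obtain ⟨i, hi⟩ := h1
    obtain ⟨θ, hθ, hf⟩ := exists_abs_fold_eq_one _ _ hi
    refine ⟨θ, hθ, ?_⟩
    rw [sub_eq_zero]
    refine (mx_eq_of_fold _ i ?_).symm
    rw [hc, hf]
  · have hxy : x (Fin.last m) * y (Fin.last m) ≤ 0 := by
      by_contra hn
      push Not at hn
      apply hs
      rcases pos_and_pos_or_neg_and_neg_of_mul_pos hn with ⟨h1, h2⟩ | ⟨h1, h2⟩
      · rw [sign_pos h1, sign_pos h2]
      · rw [sign_neg h1, sign_neg h2]
    have hne : x (Fin.last m) ≠ y (Fin.last m) := fun h1 => hs (by rw [h1])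
    have hd : x (Fin.last m) - y (Fin.last m) ≠ 0 := sub_ne_zero.2 hne
    have hd2 : 0 < (x (Fin.last m) - y (Fin.last m)) ^ 2 := by positivity
    refine ⟨x (Fin.last m) / (x (Fin.last m) - y (Fin.last m)), ⟨?_, ?_⟩, ?_⟩
    · have h1 : x (Fin.last m) / (x (Fin.last m) - y (Fin.last m)) =
          (x (Fin.last m) * (x (Fin.last m) - y (Fin.last m))) /
            (x (Fin.last m) - y (Fin.last m)) ^ 2 := by
        field_simp
      rw [h1]
      apply div_nonneg _ hd2.le
      nlinarith [sq_nonneg (x (Fin.last m))]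
    · have h1 : 1 - x (Fin.last m) / (x (Fin.last m) - y (Fin.last m)) =
          (y (Fin.last m) * (y (Fin.last m) - x (Fin.last m))) /
            (x (Fin.last m) - y (Fin.last m)) ^ 2 := by
        field_simp
        ring
      have h2 : 0 ≤ (y (Fin.last m) * (y (Fin.last m) - x (Fin.last m))) /
            (x (Fin.last m) - y (Fin.last m)) ^ 2 := by
        apply div_nonneg _ hd2.le
        nlinarith [sq_nonneg (y (Fin.last m))]
      linarith
    · rw [sub_eq_zero]
      refine (mx_eq_of_last _ ?_).symm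
      rw [hc]
      field_simp
      ring

private theorem A3_last {R : ℝ} {x y : E (m + 1)} (hx : x ∈ Metric.ball (0 : E (m + 1)) R)
    (hy : y ∈ Metric.ball (0 : E (m + 1)) R) :
    |cellSign x * (Real.exp |x (Fin.last m)| - mx x) -
      cellSign y * (Real.exp |y (Fin.last m)| - mx y)| ≤ 3 * Real.exp R * ‖x - y‖ := by
  have hRR := (Real.exp_pos R).le
  by_cases h : cellSign x = cellSign y
  · rw [h, ← mul_sub, abs_mul]
    calc |cellSign y| * |(Real.exp |x (Fin.last m)| - mx x) - (Real.exp |y (Fin.last m)| - mx y)|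
        ≤ 1 * (3 * Real.exp R * ‖x - y‖) :=
          mul_le_mul (abs_cellSign_le y) (A3_M hx hy) (abs_nonneg _) zero_le_one
      _ = _ := one_mul _
  · obtain ⟨θ, hθ, hz⟩ := A3_between h
    have hzb : x + θ • (y - x) ∈ Metric.ball (0 : E (m + 1)) R :=
      (convex_ball (0 : E (m + 1)) R).add_smul_sub_mem hx hy hθ
    have h1 := A3_M hx hzb
    have h2 := A3_M hzb hy
    rw [hz, sub_zero] at h1
    rw [hz, zero_sub, abs_neg] at h2
    have h3 : ‖x - (x + θ • (y - x))‖ = θ * ‖x - y‖ := by
      have h4 : x - (x + θ • (y - x)) = θ • (x - y) := by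
        rw [sub_add_cancel_left, ← smul_neg, neg_sub]
      rw [h4, norm_smul, Real.norm_eq_abs, abs_of_nonneg hθ.1]
    have h5 : ‖(x + θ • (y - x)) - y‖ = (1 - θ) * ‖x - y‖ := by
      have h4 : (x + θ • (y - x)) - y = (1 - θ) • (x - y) := by
        rw [sub_smul, one_smul, smul_sub, smul_sub]
        abel
      rw [h4, norm_smul, Real.norm_eq_abs, abs_of_nonneg (by linarith [hθ.2])]
    rw [h3] at h1
    rw [h5] at h2
    have h6 := abs_sub (cellSign x * (Real.exp |x (Fin.last m)| - mx x))
      (cellSign y * (Real.exp |y (Fin.last m)| - mx y))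
    rw [abs_mul, abs_mul] at h6
    have h7 : |cellSign x| * |Real.exp |x (Fin.last m)| - mx x| ≤
        1 * (3 * Real.exp R * (θ * ‖x - y‖)) :=
      mul_le_mul (abs_cellSign_le x) h1 (abs_nonneg _) zero_le_one
    have h8 : |cellSign y| * |Real.exp |y (Fin.last m)| - mx y| ≤
        1 * (3 * Real.exp R * ((1 - θ) * ‖x - y‖)) :=
      mul_le_mul (abs_cellSign_le y) h2 (abs_nonneg _) zero_le_one
    refine h6.trans ((add_le_add h7 h8).trans (le_of_eq ?_))
    ring

theorem mx_locallyLipschitz : LocallyLipschitz (mx : E (m + 1) → ℝ) := by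
  apply A3_loc
  intro R _
  refine ⟨2 * Real.exp R, by positivity, ?_⟩
  intro x hx y hy
  rw [Real.dist_eq]
  exact A3_mx hx hy

theorem sine_locallyLipschitz : LocallyLipschitz (sine : E (m + 1) → E (m + 1)) := by
  have h : LocallyLipschitz (fun x : E (m + 1) => (Fin.snoc (α := fun _ => ℝ) (sineFst x)
      (cellSign x * (Real.exp |x (Fin.last m)| - mx x)) : Fin (m + 1) → ℝ)) := by
    apply A3_loc
    intro R _
    refine ⟨3 * Real.exp R, by positivity, ?_⟩
    intro x hx y hy
    have h0 : 0 ≤ Real.exp R * ‖x - y‖ := mul_nonneg (Real.exp_pos R).le (norm_nonneg _)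
    rw [dist_pi_le_iff (by positivity)]
    intro i
    rw [Real.dist_eq]
    refine Fin.lastCases ?_ (fun j => ?_) i
    · rw [Fin.snoc_last, Fin.snoc_last]
      exact A3_last hx hy
    · rw [Fin.snoc_castSucc, Fin.snoc_castSucc]
      have h1 := A3_fst hx hy j
      linarith
  exact (PiLp.lipschitzWith_toLp 2 (fun _ : Fin (m + 1) => ℝ)).locallyLipschitz.comp h

end QRAsym
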