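import Pool.Agent.Lib_MP_53ae57.A3_SineLip

/-!
[QR-A4a] Structure of the derivative of the sine at a point `x` where the sine and `mx` are
differentiable, `x_last ≠ 0`, and no `x_i`, `i < m`, is an odd integer.

Proof. Let `τ = sign(x_last)`, `|x_i - 2 k_i| < 1`, `ε_i = (-1)^(k_i)`, `φ_i = fold(x_i)`,
`a = e^|x_last|`. Near `x`: `|y_last| = τ y_last`, `fold(y_i) = ε_i (y_i - 2 k_i)` (`fold_eq`) and
`cellSign y = σ τ`, `σ = ∏ ε_i` (`round_eq'`). So near `x` the coordinate `i` of the sine is
`e^(τ y_last) ε_i (y_i - 2 k_i)`, with derivative `v ↦ a (ε_i v_i + τ φ_i v_last)`, and the last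
coordinate is `σ τ (e^(τ y_last) - mx y)`, with derivative `σ a v_last - σ τ (Dmx) v`.
If `mx x = 1` then `x` is a minimum of `mx`, so `Dmx = 0`: take `κ = 0`.
If `mx x ≠ 1` then `mx x = |sine x j|` for some `j` (`j < m`, the sup norm on `Fin m → ℝ` is attained)
and this number is `> 1 > 0`; with `s = sign (sine x j)` the function `y ↦ mx y - s (sine y j)` is
`≥ 0` and vanishes at `x`, so `Dmx v = s (D sine v)_j`: take `κ = -σ τ s` at `j`, `0` elsewhere.
(`IsLocalMin.hasFDerivAt_eq_zero`/`IsLocalMin.fderiv_eq_zero`.)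
-/

open Set

namespace QRAsym

variable {m : ℕ}

/-- The shape of the derivative: `D` maps `v` to the vector with coordinates
`a (ε_i v_i + φ_i v_last)` for `i < m` and last coordinate `(∏ ε_i) a v_last + ∑ κ_j (D v)_j`. -/
def Shape (a : ℝ) (D : E (m + 1) →L[ℝ] E (m + 1)) : Prop :=
  ∃ ε φ κ : Fin m → ℝ, (∀ i, ε i = 1 ∨ ε i = -1) ∧ (∀ i, |φ i| ≤ 1) ∧ (∑ i, |κ i| ≤ 1) ∧
    ∀ v : E (m + 1),
      (∀ i : Fin m, D v i.castSucc = a * (ε i * v i.castSucc + φ i * v (Fin.last m))) ∧
      D v (Fin.last m) = (∏ i, ε i) * a * v (Fin.last m) + ∑ j, κ j * D v j.castSucc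

/-- the sine near a point inside a cell, with last coordinate of constant sign -/
private theorem a4a_coord (y : E (m + 1)) (k : Fin m → ℤ) (τ : ℝ)
    (h1 : |y (Fin.last m)| = τ * y (Fin.last m)) (h2 : ∀ i : Fin m, |y i.castSucc - 2 * k i| < 1)
    (i : Fin m) : sine y i.castSucc =
      Real.exp (τ * y (Fin.last m)) * ((-1 : ℝ) ^ (k i) * (y i.castSucc - 2 * k i)) := by
  rw [sine_castSucc, h1, fold_eq (k i) _ (h2 i).le]

private theorem a4a_last (y : E (m + 1)) (k : Fin m → ℤ) (τ : ℝ)
    (h1 : |y (Fin.last m)| = τ * y (Fin.last m))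
    (h3 : (SignType.sign (y (Fin.last m)) : ℝ) = τ)
    (h2 : ∀ i : Fin m, |y i.castSucc - 2 * k i| < 1) : sine y (Fin.last m) =
      ((∏ i : Fin m, (-1 : ℝ) ^ (k i)) * τ) * (Real.exp (τ * y (Fin.last m)) - mx y) := by
  rw [sine_last, h1, cellSign, h3]
  congr 2
  refine Finset.prod_congr rfl fun i _ => ?_
  rw [round_eq' (k i) _ (h2 i)]

private theorem a4a_sign (z : ℝ) (hz : z ≠ 0) : ∃ τ : ℝ, (τ = 1 ∨ τ = -1) ∧
    ∀ᶠ w in nhds z, |w| = τ * w ∧ (SignType.sign w : ℝ) = τ := by
  rcases lt_or_gt_of_ne hz with h | h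
  · refine ⟨-1, Or.inr rfl, ?_⟩
    filter_upwards [gt_mem_nhds h] with w hw
    refine ⟨?_, ?_⟩
    · rw [abs_of_neg hw]
      ring
    · rw [sign_neg hw]
      simp
  · refine ⟨1, Or.inl rfl, ?_⟩
    filter_upwards [lt_mem_nhds h] with w hw
    refine ⟨?_, ?_⟩
    · rw [abs_of_pos hw]
      ring
    · rw [sign_pos hw]
      simp

theorem sine_shape (x : E (m + 1)) (hd : DifferentiableAt ℝ (sine : E (m + 1) → E (m + 1)) x)
    (hm : DifferentiableAt ℝ (mx : E (m + 1) → ℝ) x) (hl : x (Fin.last m) ≠ 0)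
    (hc : ∀ i : Fin m, ∃ k : ℤ, |x i.castSucc - 2 * k| < 1) :
    Shape (Real.exp |x (Fin.last m)|) (fderiv ℝ (sine : E (m + 1) → E (m + 1)) x) := by
  classical
  choose k hk using hc
  obtain ⟨τ, hτ, hτe⟩ := a4a_sign _ hl
  have hτ0 := hτe.self_of_nhds
  set D := fderiv ℝ (sine : E (m + 1) → E (m + 1)) x with hD
  set Dm := fderiv ℝ (mx : E (m + 1) → ℝ) x with hDm
  set ε : Fin m → ℝ := fun i => (-1 : ℝ) ^ (k i) with hε
  set σ : ℝ := ∏ i : Fin m, ε i with hσ
  have hε1 : ∀ i, ε i = 1 ∨ ε i = -1 := fun i => by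
    rcases Int.even_or_odd (k i) with h | h
    · exact Or.inl h.neg_one_zpow
    · exact Or.inr h.neg_one_zpow
  have hσ1 : σ = 1 ∨ σ = -1 := by
    rw [hσ]
    have : ∀ t : Finset (Fin m), ∏ i ∈ t, ε i = 1 ∨ ∏ i ∈ t, ε i = -1 := by
      intro t
      induction t using Finset.induction_on with
      | empty => left; simp
      | insert a t ha ih =>
        rw [Finset.prod_insert ha]
        rcases hε1 a with h | h <;> rcases ih with h' | h' <;> rw [h, h'] <;> norm_num
    exact this _
  have hfold : ∀ i : Fin m, fold (x i.castSucc) = ε i * (x i.castSucc - 2 * k i) := fun i =>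
    fold_eq (k i) _ (hk i).le
  -- lines
  have hline : ∀ v : E (m + 1), HasDerivAt (fun t : ℝ => x + t • v) v 0 := by
    intro v
    have h1 : HasDerivAt (fun t : ℝ => t • v) ((1 : ℝ) • v) 0 :=
      (hasDerivAt_id (0 : ℝ)).smul_const v
    rw [one_smul] at h1
    exact h1.const_add x
  have hx0 : ∀ v : E (m + 1), x + (0 : ℝ) • v = x := fun v => by rw [zero_smul, add_zero]
  have hcont : ∀ v : E (m + 1), Filter.Tendsto (fun t : ℝ => x + t • v) (nhds 0) (nhds x) := by
    intro v
    have h := (hline v).continuousAt.tendsto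
    rw [hx0] at h
    exact h
  have hproj : ∀ (v : E (m + 1)) (i : Fin (m + 1)),
      HasDerivAt (fun t : ℝ => (x + t • v) i) (v i) 0 := fun v i =>
    (EuclideanSpace.proj (𝕜 := ℝ) i).hasFDerivAt.comp_hasDerivAt 0 (hline v)
  have hDline : ∀ v : E (m + 1), HasDerivAt (fun t : ℝ => sine (x + t • v)) (D v) 0 := by
    intro v
    have h1 : HasFDerivAt (sine : E (m + 1) → E (m + 1)) D (x + (0 : ℝ) • v) := by
      rw [hx0]
      exact hd.hasFDerivAt
    exact h1.comp_hasDerivAt 0 (hline v)
  have hDcoord : ∀ (v : E (m + 1)) (i : Fin (m + 1)),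
      HasDerivAt (fun t : ℝ => sine (x + t • v) i) (D v i) 0 := fun v i =>
    (EuclideanSpace.proj (𝕜 := ℝ) i).hasFDerivAt.comp_hasDerivAt 0 (hDline v)
  have hMline : ∀ v : E (m + 1), HasDerivAt (fun t : ℝ => mx (x + t • v)) (Dm v) 0 := by
    intro v
    have h1 : HasFDerivAt (mx : E (m + 1) → ℝ) Dm (x + (0 : ℝ) • v) := by
      rw [hx0]
      exact hm.hasFDerivAt
    exact h1.comp_hasDerivAt 0 (hline v)
  have hev : ∀ v : E (m + 1), ∀ᶠ t in nhds (0 : ℝ),
      (|(x + t • v) (Fin.last m)| = τ * (x + t • v) (Fin.last m) ∧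
        (SignType.sign ((x + t • v) (Fin.last m)) : ℝ) = τ) ∧
      ∀ i : Fin m, |(x + t • v) i.castSucc - 2 * k i| < 1 := by
    intro v
    refine Filter.Eventually.and ?_ ?_
    · have h1 : Filter.Tendsto (fun t : ℝ => (x + t • v) (Fin.last m)) (nhds 0)
          (nhds (x (Fin.last m))) := by
        have h := (hproj v (Fin.last m)).continuousAt.tendsto
        rw [hx0] at h
        exact h
      exact h1.eventually hτe
    · rw [Filter.eventually_all]
      intro i
      have h1 : Filter.Tendsto (fun t : ℝ => |(x + t • v) i.castSucc - 2 * k i|) (nhds 0)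
          (nhds |x i.castSucc - 2 * k i|) := by
        have h := ((hproj v i.castSucc).continuousAt.tendsto.sub_const (2 * (k i : ℝ))).abs
        rw [hx0] at h
        exact h
      exact h1.eventually (gt_mem_nhds (hk i))
  have hexp : ∀ v : E (m + 1), HasDerivAt (fun t : ℝ => Real.exp (τ * (x + t • v) (Fin.last m)))
      (Real.exp |x (Fin.last m)| * (τ * v (Fin.last m))) 0 := by
    intro v
    have h1 := ((hproj v (Fin.last m)).const_mul τ).exp
    rw [hx0, ← hτ0.1] at h1
    exact h1
  -- the first coordinates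
  have hfst : ∀ (v : E (m + 1)) (i : Fin m), D v i.castSucc = Real.exp |x (Fin.last m)| *
      (ε i * v i.castSucc + τ * fold (x i.castSucc) * v (Fin.last m)) := by
    intro v i
    have h1 : HasDerivAt (fun t : ℝ => Real.exp (τ * (x + t • v) (Fin.last m)) *
        (ε i * ((x + t • v) i.castSucc - 2 * k i)))
        (Real.exp |x (Fin.last m)| * (τ * v (Fin.last m)) *
          (ε i * ((x + (0 : ℝ) • v) i.castSucc - 2 * k i)) +
          Real.exp (τ * (x + (0 : ℝ) • v) (Fin.last m)) * (ε i * v i.castSucc)) 0 :=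
      (hexp v).mul (((hproj v i.castSucc).sub_const _).const_mul (ε i))
    have h2 : HasDerivAt (fun t : ℝ => sine (x + t • v) i.castSucc) _ 0 :=
      h1.congr_of_eventuallyEq (by
        filter_upwards [hev v] with t ht
        exact a4a_coord _ k τ ht.1.1 ht.2 i)
    rw [(hDcoord v i.castSucc).unique h2, hx0, ← hτ0.1, hfold]
    ring
  -- the last coordinate
  have hlast : ∀ v : E (m + 1), D v (Fin.last m) =
      σ * Real.exp |x (Fin.last m)| * v (Fin.last m) - σ * τ * Dm v := by
    intro v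
    have h1 := ((hexp v).sub (hMline v)).const_mul (σ * τ)
    have h2 : HasDerivAt (fun t : ℝ => sine (x + t • v) (Fin.last m)) _ 0 :=
      h1.congr_of_eventuallyEq (by
        filter_upwards [hev v] with t ht
        exact a4a_last _ k τ ht.1.1 ht.1.2 ht.2)
    rw [(hDcoord v (Fin.last m)).unique h2]
    have h3 : τ * τ = 1 := by
      rcases hτ with h | h <;> rw [h] <;> norm_num
    linear_combination σ * Real.exp |x (Fin.last m)| * v (Fin.last m) * h3
  have hφ1 : ∀ i : Fin m, |τ * fold (x i.castSucc)| ≤ 1 := by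
    intro i
    rw [abs_mul]
    have h1 : |τ| = 1 := by
      rcases hτ with h | h <;> rw [h] <;> norm_num
    rw [h1, one_mul]
    exact abs_fold_le _
  by_cases hmx : mx x = 1
  · have h0 : Dm = 0 := by
      refine IsLocalMin.fderiv_eq_zero ?_
      refine Filter.Eventually.of_forall fun y => ?_
      rw [hmx]
      exact one_le_mx y
    refine ⟨ε, fun i => τ * fold (x i.castSucc), 0, hε1, hφ1, by simp, fun v =>
      ⟨fun i => hfst v i, ?_⟩⟩
    rw [hlast, h0]
    simp [hσ]
  · have h1lt : 1 < mx x := lt_of_le_of_ne (one_le_mx x) (Ne.symm hmx)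
    have hmn : mx x = ‖sineFst x‖ := by
      unfold mx at h1lt ⊢
      rcases le_total 1 ‖sineFst x‖ with h | h
      · exact max_eq_right h
      · rw [max_eq_left h] at h1lt
        exact absurd h1lt (lt_irrefl _)
    have hex : ∃ j, mx x = |sineFst x j| := by
      by_contra hcon
      push Not at hcon
      have h2 : ‖sineFst x‖ < mx x := by
        rw [pi_norm_lt_iff (by linarith)]
        intro j
        refine lt_of_le_of_ne ?_ (fun h => hcon j (by rw [← h, Real.norm_eq_abs]))
        rw [hmn]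
        exact norm_le_pi_norm _ j
      rw [← hmn] at h2
      exact lt_irrefl _ h2
    obtain ⟨j, hj⟩ := hex
    have hsf : ∀ y : E (m + 1), sine y j.castSucc = sineFst y j := fun y => sine_castSucc y j
    obtain ⟨s, hs1, hs2⟩ : ∃ s : ℝ, (s = 1 ∨ s = -1) ∧ s * sineFst x j = |sineFst x j| := by
      rcases le_total 0 (sineFst x j) with h | h
      · exact ⟨1, Or.inl rfl, by rw [abs_of_nonneg h, one_mul]⟩
      · exact ⟨-1, Or.inr rfl, by rw [abs_of_nonpos h, neg_one_mul]⟩
    have hge : ∀ y : E (m + 1), s * sineFst y j ≤ mx y := by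
      intro y
      have h2 : s * sineFst y j ≤ |sineFst y j| := by
        rcases hs1 with h | h
        · rw [h, one_mul]
          exact le_abs_self _
        · rw [h, neg_one_mul]
          exact neg_le_abs _
      refine h2.trans ((norm_le_pi_norm (sineFst y) j).trans (le_max_right _ _))
    have hDmv : ∀ v : E (m + 1), Dm v = s * D v j.castSucc := by
      intro v
      have h2 := (hMline v).sub ((hDcoord v j.castSucc).const_mul s)
      have h3 : IsLocalMin ((fun t : ℝ => mx (x + t • v)) -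
          fun t : ℝ => s * sine (x + t • v) j.castSucc) 0 := by
        refine Filter.Eventually.of_forall fun t => ?_
        simp only [Pi.sub_apply]
        rw [hx0, hsf, hsf, hs2, hj, sub_self]
        have := hge (x + t • v)
        rw [hj] at *
        linarith
      have h4 := h3.hasDerivAt_eq_zero h2
      linarith
    have hκ : |-(σ * τ * s)| = 1 := by
      rcases hσ1 with h | h <;> rcases hτ with h' | h' <;> rcases hs1 with h'' | h'' <;>
        rw [h, h', h''] <;> norm_num
    refine ⟨ε, fun i => τ * fold (x i.castSucc), fun i => if i = j then -(σ * τ * s) else 0, hε1,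
      hφ1, ?_, fun v => ⟨fun i => hfst v i, ?_⟩⟩
    · have h2 : ∀ i : Fin m, |if i = j then -(σ * τ * s) else 0| =
          if i = j then |-(σ * τ * s)| else 0 := by
        intro i
        split_ifs
        · rfl
        · exact abs_zero
      simp only [h2]
      rw [Finset.sum_ite_eq' Finset.univ j, if_pos (Finset.mem_univ _), hκ]
    · rw [hlast, hDmv]
      simp only [ite_mul, zero_mul]
      rw [Finset.sum_ite_eq' Finset.univ j, if_pos (Finset.mem_univ _)]
      ring

end QRAsym
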