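import Pool.Agent.Lib_MP_53ae57.A4a_Struct

/-!
[QR-A4b] Linear algebra of `Shape a D`, `a > 0`.

Bounds. Let `w = D v`, `M = max |w_i|` over all `m+1` coordinates, `M ≤ ‖w‖`. Last coordinate:
`a |v_last| = |(∏ ε) a v_last| ≤ |w_last| + ∑ |κ_j| |w_j| ≤ 2 M`. Coordinate `i`:
`a |v_i| = |a ε_i v_i| ≤ |w_i| + a |φ_i| |v_last| ≤ 3 M`. So all coordinates of `v` are at most
`3 M / a`, hence `a ‖v‖ ≤ 3 (m+1) ‖w‖` (`√(m+1) ≤ m+1`). In the same way, with `N = max |v_i| ≤ ‖v‖`:
`|w_i| ≤ 2 a N`, `|w_last| ≤ a N + 2 a N`, so `‖w‖ ≤ 3 (m+1) a ‖v‖`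
(`ContinuousLinearMap.opNorm_le_bound`).
Determinant. `D = S ∘ T`, `T v = (a (ε_i v_i + φ_i v_last), (∏ ε) a v_last)` and
`S w = (w_i, w_last + ∑ κ_j w_j)`. In the standard basis `T` is upper triangular with diagonal
`a ε_i`, `(∏ ε) a`, determinant `a^(m+1) (∏ ε)^2 = a^(m+1)`, and `S` is lower triangular with
diagonal `1` (`Matrix.det_of_upperTriangular`, `Matrix.det_of_lowerTriangular`,
`LinearMap.det_toLin` with `(EuclideanSpace.basisFun _ ℝ).toBasis`, or `LinearMap.det_conj`).
-/

open Set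

namespace QRAsym

variable {m : ℕ}

private theorem norm_le_of_coord (v : E (m + 1)) {c : ℝ} (hc : 0 ≤ c) (h : ∀ i, |v i| ≤ c) :
    ‖v‖ ≤ (m + 1) * c := by
  rw [EuclideanSpace.norm_eq]
  apply Real.sqrt_le_iff.mpr
  refine ⟨by positivity, ?_⟩
  have h1 : ∀ i, ‖v i‖ ^ 2 ≤ c ^ 2 := fun i => by
    rw [Real.norm_eq_abs]
    exact pow_le_pow_left₀ (abs_nonneg _) (h i) 2
  calc ∑ i, ‖v i‖ ^ 2 ≤ ∑ _i : Fin (m + 1), c ^ 2 := Finset.sum_le_sum fun i _ => h1 i
    _ = ((m : ℝ) + 1) * c ^ 2 := by simp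
    _ ≤ ((m + 1) * c) ^ 2 := by
      rw [mul_pow]
      apply mul_le_mul_of_nonneg_right _ (sq_nonneg c)
      have : (0 : ℝ) ≤ m := Nat.cast_nonneg m
      nlinarith

private theorem coord_le_norm (v : E (m + 1)) (i : Fin (m + 1)) : |v i| ≤ ‖v‖ := by
  have := PiLp.norm_apply_le v i
  rwa [Real.norm_eq_abs] at this

private theorem abs_prod_sign {ε : Fin m → ℝ} (hε : ∀ i, ε i = 1 ∨ ε i = -1) :
    |∏ i, ε i| = 1 := by
  rw [Finset.abs_prod]
  apply Finset.prod_eq_one
  intro i _
  rcases hε i with h | h <;> simp [h]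

private theorem abs_sum_le' {κ : Fin m → ℝ} {w : Fin m → ℝ} {M : ℝ} (hM : 0 ≤ M)
    (hκ : ∑ i, |κ i| ≤ 1) (hw : ∀ i, |w i| ≤ M) : |∑ j, κ j * w j| ≤ M := by
  calc |∑ j, κ j * w j| ≤ ∑ j, |κ j * w j| := Finset.abs_sum_le_sum_abs _ _
    _ ≤ ∑ j, |κ j| * M := Finset.sum_le_sum fun j _ => by
        rw [abs_mul]; exact mul_le_mul_of_nonneg_left (hw j) (abs_nonneg _)
    _ = (∑ j, |κ j|) * M := by rw [Finset.sum_mul]
    _ ≤ 1 * M := mul_le_mul_of_nonneg_right hκ hM
    _ = M := one_mul M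

theorem shape_lower {a : ℝ} (ha : 0 < a) {D : E (m + 1) →L[ℝ] E (m + 1)} (h : Shape a D)
    (v : E (m + 1)) : a * ‖v‖ ≤ 3 * (m + 1) * ‖D v‖ := by
  obtain ⟨ε, φ, κ, hε, hφ, hκ, H⟩ := h
  obtain ⟨H1, H2⟩ := H v
  set M := ‖D v‖ with hM
  have hM0 : 0 ≤ M := norm_nonneg _
  have hw : ∀ i, |D v i| ≤ M := fun i => coord_le_norm _ i
  have hP := abs_prod_sign hε
  have hlast : a * |v (Fin.last m)| ≤ 2 * M := by
    have e1 : (∏ i, ε i) * a * v (Fin.last m) = D v (Fin.last m) - ∑ j, κ j * D v j.castSucc := by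
      rw [H2]; ring
    have e2 : |(∏ i, ε i) * a * v (Fin.last m)| = a * |v (Fin.last m)| := by
      rw [abs_mul, abs_mul, hP, abs_of_pos ha, one_mul]
    rw [← e2, e1]
    calc |D v (Fin.last m) - ∑ j, κ j * D v j.castSucc|
        ≤ |D v (Fin.last m)| + |∑ j, κ j * D v j.castSucc| := abs_sub _ _
      _ ≤ M + M := add_le_add (hw _) (abs_sum_le' hM0 hκ fun i => hw _)
      _ = 2 * M := by ring
  have hi : ∀ i : Fin m, a * |v i.castSucc| ≤ 3 * M := by
    intro i
    have e1 : a * (ε i * v i.castSucc) = D v i.castSucc - a * (φ i * v (Fin.last m)) := by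
      rw [H1 i]; ring
    have hεi : |ε i| = 1 := by rcases hε i with h | h <;> simp [h]
    have e2 : |a * (ε i * v i.castSucc)| = a * |v i.castSucc| := by
      rw [abs_mul, abs_mul, hεi, abs_of_pos ha, one_mul]
    rw [← e2, e1]
    calc |D v i.castSucc - a * (φ i * v (Fin.last m))|
        ≤ |D v i.castSucc| + |a * (φ i * v (Fin.last m))| := abs_sub _ _
      _ ≤ M + 2 * M := by
          apply add_le_add (hw _)
          rw [abs_mul, abs_mul, abs_of_pos ha]
          calc a * (|φ i| * |v (Fin.last m)|) ≤ a * (1 * |v (Fin.last m)|) := by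
                apply mul_le_mul_of_nonneg_left _ ha.le
                exact mul_le_mul_of_nonneg_right (hφ i) (abs_nonneg _)
            _ = a * |v (Fin.last m)| := by rw [one_mul]
            _ ≤ 2 * M := hlast
      _ = 3 * M := by ring
  have hall : ∀ i, |v i| ≤ 3 * M / a := by
    intro i
    rw [le_div_iff₀ ha, mul_comm]
    refine Fin.lastCases ?_ (fun i => hi i) i
    linarith
  have := norm_le_of_coord v (c := 3 * M / a) (by positivity) hall
  calc a * ‖v‖ ≤ a * ((m + 1) * (3 * M / a)) := mul_le_mul_of_nonneg_left this ha.le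
    _ = 3 * (m + 1) * M := by field_simp

theorem shape_upper {a : ℝ} (ha : 0 < a) {D : E (m + 1) →L[ℝ] E (m + 1)} (h : Shape a D) :
    ‖D‖ ≤ 3 * (m + 1) * a := by
  obtain ⟨ε, φ, κ, hε, hφ, hκ, H⟩ := h
  refine ContinuousLinearMap.opNorm_le_bound _ (by positivity) fun v => ?_
  obtain ⟨H1, H2⟩ := H v
  set N := ‖v‖ with hN
  have hN0 : 0 ≤ N := norm_nonneg _
  have hv : ∀ i, |v i| ≤ N := fun i => coord_le_norm _ i
  have hP := abs_prod_sign hε
  have hi : ∀ i : Fin m, |D v i.castSucc| ≤ 2 * (a * N) := by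
    intro i
    have hεi : |ε i| = 1 := by rcases hε i with h | h <;> simp [h]
    rw [H1 i, abs_mul, abs_of_pos ha]
    calc a * |ε i * v i.castSucc + φ i * v (Fin.last m)|
        ≤ a * (|ε i * v i.castSucc| + |φ i * v (Fin.last m)|) :=
          mul_le_mul_of_nonneg_left (abs_add_le _ _) ha.le
      _ ≤ a * (N + N) := by
          apply mul_le_mul_of_nonneg_left _ ha.le
          rw [abs_mul, abs_mul, hεi, one_mul]
          apply add_le_add (hv _)
          calc |φ i| * |v (Fin.last m)| ≤ 1 * |v (Fin.last m)| :=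
                mul_le_mul_of_nonneg_right (hφ i) (abs_nonneg _)
            _ = |v (Fin.last m)| := one_mul _
            _ ≤ N := hv _
      _ = 2 * (a * N) := by ring
  have hall : ∀ i, |D v i| ≤ 3 * (a * N) := by
    intro i
    refine Fin.lastCases ?_ (fun i => ?_) i
    · rw [H2]
      calc |(∏ i, ε i) * a * v (Fin.last m) + ∑ j, κ j * D v j.castSucc|
          ≤ |(∏ i, ε i) * a * v (Fin.last m)| + |∑ j, κ j * D v j.castSucc| := abs_add_le _ _
        _ ≤ a * N + 2 * (a * N) := by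
            apply add_le_add
            · rw [abs_mul, abs_mul, hP, abs_of_pos ha, one_mul]
              exact mul_le_mul_of_nonneg_left (hv _) ha.le
            · exact abs_sum_le' (by positivity) hκ fun i => hi i
        _ = 3 * (a * N) := by ring
    · have := hi i
      have h0 : 0 ≤ a * N := by positivity
      linarith
  have := norm_le_of_coord (D v) (c := 3 * (a * N)) (by positivity) hall
  calc ‖D v‖ ≤ (m + 1) * (3 * (a * N)) := this
    _ = 3 * (m + 1) * a * N := by ring

theorem shape_det {a : ℝ} (ha : 0 < a) {D : E (m + 1) →L[ℝ] E (m + 1)} (h : Shape a D) :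
    0 < LinearMap.det D.toLinearMap := by
  obtain ⟨ε, φ, κ, hε, hφ, hκ, H⟩ := h
  set b := (EuclideanSpace.basisFun (Fin (m + 1)) ℝ).toBasis with hb
  let T : Matrix (Fin (m + 1)) (Fin (m + 1)) ℝ := Matrix.of fun i j =>
    Fin.lastCases (motive := fun _ => ℝ) ((∏ i, ε i) * a * (b j) (Fin.last m))
      (fun i' => a * (ε i' * (b j) i'.castSucc + φ i' * (b j) (Fin.last m))) i
  let S : Matrix (Fin (m + 1)) (Fin (m + 1)) ℝ := Matrix.of fun i j =>
    Fin.lastCases (motive := fun _ => ℝ) (Fin.lastCases (motive := fun _ => ℝ) 1 κ j)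
      (fun i' => if i'.castSucc = j then 1 else 0) i
  have hbj : ∀ i j, (b j) i = if i = j then 1 else 0 := by
    intro i j
    simp [hb, EuclideanSpace.basisFun_apply]
  have hT1 : ∀ (i : Fin m) j, T i.castSucc j =
      a * (ε i * (b j) i.castSucc + φ i * (b j) (Fin.last m)) := by
    intro i j; simp [T]
  have hT2 : ∀ j, T (Fin.last m) j = (∏ i, ε i) * a * (b j) (Fin.last m) := by
    intro j; simp [T]
  have hS1 : ∀ (i : Fin m) j, S i.castSucc j = if i.castSucc = j then 1 else 0 := by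
    intro i j; simp [S]
  have hS2 : ∀ j : Fin m, S (Fin.last m) j.castSucc = κ j := by
    intro j; simp [S]
  have hS3 : S (Fin.last m) (Fin.last m) = 1 := by simp [S]
  have hD : LinearMap.toMatrix b b D.toLinearMap = S * T := by
    ext i j
    rw [LinearMap.toMatrix_apply, Matrix.mul_apply, Fin.sum_univ_castSucc]
    obtain ⟨H1, H2⟩ := H (b j)
    have e0 : (b.repr (D.toLinearMap (b j))) i = D (b j) i := by
      simp [hb]
    rw [e0]
    refine Fin.lastCases ?_ (fun i => ?_) i
    · rw [H2, hS3, one_mul, hT2]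
      have : ∀ k : Fin m, S (Fin.last m) k.castSucc * T k.castSucc j
          = κ k * D (b j) k.castSucc := by
        intro k; rw [hS2, hT1, H1]
      rw [Finset.sum_congr rfl fun k _ => this k]
      ring
    · have hne : i.castSucc ≠ Fin.last m := (Fin.castSucc_lt_last i).ne
      rw [hS1 i (Fin.last m), if_neg hne, zero_mul, add_zero,
        Finset.sum_eq_single i, hS1, if_pos rfl, one_mul, hT1, H1]
      · intro k _ hk
        rw [hS1, if_neg, zero_mul]
        intro h
        exact hk (Fin.castSucc_injective _ h).symm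
      · intro h; exact absurd (Finset.mem_univ _) h
  have hdet : LinearMap.det D.toLinearMap = S.det * T.det := by
    rw [← LinearMap.det_toMatrix b, hD, Matrix.det_mul]
  have hSdet : S.det = 1 := by
    rw [Matrix.det_of_isLowerTriangular]
    · apply Finset.prod_eq_one
      intro i _
      refine Fin.lastCases hS3 (fun i => ?_) i
      rw [hS1, if_pos rfl]
    · intro i j hij
      have hij' : i < j := hij
      have hi : i ≠ Fin.last m := (lt_of_lt_of_le hij' (Fin.le_last j)).ne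
      obtain ⟨i', rfl⟩ := Fin.exists_castSucc_eq.mpr hi
      rw [hS1, if_neg hij'.ne]
  have hTdet : T.det = (∏ i, (a * ε i)) * ((∏ i, ε i) * a) := by
    rw [Matrix.det_of_isUpperTriangular, Fin.prod_univ_castSucc]
    · congr 1
      · apply Finset.prod_congr rfl
        intro i _
        have hne : Fin.last m ≠ i.castSucc := (Fin.castSucc_lt_last i).ne'
        rw [hT1, hbj, hbj, if_pos rfl, if_neg hne]
        ring
      · rw [hT2, hbj, if_pos rfl, mul_one]
    · intro i j hij
      have hij' : j < i := hij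
      have hj : Fin.last m ≠ j := (lt_of_lt_of_le hij' (Fin.le_last i)).ne'
      refine Fin.lastCases (motive := fun i => j < i → T i j = 0) ?_ ?_ i hij'
      · intro _
        rw [hT2, hbj, if_neg hj, mul_zero]
      · intro i hij
        rw [hT1, hbj, hbj, if_neg hij.ne', if_neg hj]
        ring
  rw [hdet, hSdet, one_mul, hTdet, Finset.prod_mul_distrib]
  have hP : (∏ i, ε i) * (∏ i, ε i) = 1 := by
    have := abs_prod_sign hε
    rw [← abs_mul_abs_self, this, one_mul]
  have : (∏ _i : Fin m, a) * (∏ i, ε i) * ((∏ i, ε i) * a) = a ^ m * a := by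
    rw [Finset.prod_const, Finset.card_univ, Fintype.card_fin]
    calc a ^ m * (∏ i, ε i) * ((∏ i, ε i) * a)
        = a ^ m * ((∏ i, ε i) * (∏ i, ε i)) * a := by ring
      _ = a ^ m * a := by rw [hP, mul_one]
  rw [this]
  positivity

end QRAsym
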