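import Pool.Agent.Lib_MP_53ae57.A0_AE
import Pool.Agent.Lib_MP_53ae57.A4a_Struct

/-!
[QR-A4c] At almost every point the sine is differentiable with a derivative of the right shape.

Proof. The sine and `mx` are locally Lipschitz (`A3`), so differentiable almost everywhere
(`ae_differentiableAt_of_locallyLipschitz`). Almost everywhere `x_last ≠ 0` and no `x_i`, `i < m`, is
one of the countably many odd integers (`ae_coord_ne`, `ae_all_iff`). If `x_i` is no odd integer then
`k = round(x_i/2)` has `|x_i - 2k| < 1` (`abs_sub_round`; equality would give `x_i = 2k ± 1`).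
Then `sine_shape`.
-/

open Set MeasureTheory

namespace QRAsym

variable {m : ℕ}

theorem sine_ae : ∀ᵐ x ∂(volume : Measure (E (m + 1))),
    DifferentiableAt ℝ (sine : E (m + 1) → E (m + 1)) x ∧
    Shape (Real.exp |x (Fin.last m)|) (fderiv ℝ (sine : E (m + 1) → E (m + 1)) x) := by
  have h1 := ae_differentiableAt_of_locallyLipschitz (sine_locallyLipschitz (m := m))
  have h2 := ae_differentiableAt_of_locallyLipschitz (mx_locallyLipschitz (m := m))
  have h3 : ∀ᵐ x ∂(volume : Measure (E (m + 1))), x (Fin.last m) ≠ 0 := ae_coord_ne _ _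
  have h4 : ∀ᵐ x ∂(volume : Measure (E (m + 1))), ∀ i : Fin m, ∀ k : ℤ,
      x i.castSucc ≠ 2 * (k : ℝ) + 1 := by
    rw [ae_all_iff]
    intro i
    rw [ae_all_iff]
    intro k
    exact ae_coord_ne _ _
  filter_upwards [h1, h2, h3, h4] with x h1 h2 h3 h4
  refine ⟨h1, sine_shape x h1 h2 h3 fun i => ⟨round (x i.castSucc / 2), ?_⟩⟩
  have h5 := abs_sub_round (x i.castSucc / 2)
  have h6 : |x i.castSucc - 2 * (round (x i.castSucc / 2) : ℝ)| ≤ 1 := by
    rw [abs_le] at h5 ⊢
    constructor <;> linarith [h5.1, h5.2]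
  refine lt_of_le_of_ne h6 fun h7 => ?_
  rcases (abs_eq (zero_le_one' ℝ)).1 h7 with h8 | h8
  · exact h4 i (round (x i.castSucc / 2)) (by linarith)
  · refine h4 i (round (x i.castSucc / 2) - 1) ?_
    push_cast
    linarith

end QRAsym
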