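import Pool.Agent.Lib_MP_53ae57.Defs

/-!
[QR-B] Perturbation of determinants.

`det_one_add_lower`: for `‖X‖ ≤ θ < 1` the map `1 + X` is injective, so `det (1 + X) ≠ 0`; on the
closed ball of radius `θ` (convex, so connected, contains `0` where the value is `1`) the continuous
function `X ↦ det (1 + X)` does not vanish, so it is positive; the ball is compact (finite dimension),
so it has a positive minimum. (Continuity of the determinant: `ContinuousLinearMap.det`,
`continuous_det`? or through matrices / `LinearMap.det` is a polynomial;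
`LinearMap.continuous_det`? see `ContinuousLinearMap.continuous_det`.)
`abs_det_le`: `|det X| ≤ C ‖X‖^n`: compactness of the unit ball and `det (r X) = r^n det X`.
`perturb`: `D` is invertible (injective by the lower bound), `‖D⁻¹‖ ≤ c/a`, so
`1/det D = det D⁻¹ ≤ C (c/a)^n`, i.e. `det D ≥ C⁻¹ (a/c)^n`. `D + B = D (1 + D⁻¹ B)` with
`‖D⁻¹ B‖ ≤ 1/2`, so `det (D + B) ≥ c₁ det D`, and `‖D + B‖ ≤ (c + 1) a`.
So `K = max 1 (((c+1) c)^n C / c₁)`.
-/

open Set

namespace QRAsym

theorem det_ne_zero_of_norm_lt (n : ℕ) (X : E n →L[ℝ] E n) (hX : ‖X‖ < 1) :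
    LinearMap.det (ContinuousLinearMap.id ℝ (E n) + X).toLinearMap ≠ 0 := by
  intro h0
  obtain ⟨v, hv, hv0⟩ : ∃ v : E n, v ≠ 0 ∧ (ContinuousLinearMap.id ℝ (E n) + X) v = 0 := by
    by_contra hcon
    push Not at hcon
    have hinj : Function.Injective (ContinuousLinearMap.id ℝ (E n) + X).toLinearMap := by
      rw [← LinearMap.ker_eq_bot, LinearMap.ker_eq_bot']
      intro v hv
      by_contra hne
      exact hcon v hne hv
    have hk : LinearMap.ker (ContinuousLinearMap.id ℝ (E n) + X).toLinearMap = ⊥ :=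
      LinearMap.ker_eq_bot.2 hinj
    have := LinearMap.bot_lt_ker_of_det_eq_zero h0
    rw [hk] at this
    exact lt_irrefl _ this
  have h1 : v = - X v := by
    have : v + X v = 0 := hv0
    exact eq_neg_of_add_eq_zero_left this
  have h2 : ‖v‖ ≤ ‖X‖ * ‖v‖ := by
    calc ‖v‖ = ‖X v‖ := by
          conv_lhs => rw [h1]
          rw [norm_neg]
      _ ≤ ‖X‖ * ‖v‖ := X.le_opNorm v
  have h3 : 0 < ‖v‖ := norm_pos_iff.2 hv
  nlinarith

theorem det_cont (n : ℕ) : Continuous fun X : E n →L[ℝ] E n =>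
    LinearMap.det (ContinuousLinearMap.id ℝ (E n) + X).toLinearMap := by
  have h : Continuous fun X : E n →L[ℝ] E n => (ContinuousLinearMap.id ℝ (E n) + X).det :=
    ContinuousLinearMap.continuous_det.comp (continuous_const.add continuous_id)
  exact h

theorem det_pos_of_norm_lt (n : ℕ) (X : E n →L[ℝ] E n) (hX : ‖X‖ < 1) :
    0 < LinearMap.det (ContinuousLinearMap.id ℝ (E n) + X).toLinearMap := by
  by_contra hneg
  push Not at hneg
  have hc : ContinuousOn (fun t : ℝ =>
      LinearMap.det (ContinuousLinearMap.id ℝ (E n) + t • X).toLinearMap) (Icc 0 1) :=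
    ((det_cont n).comp (continuous_id.smul continuous_const)).continuousOn
  have h0 : LinearMap.det (ContinuousLinearMap.id ℝ (E n) + (0 : ℝ) • X).toLinearMap = 1 := by
    have hz : (0 : ℝ) • X = 0 := by
      ext v
      simp
    rw [hz, add_zero]
    exact LinearMap.det_id
  have h1 : LinearMap.det (ContinuousLinearMap.id ℝ (E n) + (1 : ℝ) • X).toLinearMap ≤ 0 := by
    rw [one_smul]; exact hneg
  have := intermediate_value_Icc' (zero_le_one' ℝ) hc
  have hmem : (0 : ℝ) ∈ Icc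
      ((fun t : ℝ => LinearMap.det (ContinuousLinearMap.id ℝ (E n) + t • X).toLinearMap) 1)
      ((fun t : ℝ => LinearMap.det (ContinuousLinearMap.id ℝ (E n) + t • X).toLinearMap) 0) := by
    refine ⟨h1, ?_⟩
    show (0 : ℝ) ≤ LinearMap.det (ContinuousLinearMap.id ℝ (E n) + (0 : ℝ) • X).toLinearMap
    rw [h0]; norm_num
  obtain ⟨t, ht, ht0⟩ := this hmem
  refine det_ne_zero_of_norm_lt n (t • X) ?_ ht0
  rw [norm_smul, Real.norm_eq_abs, abs_of_nonneg ht.1]
  have := norm_nonneg X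
  nlinarith [ht.2]

theorem det_one_add_lower (n : ℕ) (θ : ℝ) (h0 : 0 ≤ θ) (h1 : θ < 1) :
    ∃ c : ℝ, 0 < c ∧ ∀ X : E n →L[ℝ] E n, ‖X‖ ≤ θ →
      c ≤ LinearMap.det (ContinuousLinearMap.id ℝ (E n) + X).toLinearMap := by
  have : ProperSpace (E n →L[ℝ] E n) := FiniteDimensional.proper ℝ _
  obtain ⟨Y, hY, hmin⟩ := (isCompact_closedBall (0 : E n →L[ℝ] E n) θ).exists_isMinOn
    ⟨0, by simpa using h0⟩ (det_cont n).continuousOn
  refine ⟨_, det_pos_of_norm_lt n Y ?_, fun X hX => hmin (by simpa using hX)⟩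
  have : ‖Y‖ ≤ θ := by simpa using hY
  linarith

theorem det_smul' (n : ℕ) (r : ℝ) (X : E n →L[ℝ] E n) :
    LinearMap.det (r • X).toLinearMap = r ^ n * LinearMap.det X.toLinearMap := by
  have h := LinearMap.det_smul r X.toLinearMap
  rw [finrank_euclideanSpace_fin] at h
  exact h

theorem abs_det_le (n : ℕ) : ∃ C : ℝ, 0 < C ∧ ∀ X : E n →L[ℝ] E n,
    |LinearMap.det X.toLinearMap| ≤ C * ‖X‖ ^ n := by
  have : ProperSpace (E n →L[ℝ] E n) := FiniteDimensional.proper ℝ _
  have hcont : Continuous fun X : E n →L[ℝ] E n => |LinearMap.det X.toLinearMap| := by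
    have h : Continuous fun X : E n →L[ℝ] E n => |X.det| :=
      ContinuousLinearMap.continuous_det.abs
    exact h
  obtain ⟨Y, hY, hmax⟩ := (isCompact_closedBall (0 : E n →L[ℝ] E n) 1).exists_isMaxOn
    ⟨0, by simp⟩ hcont.continuousOn
  refine ⟨max 1 |LinearMap.det Y.toLinearMap|, lt_of_lt_of_le one_pos (le_max_left _ _),
    fun X => ?_⟩
  by_cases hX : X = 0
  · have h := det_smul' n 0 (ContinuousLinearMap.id ℝ (E n))
    have hz : (0 : ℝ) • ContinuousLinearMap.id ℝ (E n) = 0 := by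
      ext v
      simp
    rw [hz] at h
    have h' : LinearMap.det (ContinuousLinearMap.id ℝ (E n)).toLinearMap = 1 := LinearMap.det_id
    rw [h', mul_one] at h
    rw [hX, h, norm_zero, abs_of_nonneg (by positivity)]
    have h1 : (1 : ℝ) ≤ max 1 |LinearMap.det Y.toLinearMap| := le_max_left _ _
    have h2 : (0 : ℝ) ≤ 0 ^ n := by positivity
    nlinarith
  · have hpos : 0 < ‖X‖ := norm_pos_iff.2 hX
    have h := det_smul' n ‖X‖⁻¹ X
    have hmem : ‖X‖⁻¹ • X ∈ Metric.closedBall (0 : E n →L[ℝ] E n) 1 := by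
      rw [mem_closedBall_zero_iff, norm_smul, norm_inv, norm_norm, inv_mul_cancel₀ hpos.ne']
    have h2 : |LinearMap.det (‖X‖⁻¹ • X).toLinearMap| ≤ |LinearMap.det Y.toLinearMap| := hmax hmem
    rw [h, abs_mul, abs_of_pos (by positivity), inv_pow, inv_mul_le_iff₀ (by positivity)] at h2
    calc |LinearMap.det X.toLinearMap| ≤ ‖X‖ ^ n * |LinearMap.det Y.toLinearMap| := h2
      _ = |LinearMap.det Y.toLinearMap| * ‖X‖ ^ n := mul_comm _ _
      _ ≤ max 1 |LinearMap.det Y.toLinearMap| * ‖X‖ ^ n := by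
          gcongr
          exact le_max_right _ _

theorem perturb (n : ℕ) (c : ℝ) (hc : 1 ≤ c) : ∃ K : ℝ, 1 ≤ K ∧
    ∀ (D B : E n →L[ℝ] E n) (a : ℝ), 0 < a → 0 < LinearMap.det D.toLinearMap →
      (∀ v, a * ‖v‖ ≤ c * ‖D v‖) → ‖D‖ ≤ c * a → ‖B‖ ≤ a / (2 * c) →
      ‖D + B‖ ^ n ≤ K * LinearMap.det (D + B).toLinearMap := by
  obtain ⟨c₁, hc₁, hlow⟩ := det_one_add_lower n (1 / 2) (by norm_num) (by norm_num)
  obtain ⟨C, hC, hup⟩ := abs_det_le n
  refine ⟨max 1 (((c + 1) * c) ^ n * C / c₁), le_max_left _ _, ?_⟩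
  intro D B a ha hdet hlb hD hB
  have hc0 : 0 < c := by linarith
  set e : E n ≃ₗ[ℝ] E n := LinearMap.equivOfDetNeZero D.toLinearMap hdet.ne' with he
  have heD : ∀ v, e v = D v := fun v => rfl
  set I : E n →L[ℝ] E n := LinearMap.toContinuousLinearMap (e.symm : E n →ₗ[ℝ] E n) with hI
  have hIe : ∀ w, I w = e.symm w := fun w => rfl
  have hDI : ∀ w, D (I w) = w := by
    intro w
    rw [hIe, ← heD, LinearEquiv.apply_symm_apply]
  have hIn : ‖I‖ ≤ c / a := by
    refine ContinuousLinearMap.opNorm_le_bound _ (by positivity) fun w => ?_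
    have h := hlb (I w)
    rw [hDI] at h
    rw [div_mul_eq_mul_div, le_div_iff₀ ha]
    linarith
  have hdetI : LinearMap.det D.toLinearMap * LinearMap.det I.toLinearMap = 1 := by
    rw [← LinearMap.det_comp]
    have : D.toLinearMap ∘ₗ I.toLinearMap = LinearMap.id := by
      ext w
      simp [hDI]
    rw [this, LinearMap.det_id]
  have hIle : LinearMap.det I.toLinearMap ≤ C * (c / a) ^ n := by
    refine (le_abs_self _).trans ((hup I).trans ?_)
    gcongr
  have hdetD : a ^ n ≤ C * c ^ n * LinearMap.det D.toLinearMap := by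
    have h1 : 1 ≤ LinearMap.det D.toLinearMap * (C * (c / a) ^ n) := by
      rw [← hdetI]
      exact mul_le_mul_of_nonneg_left hIle hdet.le
    have h2 : LinearMap.det D.toLinearMap * (C * (c / a) ^ n) * a ^ n =
        C * c ^ n * LinearMap.det D.toLinearMap := by
      rw [div_pow]
      field_simp
    have h3 : 0 < a ^ n := by positivity
    nlinarith
  have hIB : ‖I ∘L B‖ ≤ 1 / 2 := by
    calc ‖I ∘L B‖ ≤ ‖I‖ * ‖B‖ := ContinuousLinearMap.opNorm_comp_le _ _
      _ ≤ c / a * (a / (2 * c)) := by gcongr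
      _ = 1 / 2 := by field_simp
  have hfac : (D + B).toLinearMap =
      D.toLinearMap ∘ₗ (ContinuousLinearMap.id ℝ (E n) + I ∘L B).toLinearMap := by
    ext w
    simp [hDI]
  have hdetDB : c₁ * LinearMap.det D.toLinearMap ≤ LinearMap.det (D + B).toLinearMap := by
    rw [hfac, LinearMap.det_comp, mul_comm]
    exact mul_le_mul_of_nonneg_left (hlow _ hIB) hdet.le
  have hnorm : ‖D + B‖ ≤ (c + 1) * a := by
    have h1 : a / (2 * c) ≤ a := by
      rw [div_le_iff₀ (by positivity)]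
      nlinarith
    calc ‖D + B‖ ≤ ‖D‖ + ‖B‖ := norm_add_le _ _
      _ ≤ c * a + a := by linarith
      _ = (c + 1) * a := by ring
  have hdetDBpos : 0 ≤ LinearMap.det (D + B).toLinearMap :=
    le_trans (by positivity) hdetDB
  calc ‖D + B‖ ^ n ≤ ((c + 1) * a) ^ n := by gcongr
    _ = (c + 1) ^ n * a ^ n := mul_pow _ _ _
    _ ≤ (c + 1) ^ n * (C * c ^ n * LinearMap.det D.toLinearMap) := by gcongr
    _ = ((c + 1) * c) ^ n * C / c₁ * (c₁ * LinearMap.det D.toLinearMap) := by
        rw [mul_pow]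
        field_simp
    _ ≤ ((c + 1) * c) ^ n * C / c₁ * LinearMap.det (D + B).toLinearMap := by gcongr
    _ ≤ max 1 (((c + 1) * c) ^ n * C / c₁) * LinearMap.det (D + B).toLinearMap := by
        gcongr
        exact le_max_right _ _

end QRAsym
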