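import Pool.Agent.Lib_MP_53ae57.A0_AE

/-!
[QR-C] A locally Lipschitz map is in `W^{1,n}_loc` with weak derivative `fderiv f`.

Proof. Take `g = fderiv ℝ f` (zero where `f` is not differentiable). Measurability:
`measurable_fderiv`. `‖g‖^n` is locally bounded: `‖fderiv f x‖ ≤ L` if `f` is `L`-Lipschitz near `x`
(`norm_fderiv_le_of_lipschitzOn`), so it is locally integrable. Integration by parts: let `φ` be `C^1`
with compact support `⊂ B(0, k)`. Choose an `L`-Lipschitz function on the whole space which agrees
with (a coordinate of) `f` on `B(0, k+1)` (`f` is Lipschitz on compact convex sets, `LipschitzOnWith.extend_real`),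
and use `LipschitzWith.integral_lineDeriv_mul_eq` (Mathlib.Analysis.Calculus.Rademacher) for it and
for `φ` (Lipschitz, compact support); `lineDeriv` is `fderiv` applied to `v` where differentiable
(`DifferentiableAt.lineDeriv_eq_fderiv`), and off the support of `φ` both sides are `0`.
Vector valued: coordinate by coordinate (the integrands are integrable: continuous with compact
support, respectively bounded measurable with compact support).
-/

open Set MeasureTheory Filter Topology

namespace QRAsym

private theorem c_ball_nhds {n : ℕ} {x : E n} {R : ℝ} (hx : ‖x‖ < R) :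
    Metric.closedBall (0 : E n) R ∈ 𝓝 x :=
  Filter.mem_of_superset (Metric.isOpen_ball.mem_nhds (mem_ball_zero_iff.2 hx))
    Metric.ball_subset_closedBall

private theorem c_coord {n : ℕ} {f : E n → E n} (hf : LocallyLipschitz f) {φ : E n → ℝ}
    (hφ : ContDiff ℝ 1 φ) (hc : HasCompactSupport φ) (v : E n) (i : Fin n) :
    ∫ x, (fderiv ℝ φ x v) * f x i = - ∫ x, φ x * (fderiv ℝ f x v) i := by
  obtain ⟨R, hR⟩ := hc.isCompact.isBounded.subset_closedBall (0 : E n)
  obtain ⟨L, hL⟩ := exists_lipschitzOnWith_closedBall hf (R + 1)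
  have hLi : LipschitzOnWith L (fun x => f x i) (Metric.closedBall (0 : E n) (R + 1)) := by
    refine LipschitzOnWith.of_dist_le_mul fun x hx y hy => ?_
    refine le_trans ?_ (hL.dist_le_mul x hx y hy)
    rw [dist_eq_norm, dist_eq_norm, ← PiLp.sub_apply]
    exact PiLp.norm_apply_le (f x - f y) i
  obtain ⟨F, hF, hFf⟩ := hLi.extend_real
  obtain ⟨D, hD⟩ := ContDiff.lipschitzWith_of_hasCompactSupport hc hφ (by simp)
  have key := hF.integral_lineDeriv_mul_eq (μ := (volume : Measure (E n))) hD hc v
  have hdφ : Differentiable ℝ φ := hφ.differentiable (by simp)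
  have e1 : ∀ x, lineDeriv ℝ φ x (-v) * F x = - ((fderiv ℝ φ x v) * f x i) := by
    intro x
    rw [(hdφ x).lineDeriv_eq_fderiv, map_neg]
    by_cases hx : x ∈ tsupport φ
    · have hx1 : x ∈ Metric.closedBall (0 : E n) (R + 1) :=
        Metric.closedBall_subset_closedBall (by linarith) (hR hx)
      have hx2 : f x i = F x := hFf hx1
      rw [hx2]
      ring
    · have h0 : fderiv ℝ φ x = 0 := by
        have := support_fderiv_subset (𝕜 := ℝ) (f := φ)
        by_contra hne
        exact hx (this hne)
      rw [h0]
      simp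
  have e2 : ∀ᵐ x ∂(volume : Measure (E n)),
      lineDeriv ℝ F x v * φ x = φ x * (fderiv ℝ f x v) i := by
    filter_upwards [ae_differentiableAt_of_locallyLipschitz hf] with x hx
    by_cases hxs : x ∈ tsupport φ
    · have hxR : ‖x‖ < R + 1 := by
        have := mem_closedBall_zero_iff.1 (hR hxs)
        linarith
      have hev : F =ᶠ[𝓝 x] fun y => f y i := by
        filter_upwards [c_ball_nhds hxR] with y hy
        exact (hFf hy).symm
      have hd : HasFDerivAt (fun y => f y i)
          ((EuclideanSpace.proj i : E n →L[ℝ] ℝ).comp (fderiv ℝ f x)) x :=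
        (EuclideanSpace.proj i : E n →L[ℝ] ℝ).hasFDerivAt.comp x hx.hasFDerivAt
      have hdF := hd.congr_of_eventuallyEq hev
      rw [hdF.differentiableAt.lineDeriv_eq_fderiv, hdF.fderiv, mul_comm]
      rfl
    · have h0 : φ x = 0 := image_eq_zero_of_notMem_tsupport hxs
      rw [h0]
      simp
  rw [integral_congr_ae e2] at key
  rw [integral_congr_ae (Filter.Eventually.of_forall e1), integral_neg] at key
  linarith

theorem lipQR_quasiregular {n : ℕ} {K : ℝ} {f : E n → E n} (hf : LipQR K f) :
    Quasiregular K f := by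
  obtain ⟨hl, hK⟩ := hf
  have hm : AEStronglyMeasurable (fderiv ℝ f) (volume : Measure (E n)) :=
    (measurable_fderiv ℝ f).aestronglyMeasurable
  refine ⟨hl.continuous, fderiv ℝ f, hm, ?_, ?_, hK⟩
  · rw [locallyIntegrable_iff]
    intro C hC
    obtain ⟨R, hR⟩ := hC.isBounded.subset_closedBall (0 : E n)
    obtain ⟨L, hL⟩ := exists_lipschitzOnWith_closedBall hl (R + 1)
    refine Measure.integrableOn_of_bounded (M := (L : ℝ) ^ n) hC.measure_lt_top.ne
      (hm.norm.pow n) ?_
    refine (ae_restrict_iff' hC.measurableSet).2 (Filter.Eventually.of_forall fun x hx => ?_)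
    have hxR : ‖x‖ < R + 1 := by
      have := mem_closedBall_zero_iff.1 (hR hx)
      linarith
    have h1 := norm_fderiv_le_of_lipschitzOn ℝ (c_ball_nhds hxR) hL
    rw [Real.norm_of_nonneg (by positivity)]
    exact pow_le_pow_left₀ (norm_nonneg _) h1 n
  · intro φ hφ hc v
    obtain ⟨R, hR⟩ := hc.isCompact.isBounded.subset_closedBall (0 : E n)
    obtain ⟨L, hL⟩ := exists_lipschitzOnWith_closedBall hl (R + 1)
    have hcd : Continuous fun x => fderiv ℝ φ x v :=
      (hφ.continuous_fderiv (by simp)).clm_apply continuous_const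
    have i1 : Integrable (fun x => (fderiv ℝ φ x v) • f x) (volume : Measure (E n)) := by
      refine (hcd.smul hl.continuous).integrable_of_hasCompactSupport ?_
      exact (hc.fderiv_apply (𝕜 := ℝ) v).smul_right
    have i2 : Integrable (fun x => φ x • fderiv ℝ f x v) (volume : Measure (E n)) := by
      have hφi : Integrable φ (volume : Measure (E n)) :=
        hφ.continuous.integrable_of_hasCompactSupport hc
      refine Integrable.mono' (hφi.norm.mul_const ((L : ℝ) * ‖v‖)) ?_ ?_
      · exact hφ.continuous.aestronglyMeasurable.smul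
          ((measurable_fderiv_apply_const ℝ f v).aestronglyMeasurable)
      · refine Filter.Eventually.of_forall fun x => ?_
        by_cases hx : x ∈ tsupport φ
        · have hxR : ‖x‖ < R + 1 := by
            have := mem_closedBall_zero_iff.1 (hR hx)
            linarith
          have h1 := norm_fderiv_le_of_lipschitzOn ℝ (c_ball_nhds hxR) hL
          rw [norm_smul]
          refine mul_le_mul_of_nonneg_left ?_ (norm_nonneg _)
          exact ((fderiv ℝ f x).le_opNorm v).trans
            (mul_le_mul_of_nonneg_right h1 (norm_nonneg v))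
        · have h0 : φ x = 0 := image_eq_zero_of_notMem_tsupport hx
          rw [h0]
          simp
    ext i
    have j1 := (EuclideanSpace.proj i : E n →L[ℝ] ℝ).integral_comp_comm i1
    have j2 := (EuclideanSpace.proj i : E n →L[ℝ] ℝ).integral_comp_comm i2
    rw [PiLp.neg_apply]
    change (EuclideanSpace.proj i : E n →L[ℝ] ℝ) (∫ x, (fderiv ℝ φ x v) • f x) =
      - (EuclideanSpace.proj i : E n →L[ℝ] ℝ) (∫ x, φ x • fderiv ℝ f x v)
    rw [← j1, ← j2]
    exact c_coord hl hφ hc v i

end QRAsym
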