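import Pool.Agent.Lib_MP_53ae57.Defs

/-!
[QR-D1] First consequences of `SlowMap`, and the factor `(√ρ)⁻¹`.

`rho R x ≥ R > 0`, `rho R x ≥ ‖x‖`, `|rho R x - rho R y| ≤ ‖x - y‖` (`√(R²+a²)` is 1-Lipschitz in `a`).
`SlowMap.locallyLipschitz`: on the ball `B(p, rho/2)` the map is Lipschitz.
`SlowMap.norm_fderiv_le`: `norm_fderiv_le_of_lipschitzOn` or `HasFDerivAt.le_of_lip'`.
`G x = (√(rho R x))⁻¹`: smooth, `rho` is differentiable with derivative of norm `≤ 1` (Lipschitz) and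
`G' = -(1/2) rho^(-3/2) rho'`, so `‖fderiv G x‖ ≤ G x / (2 R)` as `rho ≥ R`.
-/

open Set Filter Topology

namespace QRAsym

variable {n : ℕ}

theorem rho_pos {R : ℝ} (hR : 0 < R) (x : E n) : 0 < rho R x := by
  unfold rho
  apply Real.sqrt_pos.2
  positivity

theorem le_rho {R : ℝ} (hR : 0 ≤ R) (x : E n) : R ≤ rho R x := by
  unfold rho
  apply Real.le_sqrt_of_sq_le
  nlinarith [sq_nonneg ‖x‖]

theorem norm_le_rho (R : ℝ) (x : E n) : ‖x‖ ≤ rho R x := by
  unfold rho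
  apply Real.le_sqrt_of_sq_le
  nlinarith [sq_nonneg R]

theorem rho_le {R : ℝ} (hR : 0 ≤ R) (x : E n) : rho R x ≤ R + ‖x‖ := by
  unfold rho
  rw [Real.sqrt_le_left (by positivity)]
  nlinarith [mul_nonneg hR (norm_nonneg x)]

theorem rho_le_add (R : ℝ) (x y : E n) : rho R x ≤ rho R y + ‖x - y‖ := by
  have h1 : 0 ≤ rho R y := Real.sqrt_nonneg _
  have h2 : ‖y‖ ≤ rho R y := norm_le_rho R y
  have h3 : rho R y ^ 2 = R ^ 2 + ‖y‖ ^ 2 := Real.sq_sqrt (by positivity)
  have h4 : ‖x‖ ≤ ‖y‖ + ‖x - y‖ := by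
    have := norm_add_le y (x - y)
    simpa using this
  have h5 := norm_nonneg (x - y)
  have h6 := norm_nonneg y
  have h7 := norm_nonneg x
  show Real.sqrt (R ^ 2 + ‖x‖ ^ 2) ≤ _
  rw [Real.sqrt_le_left (by positivity)]
  have h8 : ‖x‖ ^ 2 ≤ (‖y‖ + ‖x - y‖) ^ 2 := by
    apply pow_le_pow_left₀ h7 h4
  nlinarith [mul_nonneg (sub_nonneg.2 h2) h5]

theorem abs_rho_sub_le (R : ℝ) (x y : E n) : |rho R x - rho R y| ≤ ‖x - y‖ := by
  have h1 := rho_le_add R x y
  have h2 := rho_le_add R y x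
  rw [norm_sub_rev] at h2
  rw [abs_le]
  constructor <;> linarith

theorem SlowMap.lipschitzOn {R η : ℝ} {h : E n → E n} (hs : SlowMap R η h) (p : E n) :
    LipschitzOnWith (Real.toNNReal (η / Real.sqrt (rho R p))) h (Metric.ball p (rho R p / 2)) := by
  apply LipschitzOnWith.of_dist_le_mul
  intro x hx y hy
  rw [dist_eq_norm, dist_eq_norm]
  exact (hs p x hx y hy).trans
    (mul_le_mul_of_nonneg_right (Real.le_coe_toNNReal _) (norm_nonneg _))

theorem SlowMap.locallyLipschitz {R η : ℝ} (hR : 0 < R) {h : E n → E n} (hs : SlowMap R η h) :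
    LocallyLipschitz h := by
  intro p
  exact ⟨_, _, Metric.ball_mem_nhds p (half_pos (rho_pos hR p)), hs.lipschitzOn p⟩

theorem SlowMap.norm_fderiv_le {R η : ℝ} (hR : 0 < R) (hη : 0 ≤ η) {h : E n → E n}
    (hs : SlowMap R η h) (x : E n) : ‖fderiv ℝ h x‖ ≤ η / Real.sqrt (rho R x) := by
  have h1 := norm_fderiv_le_of_lipschitzOn ℝ
    (Metric.ball_mem_nhds x (half_pos (rho_pos hR x))) (hs.lipschitzOn x)
  rwa [Real.coe_toNNReal _ (by positivity)] at h1

theorem rho_contDiff {R : ℝ} (hR : 0 < R) : ContDiff ℝ 1 (fun x : E n => rho R x) := by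
  unfold rho
  apply ContDiff.sqrt
  · exact contDiff_const.add (contDiff_norm_sq ℝ)
  · intro x
    positivity

theorem invSqrtRho_contDiff {R : ℝ} (hR : 0 < R) :
    ContDiff ℝ 1 (fun x : E n => (Real.sqrt (rho R x))⁻¹) := by
  apply ContDiff.inv
  · apply ContDiff.sqrt (rho_contDiff hR)
    intro x
    exact (rho_pos hR x).ne'
  · intro x
    exact (Real.sqrt_pos.2 (rho_pos hR x)).ne'

theorem invSqrtRho_differentiable {R : ℝ} (hR : 0 < R) :
    Differentiable ℝ (fun x : E n => (Real.sqrt (rho R x))⁻¹) :=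
  (invSqrtRho_contDiff hR).differentiable (by norm_num)

theorem invSqrtRho_locallyLipschitz {R : ℝ} (hR : 0 < R) :
    LocallyLipschitz (fun x : E n => (Real.sqrt (rho R x))⁻¹) :=
  (invSqrtRho_contDiff hR).locallyLipschitz

theorem norm_fderiv_rho_le {R : ℝ} (x : E n) : ‖fderiv ℝ (fun x : E n => rho R x) x‖ ≤ 1 := by
  have h1 : LipschitzWith 1 (fun x : E n => rho R x) := by
    apply LipschitzWith.of_dist_le_mul
    intro a b
    rw [Real.dist_eq, dist_eq_norm, NNReal.coe_one, one_mul]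
    exact abs_rho_sub_le R a b
  have := norm_fderiv_le_of_lipschitz ℝ h1 (x₀ := x)
  simpa using this

theorem norm_fderiv_invSqrtRho {R : ℝ} (hR : 0 < R) (x : E n) :
    ‖fderiv ℝ (fun x : E n => (Real.sqrt (rho R x))⁻¹) x‖ ≤
      (Real.sqrt (rho R x))⁻¹ / (2 * R) := by
  have hp := rho_pos hR x
  have hsq : 0 < Real.sqrt (rho R x) := Real.sqrt_pos.2 hp
  have hd : DifferentiableAt ℝ (fun x : E n => rho R x) x :=
    (rho_contDiff hR).differentiable (by norm_num) x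
  have h1 : HasDerivAt (fun s : ℝ => (Real.sqrt s)⁻¹)
      (-(1 / (2 * Real.sqrt (rho R x))) / (Real.sqrt (rho R x)) ^ 2) (rho R x) :=
    (Real.hasDerivAt_sqrt hp.ne').inv hsq.ne'
  have h2 := h1.comp_hasFDerivAt x hd.hasFDerivAt
  have h3 : fderiv ℝ (fun x : E n => (Real.sqrt (rho R x))⁻¹) x =
      (-(1 / (2 * Real.sqrt (rho R x))) / (Real.sqrt (rho R x)) ^ 2) •
        fderiv ℝ (fun x : E n => rho R x) x := h2.fderiv
  rw [h3, norm_smul, Real.norm_eq_abs, Real.sq_sqrt hp.le, neg_div, abs_neg,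
    abs_of_nonneg (by positivity)]
  have h4 := norm_fderiv_rho_le (R := R) x
  have h5 : 1 / (2 * Real.sqrt (rho R x)) / rho R x ≤ (Real.sqrt (rho R x))⁻¹ / (2 * R) := by
    have e1 : 1 / (2 * Real.sqrt (rho R x)) / rho R x = (Real.sqrt (rho R x))⁻¹ / (2 * rho R x) := by
      field_simp
    rw [e1]
    apply div_le_div_of_nonneg_left (by positivity) (by positivity)
    linarith [le_rho hR.le x]
  calc 1 / (2 * Real.sqrt (rho R x)) / rho R x * ‖fderiv ℝ (fun x : E n => rho R x) x‖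
      ≤ 1 / (2 * Real.sqrt (rho R x)) / rho R x * 1 :=
        mul_le_mul_of_nonneg_left h4 (by positivity)
    _ ≤ _ := by rw [mul_one]; exact h5

end QRAsym
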