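import Pool.Agent.Lib_MP_53ae57.A0_AE
import Pool.Agent.Lib_MP_53ae57.A4b_ShapeDet
import Pool.Agent.Lib_MP_53ae57.A4c_SineAE
import Pool.Agent.Lib_MP_53ae57.B_LinAlg
import Pool.Agent.Lib_MP_53ae57.D1_Slow

/-!
[QR-D2] `bigMap R h = h + (√ρ)⁻¹ sine` is quasiregular if `R` is large and `h` is slow.

Proof. Let `c = 3 (m+1)`, `K` from `perturb (m+1) c`, `η = 1/(4c)`,
`R₀ = max 1 (2 c (m+1))`, so that `(m+1)/(2R) ≤ 1/(4c)`. For almost every `x` the sine and
`h` are differentiable (`sine_ae`, `ae_differentiableAt_of_locallyLipschitz`). With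
`G = (√ρ)⁻¹`, `a = G x e^|x_last|`:
`fderiv (bigMap) x = D + B`, `D = G x • fderiv sine x`, `B = fderiv h x + (fderiv G x)(.) • sine x`.
`D` has positive determinant (`LinearMap.det_smul`, `shape_det`) and satisfies the bounds of `perturb`
with `a` (`shape_lower`, `shape_upper`). `‖B‖ ≤ η G x + ‖fderiv G x‖ ‖sine x‖ ≤
η a + G x/(2R) (m+1) e^|x_last| ≤ a (1/(4c) + (m+1)/(2R)) ≤ a/(2c)` as `e^|x_last| ≥ 1`.
Locally Lipschitz: sums and products of locally Lipschitz functions (if there is no product lemma for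
`LocallyLipschitz`, argue on balls where both factors are bounded and Lipschitz).
-/

open Set MeasureTheory

namespace QRAsym

/-- Products of locally Lipschitz functions. -/
theorem D2_smul {n : ℕ} {f : E n → ℝ} {g : E n → E n} (hf : LocallyLipschitz f)
    (hg : LocallyLipschitz g) : LocallyLipschitz (fun x => f x • g x) := by
  intro x
  obtain ⟨Kf, s, hs, hKf⟩ := hf x
  obtain ⟨Kg, t, ht, hKg⟩ := hg x
  have hfc : ∀ᶠ y in nhds x, ‖f y‖ < ‖f x‖ + 1 :=
    (hf.continuous.norm.continuousAt (x := x)).eventually (gt_mem_nhds (by linarith))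
  have hgc : ∀ᶠ y in nhds x, ‖g y‖ < ‖g x‖ + 1 :=
    (hg.continuous.norm.continuousAt (x := x)).eventually (gt_mem_nhds (by linarith))
  refine ⟨⟨(‖f x‖ + 1) * Kg + Kf * (‖g x‖ + 1), by positivity⟩,
    s ∩ t ∩ ({y | ‖f y‖ < ‖f x‖ + 1} ∩ {y | ‖g y‖ < ‖g x‖ + 1}),
    Filter.inter_mem (Filter.inter_mem hs ht) (Filter.inter_mem hfc hgc), ?_⟩
  apply LipschitzOnWith.of_dist_le_mul
  rintro y ⟨⟨hys, hyt⟩, hy1, hy2⟩ z ⟨⟨hzs, hzt⟩, hz1, hz2⟩
  have hy1' : ‖f y‖ < ‖f x‖ + 1 := hy1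
  have hz2' : ‖g z‖ < ‖g x‖ + 1 := hz2
  have h1 : ‖f y - f z‖ ≤ Kf * ‖y - z‖ := by
    have := hKf.dist_le_mul y hys z hzs
    rwa [dist_eq_norm, dist_eq_norm] at this
  have h2 : ‖g y - g z‖ ≤ Kg * ‖y - z‖ := by
    have := hKg.dist_le_mul y hyt z hzt
    rwa [dist_eq_norm, dist_eq_norm] at this
  have h3 : f y • g y - f z • g z = f y • (g y - g z) + (f y - f z) • g z := by
    rw [smul_sub, sub_smul]
    abel
  rw [dist_eq_norm, dist_eq_norm, h3]
  calc ‖f y • (g y - g z) + (f y - f z) • g z‖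
      ≤ ‖f y • (g y - g z)‖ + ‖(f y - f z) • g z‖ := norm_add_le _ _
    _ = ‖f y‖ * ‖g y - g z‖ + ‖f y - f z‖ * ‖g z‖ := by rw [norm_smul, norm_smul]
    _ ≤ (‖f x‖ + 1) * (Kg * ‖y - z‖) + (Kf * ‖y - z‖) * (‖g x‖ + 1) := by
        gcongr
    _ = ((‖f x‖ + 1) * Kg + Kf * (‖g x‖ + 1)) * ‖y - z‖ := by ring

/-- Sums of locally Lipschitz functions. -/
theorem D2_add {n : ℕ} {f g : E n → E n} (hf : LocallyLipschitz f)
    (hg : LocallyLipschitz g) : LocallyLipschitz (fun x => f x + g x) := by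
  intro x
  obtain ⟨Kf, s, hs, hKf⟩ := hf x
  obtain ⟨Kg, t, ht, hKg⟩ := hg x
  exact ⟨Kf + Kg, s ∩ t, Filter.inter_mem hs ht,
    (hKf.mono inter_subset_left).add (hKg.mono inter_subset_right)⟩

theorem bigMap_lipQR (m : ℕ) : ∃ K : ℝ, 1 ≤ K ∧ ∃ η : ℝ, 0 < η ∧ η ≤ 1 ∧ ∃ R₀ : ℝ, 1 ≤ R₀ ∧
    ∀ R : ℝ, R₀ ≤ R → ∀ h : E (m + 1) → E (m + 1), SlowMap R η h → LipQR K (bigMap R h) := by
  set c : ℝ := 3 * (m + 1) with hc
  have hm0 : (0 : ℝ) ≤ m := Nat.cast_nonneg m
  have hc3 : 3 ≤ c := by rw [hc]; linarith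
  have hc1 : 1 ≤ c := by linarith
  obtain ⟨K, hK1, hK⟩ := perturb (m + 1) c hc1
  refine ⟨K, hK1, 1 / (4 * c), by positivity, ?_, max 1 (2 * c * (m + 1)), le_max_left _ _, ?_⟩
  · rw [div_le_one (by positivity)]
    linarith
  intro R hR h hs
  have hR1 : 1 ≤ R := (le_max_left _ _).trans hR
  have hR2 : 2 * c * (m + 1) ≤ R := (le_max_right _ _).trans hR
  have hR0 : 0 < R := by linarith
  set G : E (m + 1) → ℝ := fun x => (Real.sqrt (rho R x))⁻¹ with hG
  have hbig : bigMap R h = fun x => h x + G x • sine x := rfl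
  have hhL := SlowMap.locallyLipschitz hR0 hs
  refine ⟨?_, ?_⟩
  · rw [hbig]
    exact D2_add hhL (D2_smul (invSqrtRho_locallyLipschitz hR0) sine_locallyLipschitz)
  · filter_upwards [sine_ae (m := m), ae_differentiableAt_of_locallyLipschitz hhL] with x hx1 hx2
    obtain ⟨hsd, hsh⟩ := hx1
    have hGd : DifferentiableAt ℝ G x := (invSqrtRho_differentiable hR0) x
    have hder : fderiv ℝ (bigMap R h) x = G x • fderiv ℝ sine x +
        (fderiv ℝ h x + (fderiv ℝ G x).smulRight (sine x)) := by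
      rw [hbig]
      have h1 : HasFDerivAt (fun x => h x + G x • sine x) (fderiv ℝ h x +
          (G x • fderiv ℝ sine x + (fderiv ℝ G x).smulRight (sine x))) x :=
        hx2.hasFDerivAt.add (hGd.hasFDerivAt.smul hsd.hasFDerivAt)
      rw [h1.fderiv]
      abel
    have hrho : 0 < rho R x := lt_of_lt_of_le hR0 (le_rho hR0.le x)
    have hGpos : 0 < G x := inv_pos.2 (Real.sqrt_pos.2 hrho)
    set e : ℝ := Real.exp |x (Fin.last m)| with he
    have he1 : 1 ≤ e := Real.one_le_exp (abs_nonneg _)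
    have he0 : 0 < e := by linarith
    set a : ℝ := G x * e with ha
    have ha0 : 0 < a := mul_pos hGpos he0
    rw [hder]
    refine hK _ _ a ha0 ?_ ?_ ?_ ?_
    · have h1 : (G x • fderiv ℝ sine x).toLinearMap = G x • (fderiv ℝ sine x).toLinearMap := rfl
      rw [h1, LinearMap.det_smul]
      exact mul_pos (pow_pos hGpos _) (shape_det he0 hsh)
    · intro v
      have h1 := shape_lower he0 hsh v
      have h2 : ‖(G x • fderiv ℝ sine x) v‖ = G x * ‖fderiv ℝ sine x v‖ := by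
        rw [ContinuousLinearMap.smul_apply, norm_smul, Real.norm_of_nonneg hGpos.le]
      rw [h2, ha, hc]
      calc G x * e * ‖v‖ = G x * (e * ‖v‖) := by ring
        _ ≤ G x * (3 * (m + 1) * ‖fderiv ℝ sine x v‖) := by
            exact mul_le_mul_of_nonneg_left h1 hGpos.le
        _ = 3 * (m + 1) * (G x * ‖fderiv ℝ sine x v‖) := by ring
    · have h1 := shape_upper he0 hsh
      rw [norm_smul, Real.norm_of_nonneg hGpos.le, ha, hc]
      calc G x * ‖fderiv ℝ sine x‖ ≤ G x * (3 * (m + 1) * e) :=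
            mul_le_mul_of_nonneg_left h1 hGpos.le
        _ = 3 * (m + 1) * (G x * e) := by ring
    · have h1 : ‖fderiv ℝ h x‖ ≤ 1 / (4 * c) * a := by
        have h2 := SlowMap.norm_fderiv_le hR0 (by positivity) hs x
        refine h2.trans ?_
        rw [div_eq_mul_inv (1 / (4 * c))]
        refine mul_le_mul_of_nonneg_left ?_ (by positivity)
        rw [ha]
        exact le_mul_of_one_le_right hGpos.le he1
      have h2 : ‖(fderiv ℝ G x).smulRight (sine x)‖ ≤ 1 / (4 * c) * a := by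
        rw [ContinuousLinearMap.norm_smulRight_apply]
        have h3 : ‖fderiv ℝ G x‖ ≤ G x / (2 * R) := norm_fderiv_invSqrtRho hR0 x
        have h4 : ‖sine x‖ ≤ (m + 1) * e := norm_sine_le x
        calc ‖fderiv ℝ G x‖ * ‖sine x‖ ≤ G x / (2 * R) * ((m + 1) * e) := by
              gcongr
          _ = (m + 1) / (2 * R) * a := by rw [ha]; ring
          _ ≤ 1 / (4 * c) * a := by
              refine mul_le_mul_of_nonneg_right ?_ ha0.le
              rw [div_le_div_iff₀ (by positivity) (by positivity)]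
              linarith
      calc ‖fderiv ℝ h x + (fderiv ℝ G x).smulRight (sine x)‖
          ≤ ‖fderiv ℝ h x‖ + ‖(fderiv ℝ G x).smulRight (sine x)‖ := norm_add_le _ _
        _ ≤ 1 / (4 * c) * a + 1 / (4 * c) * a := add_le_add h1 h2
        _ = a / (2 * c) := by field_simp; ring

end QRAsym
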