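import Mathlib

/-!
Sets of asymptotic values of quasiregular maps `R^n → R^n`, `n ≥ 3` (problem MP_53ae57_an).
Definitions.  The last coordinate is singled out, so the dimension is written `m + 1`.
-/

open MeasureTheory Filter Topology Set

namespace QRAsym

/-- `R^n` with the Euclidean norm. -/
abbrev E (n : ℕ) : Type := EuclideanSpace ℝ (Fin n)

/-- `f : R^n → R^n` is `K`-quasiregular: continuous, in `W^{1,n}_loc` with weak derivative `g`, and
`|g(x)|^n ≤ K det g(x)` for almost every `x`. -/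
def Quasiregular {n : ℕ} (K : ℝ) (f : E n → E n) : Prop :=
  Continuous f ∧ ∃ g : E n → (E n →L[ℝ] E n),
    AEStronglyMeasurable g volume ∧
    LocallyIntegrable (fun x => ‖g x‖ ^ n) volume ∧
    (∀ φ : E n → ℝ, ContDiff ℝ 1 φ → HasCompactSupport φ →
      ∀ v : E n, ∫ x, (fderiv ℝ φ x v) • f x = - ∫ x, φ x • g x v) ∧
    (∀ᵐ x ∂volume, ‖g x‖ ^ n ≤ K * LinearMap.det (g x).toLinearMap)

/-- The set of (finite) asymptotic values of `f`. -/
def asymptoticValues {n : ℕ} (f : E n → E n) : Set (E n) :=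
  {a | ∃ γ : ℝ → E n, Continuous γ ∧ Tendsto (fun t => ‖γ t‖) atTop atTop ∧
    Tendsto (fun t => f (γ t)) atTop (𝓝 a)}

/-- Locally Lipschitz and `|Df|^n ≤ K det Df` almost everywhere. -/
def LipQR {n : ℕ} (K : ℝ) (f : E n → E n) : Prop :=
  LocallyLipschitz f ∧
    ∀ᵐ x ∂(volume : Measure (E n)), ‖fderiv ℝ f x‖ ^ n ≤
      K * LinearMap.det (fderiv ℝ f x).toLinearMap

/-- `(R² + |x|²)^(1/2)`. -/
noncomputable def rho {n : ℕ} (R : ℝ) (x : E n) : ℝ := Real.sqrt (R ^ 2 + ‖x‖ ^ 2)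

/-- `h` is Lipschitz with constant `η rho(p)^(-1/2)` on the ball `B(p, rho(p)/2)`, for every `p`. -/
def SlowMap {n : ℕ} (R η : ℝ) (h : E n → E n) : Prop :=
  ∀ p : E n, ∀ x ∈ Metric.ball p (rho R p / 2), ∀ y ∈ Metric.ball p (rho R p / 2),
    ‖h x - h y‖ ≤ η / Real.sqrt (rho R p) * ‖x - y‖

/-! ### the sine -/

/-- The triangle wave of period `4` which is the identity on `[-1, 1]`. -/
noncomputable def fold (s : ℝ) : ℝ := (-1 : ℝ) ^ (round (s / 2)) * (s - 2 * (round (s / 2) : ℝ))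

variable {m : ℕ}

/-- The product of the signs of the slopes of the folds and of the sign of the last coordinate. -/
noncomputable def cellSign (x : E (m + 1)) : ℝ :=
  (∏ i : Fin m, (-1 : ℝ) ^ (round (x i.castSucc / 2))) * (SignType.sign (x (Fin.last m)) : ℝ)

/-- The first `m` coordinates of the sine, `e^|x_last| fold(x_i)`. -/
noncomputable def sineFst (x : E (m + 1)) : Fin m → ℝ :=
  fun i => Real.exp |x (Fin.last m)| * fold (x i.castSucc)

/-- `max(1, |sineFst x|_∞)` (sup norm on `Fin m → ℝ`). -/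
noncomputable def mx (x : E (m + 1)) : ℝ := max 1 ‖sineFst x‖

/-- The quasiregular sine. -/
noncomputable def sine (x : E (m + 1)) : E (m + 1) :=
  WithLp.toLp 2 (Fin.snoc (α := fun _ => ℝ) (sineFst x)
    (cellSign x * (Real.exp |x (Fin.last m)| - mx x)))

/-- `max(1, |y'|_∞) + |y_last|`. -/
noncomputable def gauge (y : E (m + 1)) : ℝ :=
  max 1 ‖fun i : Fin m => y i.castSucc‖ + |y (Fin.last m)|

/-- The map of the construction. -/
noncomputable def bigMap (R : ℝ) (h : E (m + 1) → E (m + 1)) (x : E (m + 1)) : E (m + 1) :=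
  h x + (Real.sqrt (rho R x))⁻¹ • sine x

/-- The radial map `(1 + |x|²)^((κ-1)/2) x`. -/
noncomputable def rad {n : ℕ} (κ : ℝ) (x : E n) : E n := (1 + ‖x‖ ^ 2) ^ ((κ - 1) / 2) • x

/-! ### Cantor intervals and the slow part -/

/-- Left end point of the Cantor interval of level `k` given by the first `k` digits of `b`. -/
noncomputable def cl (b : ℕ → Bool) : ℕ → ℝ
  | 0 => 0
  | k + 1 => cl b k + (if b k then 2 else 0) / 3 ^ (k + 1)

/-- Distance of `u` from the Cantor interval `[cl b k, cl b k + 3^-k]`. -/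
noncomputable def dJ (b : ℕ → Bool) (k : ℕ) (u : ℝ) : ℝ :=
  max 0 (max (cl b k - u) (u - cl b k - 1 / 3 ^ k))

/-- Extension of a finite word by `false`. -/
def ext {k : ℕ} (v : Fin k → Bool) : ℕ → Bool := fun i => if h : i < k then v ⟨i, h⟩ else false

/-- `clamp r = max(0, min(1, r))`. -/
noncomputable def clamp (r : ℝ) : ℝ := max 0 (min 1 r)

variable {n : ℕ}

/-- The centres. -/
noncomputable def cen (c : ℕ → (ℕ → Bool) → E n) (k : ℕ) (u : ℝ) : E n :=
  ∑ v : Fin k → Bool, clamp (2 - 4 * 3 ^ k * dJ (ext v) k u) • c k (ext v)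

/-- The height of the walls of level `k`. -/
noncomputable def hgt (c : ℕ → (ℕ → Bool) → E n) (k : ℕ) : ℝ :=
  (∑ v : Fin k → Bool, ‖c k (ext v)‖) + k

/-- The walls. -/
noncomputable def wall (c : ℕ → (ℕ → Bool) → E n) (k : ℕ) (u : ℝ) : ℝ :=
  hgt c k * ∏ v : Fin k → Bool, min 1 (4 * 3 ^ k * dJ (ext v) k u)

/-- Interpolation: equal to `A k` for `k ≤ l ≤ k + 1/2`, affine from `A k` to `A (k+1)` for
`k + 1/2 ≤ l ≤ k + 1`. -/
noncomputable def strip {V : Type*} [AddCommGroup V] [Module ℝ V] (A : ℕ → ℝ → V) (l u : ℝ) : V :=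
  A ⌊l⌋₊ u + clamp (2 * (l - ⌊l⌋₊) - 1) • (A (⌊l⌋₊ + 1) u - A ⌊l⌋₊ u)

/-- The rotating direction `(cos 4πl, sin 4πl, 0, ...)`. -/
noncomputable def dir (i j : Fin n) (l : ℝ) : E n :=
  Real.cos (4 * Real.pi * l) • EuclideanSpace.single i (1 : ℝ) +
    Real.sin (4 * Real.pi * l) • EuclideanSpace.single j (1 : ℝ)

/-- The slow part as a function of the level `l` and of `u`. -/
noncomputable def Psi (c : ℕ → (ℕ → Bool) → E n) (i j : Fin n) (l u : ℝ) : E n :=
  strip (cen c) l u + strip (wall c) l u • dir i j l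

/-- `c k b` depends on the first `k` digits of `b` only. -/
def Adapted (c : ℕ → (ℕ → Bool) → E n) : Prop :=
  ∀ k b b', (∀ i < k, b i = b' i) → c k b = c k b'

/-- The limits of `c` along the branches of the binary tree. -/
def limits (c : ℕ → (ℕ → Bool) → E n) : Set (E n) :=
  {a | ∃ b, Tendsto (fun k => c k b) atTop (𝓝 a)}

/-- The point of the Cantor set with digits `b`. -/
noncomputable def cantorPt (b : ℕ → Bool) : ℝ := ∑' i, (if b i then (2 : ℝ) else 0) / 3 ^ (i + 1)

end QRAsym
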