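import Pool.Agent.Lib_MP_53ae57.Defs

/-!
[QR-E1] The radial map `rad κ x = (1+|x|²)^((κ-1)/2) x`, `0 < κ ≤ 1`, is a homeomorphism of `R^n`.

Proof. `‖rad κ x‖ = θ(‖x‖)`, `θ(r) = r (1+r²)^((κ-1)/2)`, continuous and strictly increasing on
`[0,∞)` (derivative `(1+r²)^((κ-3)/2) (1 + κ r²) > 0`, or: for `r < r'`,
`(r'/r)^2 > ((1+r'²)/(1+r²))`, power `(1-κ)/2 < 1`), `θ(0) = 0`, `θ(r) → ∞`
(`θ(r) ≥ r (2r²)^((κ-1)/2) ≥ c r^κ` for `r ≥ 1`).
Injective: equal values have equal norms, so `‖x‖ = ‖y‖` and then `x = y`. Surjective: given `y`,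
choose `r ≥ 0` with `θ(r) = ‖y‖` (IVT) and `x = (1+r²)^((1-κ)/2) y` (`‖x‖ = r`: if `y = 0`, `r = 0`).
Inverse continuous: `rad κ` is continuous, injective and proper (`‖rad κ x‖ → ∞` as `‖x‖ → ∞`,
`isProperMap_iff_tendsto_cocompact`, `IsProperMap.isClosedMap`), so it is a closed embedding and onto:
a homeomorphism. `asymptoticValues_comp_rad`: compose paths with `rad κ`, respectively with its
inverse (norms tend to infinity in both directions).
-/

open Set Filter Topology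

namespace QRAsym

variable {n : ℕ}

/-- the norm of `rad` as a function of the norm -/
private noncomputable def E1_th (κ r : ℝ) : ℝ := (1 + r ^ 2) ^ ((κ - 1) / 2) * r

private theorem E1_pos (s r : ℝ) : 0 < (1 + r ^ 2) ^ s := Real.rpow_pos_of_pos (by positivity) _

private theorem E1_norm (κ : ℝ) (x : E n) : ‖rad κ x‖ = E1_th κ ‖x‖ := by
  unfold rad E1_th
  rw [norm_smul, Real.norm_of_nonneg (E1_pos _ _).le]

private theorem E1_split (κ r : ℝ) :
    E1_th κ r = (1 + r ^ 2) ^ (κ / 2) * (r / Real.sqrt (1 + r ^ 2)) := by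
  unfold E1_th
  have h : (κ - 1) / 2 = κ / 2 - 1 / 2 := by ring
  rw [h, Real.rpow_sub (by positivity), Real.sqrt_eq_rpow]
  ring

private theorem E1_mono {κ : ℝ} (h0 : 0 < κ) : StrictMonoOn (E1_th κ) (Ici 0) := by
  intro r hr r' hr' h
  rw [E1_split, E1_split]
  have hr0 : 0 ≤ r := hr
  have hsq : r ^ 2 < r' ^ 2 := by nlinarith
  apply mul_lt_mul_of_le_of_lt_of_pos_of_nonneg
  · exact Real.rpow_le_rpow (by positivity) (by linarith) (by positivity)
  · have a : 0 < Real.sqrt (1 + r ^ 2) := Real.sqrt_pos.2 (by positivity)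
    have a' : 0 < Real.sqrt (1 + r' ^ 2) := Real.sqrt_pos.2 (by positivity)
    rw [div_lt_div_iff₀ a a']
    have b : Real.sqrt (1 + r ^ 2) ^ 2 = 1 + r ^ 2 := Real.sq_sqrt (by positivity)
    have b' : Real.sqrt (1 + r' ^ 2) ^ 2 = 1 + r' ^ 2 := Real.sq_sqrt (by positivity)
    have hr'0 : 0 < r' := lt_of_le_of_lt hr0 h
    apply lt_of_pow_lt_pow_left₀ 2 (by positivity)
    rw [mul_pow, mul_pow, b, b']
    nlinarith
  · exact E1_pos _ _
  · have hr'0 : 0 < r' := lt_of_le_of_lt hr0 h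
    positivity

private theorem E1_cont (κ : ℝ) : Continuous (E1_th κ) := by
  unfold E1_th
  apply Continuous.mul _ continuous_id
  apply Continuous.rpow_const (by fun_prop)
  intro r
  left
  positivity

private theorem E1_tendsto {κ : ℝ} (h0 : 0 < κ) : Tendsto (E1_th κ) atTop atTop := by
  have h1 : Tendsto (fun r : ℝ => (1 + r ^ 2) ^ (κ / 2)) atTop atTop := by
    apply (tendsto_rpow_atTop (by positivity : 0 < κ / 2)).comp
    exact tendsto_atTop_add_const_left _ _ (tendsto_pow_atTop two_ne_zero)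
  have h2 : Tendsto (fun r : ℝ => (1 + r ^ 2) ^ (κ / 2) * (1 / 2)) atTop atTop :=
    h1.atTop_mul_const (by norm_num)
  apply tendsto_atTop_mono' _ _ h2
  filter_upwards [eventually_ge_atTop (1 : ℝ)] with r hr
  rw [E1_split]
  apply mul_le_mul_of_nonneg_left _ (E1_pos _ _).le
  rw [div_le_div_iff₀ (by norm_num) (Real.sqrt_pos.2 (by positivity)), one_mul]
  apply Real.sqrt_le_iff.2
  constructor
  · positivity
  · nlinarith

private theorem E1_surj {κ : ℝ} (h0 : 0 < κ) {y : ℝ} (hy : 0 ≤ y) :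
    ∃ r, 0 ≤ r ∧ E1_th κ r = y := by
  obtain ⟨R, hR, hR0⟩ := (((E1_tendsto h0).eventually (eventually_ge_atTop y)).and
    (eventually_ge_atTop (0 : ℝ))).exists
  have h1 := intermediate_value_Icc hR0 (E1_cont κ).continuousOn
  have h2 : E1_th κ 0 = 0 := by
    unfold E1_th
    rw [mul_zero]
  obtain ⟨r, hr, hr2⟩ := h1 (show y ∈ Icc (E1_th κ 0) (E1_th κ R) from ⟨by rw [h2]; exact hy, hR⟩)
  exact ⟨r, hr.1, hr2⟩

private theorem E1_continuous_rad (κ : ℝ) : Continuous (rad κ : E n → E n) := by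
  unfold rad
  have h : Continuous fun x : E n => (1 + ‖x‖ ^ 2) ^ ((κ - 1) / 2) := by
    apply Continuous.rpow_const (by fun_prop)
    intro r
    left
    positivity
  exact h.smul continuous_id

theorem rad_bijective {κ : ℝ} (h0 : 0 < κ) (h1 : κ ≤ 1) : Function.Bijective (rad κ : E n → E n) := by
  constructor
  · intro x y hxy
    have h2 : E1_th κ ‖x‖ = E1_th κ ‖y‖ := by rw [← E1_norm, ← E1_norm, hxy]
    have h3 : ‖x‖ = ‖y‖ := (E1_mono h0).injOn (norm_nonneg x) (norm_nonneg y) h2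
    unfold rad at hxy
    rw [h3] at hxy
    exact smul_right_injective _ (E1_pos _ _).ne' hxy
  · intro y
    obtain ⟨r, hr0, hr⟩ := E1_surj h0 (norm_nonneg y)
    have h2 : ‖(1 + r ^ 2) ^ (-((κ - 1) / 2)) • y‖ = r := by
      rw [norm_smul, Real.norm_of_nonneg (E1_pos _ _).le, ← hr]
      unfold E1_th
      rw [← mul_assoc, ← Real.rpow_add (by positivity), neg_add_cancel, Real.rpow_zero, one_mul]
    refine ⟨(1 + r ^ 2) ^ (-((κ - 1) / 2)) • y, ?_⟩
    unfold rad
    rw [h2, smul_smul, ← Real.rpow_add (by positivity), add_neg_cancel, Real.rpow_zero, one_smul]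

theorem rad_homeo {κ : ℝ} (h0 : 0 < κ) (h1 : κ ≤ 1) :
    ∃ e : E n ≃ₜ E n, ∀ x, e x = rad κ x := by
  have hb : Function.Bijective (rad κ : E n → E n) := rad_bijective h0 h1
  have hp : IsProperMap (rad κ : E n → E n) := by
    rw [isProperMap_iff_tendsto_cocompact]
    refine ⟨E1_continuous_rad κ, ?_⟩
    rw [← Metric.cobounded_eq_cocompact, ← comap_norm_atTop, tendsto_comap_iff]
    have h2 : (norm ∘ (rad κ : E n → E n)) = E1_th κ ∘ norm := by
      funext x
      exact E1_norm κ x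
    rw [h2]
    exact (E1_tendsto h0).comp tendsto_comap
  have hh : IsHomeomorph (rad κ : E n → E n) :=
    isHomeomorph_iff_continuous_isClosedMap_bijective.2 ⟨E1_continuous_rad κ, hp.isClosedMap, hb⟩
  exact ⟨hh.homeomorph, fun x => rfl⟩

theorem norm_rad_le {κ : ℝ} (h0 : 0 < κ) (h1 : κ ≤ 1) (x : E n) :
    ‖rad κ x‖ ≤ (1 + ‖x‖ ^ 2) ^ (κ / 2) := by
  rw [E1_norm, E1_split]
  apply mul_le_of_le_one_right (E1_pos _ _).le
  rw [div_le_one (Real.sqrt_pos.2 (by positivity))]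
  apply Real.le_sqrt_of_sq_le
  linarith

theorem asymptoticValues_comp_rad {κ : ℝ} (h0 : 0 < κ) (h1 : κ ≤ 1) (f : E n → E n) :
    asymptoticValues (fun x => f (rad κ x)) = asymptoticValues f := by
  obtain ⟨e, he⟩ := rad_homeo (n := n) h0 h1
  ext a
  constructor
  · rintro ⟨γ, hγ, hn, ha⟩
    refine ⟨fun t => rad κ (γ t), (E1_continuous_rad κ).comp hγ, ?_, ha⟩
    have h2 : (fun t => ‖rad κ (γ t)‖) = fun t => E1_th κ ‖γ t‖ := by
      funext t
      exact E1_norm κ _
    rw [h2]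
    exact (E1_tendsto h0).comp hn
  · rintro ⟨γ, hγ, hn, ha⟩
    have h3 : ∀ t, rad κ (e.symm (γ t)) = γ t := by
      intro t
      rw [← he, e.apply_symm_apply]
    refine ⟨fun t => e.symm (γ t), e.symm.continuous.comp hγ, ?_, ?_⟩
    · apply tendsto_atTop_mono _ hn
      intro t
      change ‖γ t‖ ≤ ‖e.symm (γ t)‖
      have h5 : ‖γ t‖ = E1_th κ ‖e.symm (γ t)‖ := by rw [← E1_norm, h3]
      rw [h5]
      unfold E1_th
      apply mul_le_of_le_one_left (norm_nonneg _)
      apply Real.rpow_le_one_of_one_le_of_nonpos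
      · nlinarith [sq_nonneg ‖e.symm (γ t)‖]
      · linarith
    · have h4 : (fun t => f (rad κ (e.symm (γ t)))) = fun t => f (γ t) := by
        funext t
        rw [h3]
      rw [h4]
      exact ha

end QRAsym
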