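import Pool.Agent.Lib_MP_53ae57.A0_AE
import Pool.Agent.Lib_MP_53ae57.B_LinAlg
import Pool.Agent.Lib_MP_53ae57.E1_RadHomeo

/-!
[QR-E2] Composition with the radial map.

Proof. `rad κ` is smooth with derivative `A_x = s (1 + X)`, `s = (1+|x|²)^((κ-1)/2)`,
`X v = (κ-1) ⟪x, v⟫ x / (1+|x|²)`, `‖X‖ ≤ 1 - κ < 1`. So `‖A_x‖ ≤ 2 s` and
`det A_x = s^n det(1+X) ≥ c s^n` (`det_one_add_lower` with `θ = 1 - κ`): `‖A_x‖^n ≤ K' det A_x` with
`K' = max 1 (2^n/c)`, and `det A_x > 0`. Let `Z` be the null set where the inequality for `f` fails or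
`f` is not differentiable (locally Lipschitz functions are differentiable a.e.,
`ae_differentiableAt_of_locallyLipschitz`). `(rad κ)⁻¹ Z` is null:
`∫⁻_{(rad κ)⁻¹ Z} |det A_x| = volume (rad κ '' ((rad κ)⁻¹ Z)) = volume Z = 0`
(`MeasureTheory.lintegral_abs_det_fderiv_eq_addHaar_image`, `rad κ` injective and onto; take `Z`
measurable: `toMeasurable`) and `|det A_x| > 0`. Off it the chain rule gives
`fderiv (f ∘ rad κ) x = fderiv f (rad κ x) ∘ A_x`, so
`‖·‖^n ≤ ‖fderiv f‖^n ‖A_x‖^n ≤ K det(fderiv f) K' det A_x` (`LinearMap.det_comp`; all factors `≥ 0`).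
Locally Lipschitz: composition of a locally Lipschitz and a `C^1` map.
-/

open Set Filter Topology MeasureTheory

namespace QRAsym

private theorem E2_g_pos {n : ℕ} (x : E n) : 0 < 1 + ‖x‖ ^ 2 := by positivity

/-- the perturbation of the identity -/
private noncomputable def E2_X {n : ℕ} (κ : ℝ) (x : E n) : E n →L[ℝ] E n :=
  ((κ - 1) / (1 + ‖x‖ ^ 2)) • (innerSL ℝ x).smulRight x

private theorem E2_deriv {n : ℕ} (κ : ℝ) (x : E n) :
    HasFDerivAt (rad κ : E n → E n)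
      ((1 + ‖x‖ ^ 2) ^ ((κ - 1) / 2) • (ContinuousLinearMap.id ℝ (E n) + E2_X κ x)) x := by
  have h1 : HasFDerivAt (fun y : E n => 1 + ‖y‖ ^ 2) (2 • innerSL ℝ x) x :=
    ((hasStrictFDerivAt_norm_sq x).hasFDerivAt).const_add 1
  have h2 := h1.rpow_const (p := (κ - 1) / 2) (Or.inl (E2_g_pos x).ne')
  have h3 := h2.smul (hasFDerivAt_id x)
  refine h3.congr_fderiv ?_
  ext1 v
  have h4 : (1 + ‖x‖ ^ 2) ^ ((κ - 1) / 2 - 1) =
      (1 + ‖x‖ ^ 2) ^ ((κ - 1) / 2) / (1 + ‖x‖ ^ 2) := by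
    rw [Real.rpow_sub (E2_g_pos x), Real.rpow_one]
  simp only [E2_X, ContinuousLinearMap.add_apply, ContinuousLinearMap.smul_apply,
    ContinuousLinearMap.smulRight_apply, ContinuousLinearMap.id_apply, innerSL_apply_apply, id,
    smul_add, smul_smul, h4]
  congr 2
  simp only [nsmul_eq_mul, smul_eq_mul, Nat.cast_ofNat]
  ring

private theorem E2_X_norm {n : ℕ} {κ : ℝ} (h1 : κ ≤ 1) (x : E n) : ‖E2_X κ x‖ ≤ 1 - κ := by
  refine ContinuousLinearMap.opNorm_le_bound _ (by linarith) fun v => ?_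
  have hg := E2_g_pos x
  have e : E2_X κ x v = ((κ - 1) / (1 + ‖x‖ ^ 2) * inner ℝ x v) • x := by
    simp only [E2_X, ContinuousLinearMap.smul_apply, ContinuousLinearMap.smulRight_apply,
      innerSL_apply_apply, smul_smul]
  rw [e, norm_smul, norm_mul, norm_div, Real.norm_of_nonneg hg.le, Real.norm_eq_abs (κ - 1),
    abs_of_nonpos (by linarith : κ - 1 ≤ 0)]
  have h2 : ‖inner ℝ x v‖ ≤ ‖x‖ * ‖v‖ := norm_inner_le_norm x v
  have h3 : -(κ - 1) / (1 + ‖x‖ ^ 2) * ‖inner ℝ x v‖ * ‖x‖ ≤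
      -(κ - 1) / (1 + ‖x‖ ^ 2) * (‖x‖ * ‖v‖) * ‖x‖ := by
    have h4 : 0 ≤ -(κ - 1) / (1 + ‖x‖ ^ 2) := div_nonneg (by linarith) hg.le
    exact mul_le_mul_of_nonneg_right (mul_le_mul_of_nonneg_left h2 h4) (norm_nonneg _)
  refine h3.trans ?_
  have h5 : -(κ - 1) / (1 + ‖x‖ ^ 2) * (‖x‖ * ‖v‖) * ‖x‖ =
      (1 - κ) * ‖v‖ * (‖x‖ ^ 2 / (1 + ‖x‖ ^ 2)) := by
    field_simp
    ring
  rw [h5]
  have h6 : ‖x‖ ^ 2 / (1 + ‖x‖ ^ 2) ≤ 1 := by
    rw [div_le_one hg]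
    linarith
  have h7 : 0 ≤ (1 - κ) * ‖v‖ := mul_nonneg (by linarith) (norm_nonneg _)
  calc (1 - κ) * ‖v‖ * (‖x‖ ^ 2 / (1 + ‖x‖ ^ 2)) ≤ (1 - κ) * ‖v‖ * 1 :=
        mul_le_mul_of_nonneg_left h6 h7
    _ = (1 - κ) * ‖v‖ := mul_one _

private theorem E2_contDiff {n : ℕ} (κ : ℝ) : ContDiff ℝ 1 (rad κ : E n → E n) := by
  unfold rad
  have h1 : ContDiff ℝ 1 fun x : E n => 1 + ‖x‖ ^ 2 := contDiff_const.add (contDiff_norm_sq ℝ)
  exact (h1.rpow_const_of_ne fun x => (E2_g_pos x).ne').smul contDiff_id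

private theorem E2_null {n : ℕ} {κ : ℝ} (h0 : 0 < κ) (h1 : κ ≤ 1)
    (hdet : ∀ x : E n, 0 < (fderiv ℝ (rad κ : E n → E n) x).det) (Z : Set (E n))
    (hZ : volume Z = 0) : ∀ᵐ x ∂(volume : Measure (E n)), rad κ x ∉ Z := by
  have hcont : Continuous (rad κ : E n → E n) := (E2_contDiff κ).continuous
  have hb : Function.Bijective (rad κ : E n → E n) := rad_bijective h0 h1
  set W := toMeasurable (volume : Measure (E n)) Z with hW
  have hWm : MeasurableSet W := measurableSet_toMeasurable _ _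
  have hW0 : volume W = 0 := by rw [hW, measure_toMeasurable, hZ]
  have hTm : MeasurableSet ((rad κ : E n → E n) ⁻¹' W) := hcont.measurable hWm
  have h2 := MeasureTheory.lintegral_abs_det_fderiv_eq_addHaar_image (volume : Measure (E n))
    hTm (f := (rad κ : E n → E n)) (f' := fun x => fderiv ℝ (rad κ : E n → E n) x)
    (fun x _ => ((E2_deriv κ x).differentiableAt.hasFDerivAt).hasFDerivWithinAt)
    hb.injective.injOn
  rw [image_preimage_eq _ hb.surjective, hW0] at h2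
  have hmeas : Measurable fun x : E n =>
      ENNReal.ofReal |(fderiv ℝ (rad κ : E n → E n) x).det| := by
    have h3 : Measurable fun x : E n => (fderiv ℝ (rad κ : E n → E n) x).det :=
      ContinuousLinearMap.continuous_det.measurable.comp (measurable_fderiv ℝ _)
    exact (continuous_abs.measurable.comp h3).ennreal_ofReal
  rw [lintegral_eq_zero_iff hmeas] at h2
  have h3 := (ae_restrict_iff' hTm).1 h2
  filter_upwards [h3] with x hx hxZ
  have h4 : x ∈ (rad κ : E n → E n) ⁻¹' W := subset_toMeasurable _ _ hxZ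
  have h5 := hx h4
  have h6 : ENNReal.ofReal |(fderiv ℝ (rad κ : E n → E n) x).det| = 0 := h5
  rw [ENNReal.ofReal_eq_zero, abs_of_pos (hdet x)] at h6
  exact absurd (hdet x) (not_lt.2 h6)

theorem rad_lipQR (n : ℕ) {κ : ℝ} (h0 : 0 < κ) (h1 : κ ≤ 1) : ∃ K' : ℝ, 1 ≤ K' ∧
    ∀ (K : ℝ) (f : E n → E n), 1 ≤ K → LipQR K f → LipQR (K * K') (fun x => f (rad κ x)) := by
  obtain ⟨c, hc, hlow⟩ := det_one_add_lower n (1 - κ) (by linarith) (by linarith)
  have hfd : ∀ x : E n, fderiv ℝ (rad κ : E n → E n) x =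
      (1 + ‖x‖ ^ 2) ^ ((κ - 1) / 2) • (ContinuousLinearMap.id ℝ (E n) + E2_X κ x) :=
    fun x => (E2_deriv κ x).fderiv
  have hs : ∀ x : E n, 0 < (1 + ‖x‖ ^ 2) ^ ((κ - 1) / 2) :=
    fun x => Real.rpow_pos_of_pos (E2_g_pos x) _
  have hdetl : ∀ x : E n, c * ((1 + ‖x‖ ^ 2) ^ ((κ - 1) / 2)) ^ n ≤
      LinearMap.det (fderiv ℝ (rad κ : E n → E n) x).toLinearMap := by
    intro x
    rw [hfd, det_smul', mul_comm]
    exact mul_le_mul_of_nonneg_left (hlow _ (E2_X_norm h1 x)) (by have := hs x; positivity)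
  have hdetp : ∀ x : E n, 0 < LinearMap.det (fderiv ℝ (rad κ : E n → E n) x).toLinearMap := by
    intro x
    refine lt_of_lt_of_le ?_ (hdetl x)
    have := hs x
    positivity
  have hnorm : ∀ x : E n, ‖fderiv ℝ (rad κ : E n → E n) x‖ ≤
      2 * (1 + ‖x‖ ^ 2) ^ ((κ - 1) / 2) := by
    intro x
    rw [hfd, norm_smul, Real.norm_of_nonneg (hs x).le, mul_comm]
    refine mul_le_mul_of_nonneg_right ?_ (hs x).le
    refine (norm_add_le _ _).trans ?_
    have h2 : ‖ContinuousLinearMap.id ℝ (E n)‖ ≤ 1 := ContinuousLinearMap.norm_id_le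
    have h3 := E2_X_norm h1 x
    linarith
  have hA : ∀ x : E n, ‖fderiv ℝ (rad κ : E n → E n) x‖ ^ n ≤
      max 1 (2 ^ n / c) * LinearMap.det (fderiv ℝ (rad κ : E n → E n) x).toLinearMap := by
    intro x
    calc ‖fderiv ℝ (rad κ : E n → E n) x‖ ^ n
        ≤ (2 * (1 + ‖x‖ ^ 2) ^ ((κ - 1) / 2)) ^ n :=
          pow_le_pow_left₀ (norm_nonneg _) (hnorm x) n
      _ = 2 ^ n / c * (c * ((1 + ‖x‖ ^ 2) ^ ((κ - 1) / 2)) ^ n) := by
          rw [mul_pow]
          field_simp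
      _ ≤ 2 ^ n / c * LinearMap.det (fderiv ℝ (rad κ : E n → E n) x).toLinearMap :=
          mul_le_mul_of_nonneg_left (hdetl x) (by positivity)
      _ ≤ _ := mul_le_mul_of_nonneg_right (le_max_right _ _) (hdetp x).le
  refine ⟨max 1 (2 ^ n / c), le_max_left _ _, ?_⟩
  intro K f hK hf
  refine ⟨hf.1.comp (E2_contDiff κ).locallyLipschitz, ?_⟩
  have hgood : ∀ᵐ y ∂(volume : Measure (E n)), DifferentiableAt ℝ f y ∧
      ‖fderiv ℝ f y‖ ^ n ≤ K * LinearMap.det (fderiv ℝ f y).toLinearMap :=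
    (ae_differentiableAt_of_locallyLipschitz hf.1).and hf.2
  have hnull := E2_null h0 h1 (fun x => hdetp x)
    {y | ¬ (DifferentiableAt ℝ f y ∧
      ‖fderiv ℝ f y‖ ^ n ≤ K * LinearMap.det (fderiv ℝ f y).toLinearMap)} (ae_iff.1 hgood)
  filter_upwards [hnull] with x hx
  have hx' : DifferentiableAt ℝ f (rad κ x) ∧
      ‖fderiv ℝ f (rad κ x)‖ ^ n ≤ K * LinearMap.det (fderiv ℝ f (rad κ x)).toLinearMap := by
    by_contra hcon
    exact hx hcon
  have hcomp : fderiv ℝ (fun x => f (rad κ x)) x =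
      (fderiv ℝ f (rad κ x)).comp (fderiv ℝ (rad κ : E n → E n) x) :=
    (hx'.1.hasFDerivAt.comp x (E2_deriv κ x).differentiableAt.hasFDerivAt).fderiv
  rw [hcomp]
  have hdc : LinearMap.det ((fderiv ℝ f (rad κ x)).comp
      (fderiv ℝ (rad κ : E n → E n) x)).toLinearMap =
      LinearMap.det (fderiv ℝ f (rad κ x)).toLinearMap *
        LinearMap.det (fderiv ℝ (rad κ : E n → E n) x).toLinearMap := by
    rw [← LinearMap.det_comp]
    rfl
  rw [hdc]
  calc ‖(fderiv ℝ f (rad κ x)).comp (fderiv ℝ (rad κ : E n → E n) x)‖ ^ n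
      ≤ (‖fderiv ℝ f (rad κ x)‖ * ‖fderiv ℝ (rad κ : E n → E n) x‖) ^ n :=
        pow_le_pow_left₀ (norm_nonneg _) (ContinuousLinearMap.opNorm_comp_le _ _) n
    _ = ‖fderiv ℝ f (rad κ x)‖ ^ n * ‖fderiv ℝ (rad κ : E n → E n) x‖ ^ n := mul_pow _ _ _
    _ ≤ (K * LinearMap.det (fderiv ℝ f (rad κ x)).toLinearMap) *
        (max 1 (2 ^ n / c) * LinearMap.det (fderiv ℝ (rad κ : E n → E n) x).toLinearMap) :=
        mul_le_mul hx'.2 (hA x) (by positivity) (le_trans (by positivity) hx'.2)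
    _ = _ := by ring

end QRAsym
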