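import Pool.Agent.Lib_MP_53ae57.Defs

/-!
[QR-F1] Tools for the trap.

`stay` (continuity method): otherwise let `t` be the infimum of `{t ≥ t₁ : ψ t ≥ 1}` (closed, bounded
below, nonempty), so `ψ t ≥ 1` and `ψ ≤ 1` on `[t₁, t]` (`ψ < 1` before `t`, and `ψ t ≤ 1` by
continuity from the left, `t > t₁`); the hypothesis gives `ψ t < 1`, contradiction.
`gauge_le`: both terms are at most `‖y‖`.
`gauge_close`: let `y = G (z + e)`, `A = y_i / G = z_i + e_i`,
`B = gauge y / G = max(1/G, ‖z' + e'‖) + |z_last + e_last|`, `q = ‖z'‖ + |z_last|` (sup norms). Then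
`|A - z_i| ≤ ε`, `|B - q| ≤ 1/G + 2 ε`, `|A| ≤ B`, so
`|A/B - z_i/q| ≤ |A - z_i|/q + |A| |B - q|/(B q) ≤ (3 ε + 1/G)/q`, and
`q ≥ max |z_k| ≥ ‖z‖/√(m+1) ≥ d/(m+1)`.
`norm_le_sum`: `‖x‖ ≤ ∑ |x_k|`.
`exists_large`: all conditions hold for large `ρ` (`isLittleO_log_rpow_atTop` etc.; e.g. eventually
filters, `Filter.Eventually.and`).
-/

open Set Filter Topology

namespace QRAsym

variable {m : ℕ}

theorem stay {ψ : ℝ → ℝ} (hψ : Continuous ψ) {t₁ : ℝ} (h1 : ψ t₁ < 1)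
    (h : ∀ t, t₁ ≤ t → (∀ s ∈ Icc t₁ t, ψ s ≤ 1) → ψ t < 1) : ∀ t, t₁ ≤ t → ψ t < 1 := by
  by_contra hcon
  push Not at hcon
  obtain ⟨u, hu1, hu2⟩ := hcon
  set S : Set ℝ := {t | t₁ ≤ t ∧ 1 ≤ ψ t} with hS
  have hScl : IsClosed S := by
    have e : S = Ici t₁ ∩ ψ ⁻¹' Ici 1 := by
      ext t; simp [hS]
    rw [e]
    exact isClosed_Ici.inter (isClosed_Ici.preimage hψ)
  have hSne : S.Nonempty := ⟨u, hu1, hu2⟩
  have hSbd : BddBelow S := ⟨t₁, fun t ht => ht.1⟩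
  have hmem : sInf S ∈ S := hScl.csInf_mem hSne hSbd
  set t := sInf S with ht
  have hlt : ∀ s, t₁ ≤ s → s < t → ψ s < 1 := by
    intro s hs1 hs2
    by_contra hc
    have : s ∈ S := ⟨hs1, not_lt.mp hc⟩
    exact absurd (csInf_le hSbd this) (not_le.mpr hs2)
  have htt : t₁ < t := by
    rcases lt_or_eq_of_le hmem.1 with h' | h'
    · exact h'
    · exfalso
      have := hmem.2
      rw [← h'] at this
      linarith
  have hle : ψ t ≤ 1 := by
    have hcl : t ∈ closure (Ico t₁ t) := by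
      rw [closure_Ico htt.ne]
      exact right_mem_Icc.mpr htt.le
    have hsub : closure (Ico t₁ t) ⊆ ψ ⁻¹' Iic 1 := by
      apply closure_minimal _ (isClosed_Iic.preimage hψ)
      intro s hs
      exact (hlt s hs.1 hs.2).le
    exact hsub hcl
  have := h t hmem.1 (by
    intro s hs
    rcases lt_or_eq_of_le hs.2 with h' | h'
    · exact (hlt s hs.1 h').le
    · rw [h']; exact hle)
  linarith [hmem.2]

theorem abs_apply_le (y : E (m + 1)) (i : Fin (m + 1)) : |y i| ≤ ‖y‖ := by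
  have := PiLp.norm_apply_le y i
  simpa [Real.norm_eq_abs] using this

theorem init_norm_le (y : E (m + 1)) : ‖fun i : Fin m => y i.castSucc‖ ≤ ‖y‖ := by
  rw [pi_norm_le_iff_of_nonneg (norm_nonneg _)]
  intro i
  rw [Real.norm_eq_abs]
  exact abs_apply_le y _

theorem gauge_le (y : E (m + 1)) : gauge y ≤ 1 + 2 * ‖y‖ := by
  unfold gauge
  have h1 := init_norm_le y
  have h2 := abs_apply_le y (Fin.last m)
  have h3 : max 1 ‖fun i : Fin m => y i.castSucc‖ ≤ 1 + ‖y‖ := by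
    apply max_le
    · linarith [norm_nonneg y]
    · linarith
  linarith

theorem norm_le_sum (x : E (m + 1)) : ‖x‖ ≤ (∑ i : Fin m, |x i.castSucc|) + |x (Fin.last m)| := by
  rw [← Fin.sum_univ_castSucc (fun i => |x i|)]
  rw [EuclideanSpace.norm_eq]
  apply Real.sqrt_le_iff.mpr
  constructor
  · exact Finset.sum_nonneg (fun i _ => abs_nonneg _)
  · have := Finset.sum_sq_le_sq_sum_of_nonneg (s := Finset.univ) (f := fun i => |x i|)
      (fun i _ => abs_nonneg _)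
    simpa [Real.norm_eq_abs] using this

theorem gauge_close {z e : E (m + 1)} {G ε d : ℝ} (hG : 0 < G) (hd : 0 < d) (hz : d ≤ ‖z‖)
    (he : ‖e‖ ≤ ε) (i : Fin m) :
    |(G • (z + e)) i.castSucc / gauge (G • (z + e)) -
      z i.castSucc / (‖fun j : Fin m => z j.castSucc‖ + |z (Fin.last m)|)| ≤
    (m + 1) * (3 * ε + 1 / G) / d := by
  set zp : Fin m → ℝ := fun j => z j.castSucc with hzp
  set ep : Fin m → ℝ := fun j => e j.castSucc with hep
  set zl : ℝ := z (Fin.last m) with hzl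
  set el : ℝ := e (Fin.last m) with hel
  set q : ℝ := ‖zp‖ + |zl| with hq
  set B : ℝ := max (1 / G) ‖zp + ep‖ + |zl + el| with hB
  set A : ℝ := z i.castSucc + e i.castSucc with hA
  have hgauge : gauge (G • (z + e)) = G * B := by
    unfold gauge
    have e1 : (fun j : Fin m => (G • (z + e)) j.castSucc) = G • (zp + ep) := by
      funext j; simp [hzp, hep]; ring
    rw [e1, norm_smul, Real.norm_eq_abs, abs_of_pos hG]
    have e2 : (G • (z + e)) (Fin.last m) = G * (zl + el) := by simp [hzl, hel]; ring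
    rw [e2, abs_mul, abs_of_pos hG, hB, mul_add, mul_max_of_nonneg _ _ hG.le]
    congr 2
    field_simp
  have hnum : (G • (z + e)) i.castSucc = G * A := by simp [hA]; ring
  rw [hgauge, hnum, mul_div_mul_left _ _ hG.ne']
  have hε : 0 ≤ ε := le_trans (norm_nonneg _) he
  have hepn : ‖ep‖ ≤ ε := le_trans (init_norm_le e) he
  have heln : |el| ≤ ε := le_trans (abs_apply_le e _) he
  have hein : |e i.castSucc| ≤ ε := le_trans (abs_apply_le e _) he
  have hGi : 0 < 1 / G := by positivity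
  have hBpos : 0 < B := by
    rw [hB]
    have : 0 < max (1 / G) ‖zp + ep‖ := lt_of_lt_of_le hGi (le_max_left _ _)
    linarith [abs_nonneg (zl + el)]
  -- lower bound of q
  have hm : (0:ℝ) < (m:ℝ) + 1 := by positivity
  have hqd : d ≤ (m + 1) * q := by
    refine le_trans hz (le_trans (norm_le_sum z) ?_)
    have h1 : ∑ j : Fin m, |z j.castSucc| ≤ ∑ _j : Fin m, ‖zp‖ := by
      apply Finset.sum_le_sum
      intro j _
      have := norm_le_pi_norm zp j
      simpa [Real.norm_eq_abs, hzp] using this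
    rw [Finset.sum_const, Finset.card_univ, Fintype.card_fin, nsmul_eq_mul] at h1
    have h2 : 0 ≤ ‖zp‖ := norm_nonneg _
    have h3 : 0 ≤ |zl| := abs_nonneg _
    have h4 : (0:ℝ) ≤ m := Nat.cast_nonneg _
    rw [hq]
    nlinarith [mul_nonneg h4 h3]
  have hqpos : 0 < q := by
    by_contra hc
    have : (m + 1 : ℝ) * q ≤ 0 := mul_nonpos_of_nonneg_of_nonpos hm.le (not_lt.mp hc)
    linarith
  have hBq : |B - q| ≤ 1 / G + 2 * ε := by
    rw [abs_le]
    have h1 : ‖zp + ep‖ ≤ ‖zp‖ + ‖ep‖ := norm_add_le _ _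
    have h2 : ‖zp‖ ≤ ‖zp + ep‖ + ‖ep‖ := by
      have := norm_sub_le (zp + ep) ep
      simpa using this
    have h3 : |zl + el| ≤ |zl| + |el| := abs_add_le _ _
    have h4 : |zl| ≤ |zl + el| + |el| := by
      have := abs_sub (zl + el) el
      simpa using this
    have h5 : max (1 / G) ‖zp + ep‖ ≤ 1 / G + ‖zp + ep‖ := by
      apply max_le
      · linarith [norm_nonneg (zp + ep)]
      · linarith
    have h6 : ‖zp + ep‖ ≤ max (1 / G) ‖zp + ep‖ := le_max_right _ _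
    constructor
    · rw [hB, hq]; linarith
    · rw [hB, hq]; linarith
  have hAB : |A| ≤ B := by
    have h1 : |A| ≤ ‖zp + ep‖ := by
      have := norm_le_pi_norm (zp + ep) i
      simpa [Real.norm_eq_abs, hzp, hep, hA] using this
    have h6 : ‖zp + ep‖ ≤ max (1 / G) ‖zp + ep‖ := le_max_right _ _
    rw [hB]
    linarith [abs_nonneg (zl + el)]
  have key : |A / B - z i.castSucc / q| ≤ (3 * ε + 1 / G) / q := by
    have e1 : A / B - z i.castSucc / q = (A / B) * ((q - B) / q) + (A - z i.castSucc) / q := by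
      field_simp
      ring
    rw [e1]
    refine le_trans (abs_add_le _ _) ?_
    have h1 : |A / B * ((q - B) / q)| ≤ (1 / G + 2 * ε) / q := by
      rw [abs_mul, abs_div, abs_div, abs_of_pos hBpos, abs_of_pos hqpos, abs_sub_comm]
      have h2 : |A| / B ≤ 1 := (div_le_one hBpos).mpr hAB
      have h3 : |B - q| / q ≤ (1 / G + 2 * ε) / q := by gcongr
      calc |A| / B * (|B - q| / q) ≤ 1 * (|B - q| / q) := by gcongr
        _ = |B - q| / q := one_mul _
        _ ≤ _ := h3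
    have h2 : |(A - z i.castSucc) / q| ≤ ε / q := by
      rw [abs_div, abs_of_pos hqpos]
      have : A - z i.castSucc = e i.castSucc := by rw [hA]; ring
      rw [this]
      gcongr
    have h3 : (1 / G + 2 * ε) / q + ε / q = (3 * ε + 1 / G) / q := by
      rw [← add_div]; congr 1; ring
    linarith
  refine le_trans key ?_
  rw [div_le_div_iff₀ hqpos hd]
  have h7 : 0 ≤ 3 * ε + 1 / G := by positivity
  nlinarith [mul_le_mul_of_nonneg_left hqd h7]

theorem exists_large (m : ℕ) (A ε : ℝ) (hε : 0 < ε) : ∃ ρ₀ : ℝ, 1 ≤ ρ₀ ∧ ∀ ρ, ρ₀ ≤ ρ →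
    ρ ^ (1 / 3 : ℝ) < ρ / 2 ∧ ρ ^ (1 / 3 : ℝ) / Real.sqrt ρ ≤ ε / 2 ∧
    1 / ε ≤ Real.sqrt (ρ / 2) ∧
    1 + 2 * (Real.sqrt (2 * ρ) * (A + ρ + 1)) ≤ ρ ^ 2 ∧
    4 * m + 4 * Real.log ρ < ρ ^ (1 / 3 : ℝ) := by
  have h3 : Tendsto (fun ρ : ℝ => ρ ^ (1 / 3 : ℝ)) atTop atTop := tendsto_rpow_atTop (by norm_num)
  have e1 : ∀ᶠ ρ : ℝ in atTop, ρ ^ (1 / 3 : ℝ) < ρ / 2 := by
    have h := (tendsto_rpow_atTop (show (0:ℝ) < 2/3 by norm_num)).eventually_gt_atTop 2
    filter_upwards [h, eventually_gt_atTop 0] with ρ h1 h2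
    have h5 : ρ = ρ ^ (1 / 3 : ℝ) * ρ ^ (2 / 3 : ℝ) := by
      rw [← Real.rpow_add h2]; norm_num
    have h6 : 0 < ρ ^ (1 / 3 : ℝ) := by positivity
    rw [lt_div_iff₀ (by norm_num)]
    calc ρ ^ (1 / 3 : ℝ) * 2 < ρ ^ (1 / 3 : ℝ) * ρ ^ (2 / 3 : ℝ) := by gcongr
      _ = ρ := h5.symm
  have e2 : ∀ᶠ ρ : ℝ in atTop, ρ ^ (1 / 3 : ℝ) / Real.sqrt ρ ≤ ε / 2 := by
    have h := (tendsto_rpow_atTop (show (0:ℝ) < 1/6 by norm_num)).eventually_ge_atTop (2 / ε)
    filter_upwards [h, eventually_gt_atTop 0] with ρ h1 h2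
    have h5 : ρ ^ (1 / 2 : ℝ) = ρ ^ (1 / 3 : ℝ) * ρ ^ (1 / 6 : ℝ) := by
      rw [← Real.rpow_add h2]; norm_num
    have h6 : 0 < ρ ^ (1 / 3 : ℝ) := by positivity
    rw [Real.sqrt_eq_rpow, div_le_iff₀ (by positivity), h5]
    have h7 : 1 ≤ ε / 2 * ρ ^ (1 / 6 : ℝ) := by
      calc (1:ℝ) = ε / 2 * (2 / ε) := by field_simp
        _ ≤ _ := by gcongr
    nlinarith [mul_le_mul_of_nonneg_left h7 h6.le]
  have e3 : ∀ᶠ ρ : ℝ in atTop, 1 / ε ≤ Real.sqrt (ρ / 2) := by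
    have h : Tendsto (fun ρ : ℝ => Real.sqrt (ρ / 2)) atTop atTop :=
      Real.tendsto_sqrt_atTop.comp (tendsto_id.atTop_div_const (by norm_num))
    exact h.eventually_ge_atTop _
  have e4 : ∀ᶠ ρ : ℝ in atTop, 1 + 2 * (Real.sqrt (2 * ρ) * (A + ρ + 1)) ≤ ρ ^ 2 := by
    filter_upwards [eventually_ge_atTop (1000 * (|A| + 1))] with ρ h1
    have hA : A ≤ |A| := le_abs_self A
    have hA' : 0 ≤ |A| := abs_nonneg A
    have hρ : 1000 ≤ ρ := by nlinarith
    have hs : Real.sqrt (2 * ρ) ≤ ρ / 10 := by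
      apply Real.sqrt_le_iff.mpr
      constructor
      · linarith
      · nlinarith
    have hs0 : 0 ≤ Real.sqrt (2 * ρ) := Real.sqrt_nonneg _
    have h2 : A + ρ + 1 ≤ 2 * ρ := by nlinarith
    calc 1 + 2 * (Real.sqrt (2 * ρ) * (A + ρ + 1)) ≤ 1 + 2 * (Real.sqrt (2 * ρ) * (2 * ρ)) := by
          gcongr
      _ ≤ 1 + 2 * (ρ / 10 * (2 * ρ)) := by gcongr
      _ ≤ ρ ^ 2 := by nlinarith
  have e5 : ∀ᶠ ρ : ℝ in atTop, 4 * m + 4 * Real.log ρ < ρ ^ (1 / 3 : ℝ) := by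
    have h := (isLittleO_log_rpow_atTop (show (0:ℝ) < 1/3 by norm_num)).def
      (show (0:ℝ) < 1/8 by norm_num)
    filter_upwards [h, h3.eventually_gt_atTop (8 * m : ℝ), eventually_gt_atTop 1] with ρ h1 h2 h4
    rw [Real.norm_of_nonneg (Real.log_nonneg h4.le), Real.norm_of_nonneg (by positivity)] at h1
    linarith
  obtain ⟨ρ₀, h⟩ := (eventually_atTop.mp (e1.and (e2.and (e3.and (e4.and e5)))))
  refine ⟨max 1 ρ₀, le_max_left _ _, fun ρ hρ => ?_⟩
  have := h ρ (le_trans (le_max_right _ _) hρ)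
  exact ⟨this.1, this.2.1, this.2.2.1, this.2.2.2.1, this.2.2.2.2⟩

end QRAsym
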