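import Pool.Agent.Lib_MP_53ae57.A2_SineBasic
import Pool.Agent.Lib_MP_53ae57.D1_Slow
import Pool.Agent.Lib_MP_53ae57.F1_TrapAux

/-!
[QR-F2] The trap: if `bigMap R h` has the limit `a` along a path to infinity then so has `h`.

Proof. Otherwise there is `0 < d` with `‖h (γ t) - a‖ ≥ d` for arbitrarily large `t`. Let
`ε = min 1 (d/(16(m+1)))` and `ρ₀` from `exists_large m ‖a‖ ε`. Choose `T` with
`‖bigMap R h (γ t) - a‖ ≤ ε/2` and `rho R (γ t) ≥ ρ₀` for `t ≥ T` (`norm_le_rho`), then `t₁ ≥ T` with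
`‖h p - a‖ ≥ d`, `p = γ t₁`, `ρ = rho R p`, and put
`ψ t = max (max_{i<m} |x_i - p_i| / 4) (‖x - p‖ / ρ^(1/3))`, `x = γ t`; `ψ t₁ = 0`.
(For the maximum over `i < m` the sup norm of `fun i : Fin m => x i.castSucc - p i.castSucc` is handy.)
Suppose `ψ ≤ 1` on `[t₁, t]`. For `s ∈ [t₁, t]`, `x = γ s`: `‖x - p‖ ≤ ρ^(1/3) < ρ/2`, so
`‖h x - h p‖ ≤ η/√ρ ρ^(1/3) ≤ ε/2`. Put `z = a - h p`, `e = (bigMap R h x - a) + (h p - h x)`, so
`‖e‖ ≤ ε`, `‖z‖ ≥ d` and `sine x = G • (z + e)`, `G = √(rho R x)`. As `ρ/2 ≤ rho R x ≤ 2ρ`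
(`abs_rho_sub_le`), `1/G ≤ ε`. By `gauge_close` and `fold_eq_div`:
`|fold x_i - c_i| ≤ (m+1) 4ε/d ≤ 1/4`, `c_i` not depending on `s`. (1)
Also `e^|x_last| = gauge (sine x) ≤ 1 + 2 G (‖z‖ + ‖e‖) ≤ 1 + 2 √(2ρ) (‖a‖ + ρ + 1) ≤ ρ²`
(`gauge_sine`, `gauge_le`, `hg`), so `|x_last| ≤ 2 log ρ`; in particular (`s = t₁`) `|p_last| ≤ 2 log ρ`. (2)
Claim `|x_i - p_i| < 4` at time `t`: otherwise `|x_i(t) - p_i| = 4`, say `x_i(t) = p_i + 4` (the other
case: the interval `[p_i - 4, p_i]`); by the intermediate value theorem `s ↦ (γ s)_i` takes on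
`[t₁, t]` all values of `[p_i, p_i + 4]`, so by `fold_reach` the fold takes the values `1` and `-1`,
which contradicts (1) (`2 ≤ 1/2`).
And `‖x - p‖ ≤ ∑_{i<m} |x_i - p_i| + |x_last| + |p_last| ≤ 4 m + 4 log ρ < ρ^(1/3)` at time `t`
(`norm_le_sum`). So `ψ t < 1`. By `stay` `ψ < 1` on `[t₁, ∞)`: `γ` is bounded there, contradiction.
-/

open Set Filter Topology

namespace QRAsym

variable {m : ℕ}

/-- The local estimates: close to `p` the folds are almost constant and the last coordinate is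
small. -/
theorem trap_local {R η : ℝ} (hR : 1 ≤ R) (h1 : η ≤ 1) {h : E (m + 1) → E (m + 1)}
    (hs : SlowMap R η h) (hg : ∀ x, ‖h x‖ ≤ rho R x) {a p x : E (m + 1)} {d ε : ℝ} (hd : 0 < d)
    (hε : 0 < ε) (hε1 : ε ≤ 1) (hεd : 16 * (m + 1) * ε ≤ d) (hp : d ≤ ‖h p - a‖)
    (hx : ‖x - p‖ ≤ rho R p ^ (1 / 3 : ℝ))
    (c1 : rho R p ^ (1 / 3 : ℝ) < rho R p / 2)
    (c2 : rho R p ^ (1 / 3 : ℝ) / Real.sqrt (rho R p) ≤ ε / 2)
    (c3 : 1 / ε ≤ Real.sqrt (rho R p / 2))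
    (c4 : 1 + 2 * (Real.sqrt (2 * rho R p) * (‖a‖ + rho R p + 1)) ≤ rho R p ^ 2)
    (hb : ‖bigMap R h x - a‖ ≤ ε / 2) :
    (∀ i : Fin m, |fold (x i.castSucc) -
      (a - h p) i.castSucc / (‖fun j : Fin m => (a - h p) j.castSucc‖ + |(a - h p) (Fin.last m)|)| ≤
        1 / 4) ∧
    |x (Fin.last m)| ≤ 2 * Real.log (rho R p) := by
  have hR0 : 0 ≤ R := by linarith
  have hρ1 : 1 ≤ rho R p := le_trans hR (le_rho hR0 p)
  have hρ0 : 0 < rho R p := by linarith
  have hsρ : 0 < Real.sqrt (rho R p) := Real.sqrt_pos.2 hρ0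
  have habs := abs_rho_sub_le R x p
  have hlt : ‖x - p‖ < rho R p / 2 := lt_of_le_of_lt hx c1
  have habs' := abs_le.1 habs
  have hρx1 : rho R p / 2 ≤ rho R x := by linarith
  have hρx2 : rho R x ≤ 2 * rho R p := by linarith
  have hG0 : 0 < Real.sqrt (rho R x) := Real.sqrt_pos.2 (by linarith)
  have hG1 : 1 / ε ≤ Real.sqrt (rho R x) := c3.trans (Real.sqrt_le_sqrt hρx1)
  have hG2 : Real.sqrt (rho R x) ≤ Real.sqrt (2 * rho R p) := Real.sqrt_le_sqrt hρx2
  have hGε : 1 / Real.sqrt (rho R x) ≤ ε := by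
    rw [div_le_iff₀ hG0]
    rw [div_le_iff₀ hε] at hG1
    linarith
  -- slow
  have hslow : ‖h x - h p‖ ≤ ε / 2 := by
    have h2 := hs p x (by rw [Metric.mem_ball, dist_eq_norm]; exact hlt) p
      (by rw [Metric.mem_ball, dist_self]; linarith)
    have h3 : η / Real.sqrt (rho R p) * ‖x - p‖ ≤
        1 / Real.sqrt (rho R p) * rho R p ^ (1 / 3 : ℝ) := by
      have h4 : η / Real.sqrt (rho R p) ≤ 1 / Real.sqrt (rho R p) :=
        div_le_div_of_nonneg_right h1 hsρ.le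
      have h5 : 0 ≤ 1 / Real.sqrt (rho R p) := by positivity
      exact mul_le_mul h4 hx (norm_nonneg _) h5
    have h6 : 1 / Real.sqrt (rho R p) * rho R p ^ (1 / 3 : ℝ) =
        rho R p ^ (1 / 3 : ℝ) / Real.sqrt (rho R p) := by ring
    linarith
  set G := Real.sqrt (rho R x) with hG
  set z : E (m + 1) := a - h p with hz
  set e : E (m + 1) := (bigMap R h x - a) + (h p - h x) with he
  have hez : ‖e‖ ≤ ε := by
    have h2 : ‖h p - h x‖ ≤ ε / 2 := by rw [norm_sub_rev]; exact hslow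
    have h3 := norm_add_le (bigMap R h x - a) (h p - h x)
    rw [he]; linarith
  have hdz : d ≤ ‖z‖ := by rw [hz, norm_sub_rev]; exact hp
  have hsine : sine x = G • (z + e) := by
    have h2 : z + e = G⁻¹ • sine x := by
      rw [hz, he]
      have : bigMap R h x = h x + G⁻¹ • sine x := rfl
      rw [this]; abel
    rw [h2, smul_smul, mul_inv_cancel₀ hG0.ne', one_smul]
  constructor
  · intro i
    have h2 := gauge_close hG0 hd hdz hez i
    rw [← hsine] at h2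
    rw [fold_eq_div x i]
    refine h2.trans ?_
    rw [div_le_iff₀ hd]
    have h3 : (0 : ℝ) ≤ (m : ℝ) + 1 := by positivity
    have h4 : ((m : ℝ) + 1) * (3 * ε + 1 / G) ≤ ((m : ℝ) + 1) * (4 * ε) :=
      mul_le_mul_of_nonneg_left (by linarith) h3
    nlinarith
  · have h2 : Real.exp |x (Fin.last m)| ≤ rho R p ^ 2 := by
      rw [← gauge_sine]
      refine (gauge_le _).trans ?_
      refine le_trans ?_ c4
      have h3 : ‖sine x‖ = G * ‖z + e‖ := by
        rw [hsine, norm_smul, Real.norm_eq_abs, abs_of_pos hG0]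
      have h4 : ‖z + e‖ ≤ ‖a‖ + rho R p + 1 := by
        have h5 := norm_add_le z e
        have h6 : ‖z‖ ≤ ‖a‖ + ‖h p‖ := norm_sub_le _ _
        have h7 := hg p
        linarith
      have h8 : G * ‖z + e‖ ≤ Real.sqrt (2 * rho R p) * (‖a‖ + rho R p + 1) :=
        mul_le_mul hG2 h4 (norm_nonneg _) (Real.sqrt_nonneg _)
      rw [h3]; linarith
    have h3 := Real.log_le_log (Real.exp_pos _) h2
    rw [Real.log_exp, Real.log_pow] at h3
    exact_mod_cast h3

/-- The folds cannot move by `4`. -/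
theorem trap_fold {f : ℝ → ℝ} (hf : Continuous f) {t₁ t c : ℝ} (ht : t₁ ≤ t)
    (hc : ∀ s ∈ Icc t₁ t, |fold (f s) - c| ≤ 1 / 4) : |f t - f t₁| < 4 := by
  by_contra hcon
  push Not at hcon
  have key : ∀ q : ℝ, Icc q (q + 4) ⊆ f '' Icc t₁ t → False := by
    intro q hq
    obtain ⟨⟨s1, hs1, e1⟩, ⟨s2, hs2, e2⟩⟩ := fold_reach q
    obtain ⟨r1, hr1, rfl⟩ := hq hs1
    obtain ⟨r2, hr2, rfl⟩ := hq hs2
    have a1 := abs_le.1 (hc r1 hr1)
    have a2 := abs_le.1 (hc r2 hr2)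
    rw [e1] at a1
    rw [e2] at a2
    linarith [a1.1, a1.2, a2.1, a2.2]
  rcases le_abs.1 hcon with h | h
  · refine key (f t₁) ((Icc_subset_Icc le_rfl (by linarith)).trans
      (intermediate_value_Icc ht hf.continuousOn))
  · refine key (f t) ((Icc_subset_Icc le_rfl (by linarith)).trans
      (intermediate_value_Icc' ht hf.continuousOn))

theorem trap {R η : ℝ} (hR : 1 ≤ R) (h0 : 0 ≤ η) (h1 : η ≤ 1) {h : E (m + 1) → E (m + 1)}
    (hs : SlowMap R η h) (hg : ∀ x, ‖h x‖ ≤ rho R x) {γ : ℝ → E (m + 1)} (hγ : Continuous γ)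
    (hinf : Tendsto (fun t => ‖γ t‖) atTop atTop) {a : E (m + 1)}
    (hlim : Tendsto (fun t => bigMap R h (γ t)) atTop (𝓝 a)) :
    Tendsto (fun t => h (γ t)) atTop (𝓝 a) := by
  have _ := h0
  rw [Metric.tendsto_atTop]
  by_contra hcon
  push Not at hcon
  obtain ⟨d, hd, hfreq⟩ := hcon
  have hm : (0 : ℝ) < 16 * ((m : ℝ) + 1) := by positivity
  set ε : ℝ := min 1 (d / (16 * ((m : ℝ) + 1))) with hεdef
  have hε : 0 < ε := lt_min one_pos (div_pos hd hm)
  have hε1 : ε ≤ 1 := min_le_left _ _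
  have hεd : 16 * (m + 1) * ε ≤ d := by
    have h2 : ε ≤ d / (16 * ((m : ℝ) + 1)) := min_le_right _ _
    rw [le_div_iff₀ hm] at h2
    linarith
  obtain ⟨ρ₀, hρ₀, hlarge⟩ := exists_large m ‖a‖ ε hε
  obtain ⟨T1, hT1⟩ := (Metric.tendsto_atTop.1 hlim) (ε / 2) (by positivity)
  obtain ⟨T2, hT2⟩ := eventually_atTop.1 (hinf.eventually_ge_atTop ρ₀)
  obtain ⟨t₁, ht₁, hdt⟩ := hfreq (max T1 T2)
  have ht1 : T1 ≤ t₁ := (le_max_left _ _).trans ht₁
  have ht2 : T2 ≤ t₁ := (le_max_right _ _).trans ht₁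
  set p := γ t₁ with hp
  have hρ : ρ₀ ≤ rho R p := (hT2 t₁ ht2).trans (norm_le_rho R p)
  obtain ⟨c1, c2, c3, c4, c5⟩ := hlarge (rho R p) hρ
  have hρ0 : 0 < rho R p := by linarith
  have hq : 0 < rho R p ^ (1 / 3 : ℝ) := Real.rpow_pos_of_pos hρ0 _
  have hdp : d ≤ ‖h p - a‖ := by rw [← dist_eq_norm]; exact hdt
  set q := rho R p ^ (1 / 3 : ℝ) with hqdef
  have hcoord : ∀ i : Fin (m + 1), Continuous fun t => γ t i := fun i =>
    (EuclideanSpace.proj (𝕜 := ℝ) i).continuous.comp hγ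
  set ψ : ℝ → ℝ := fun t => max (‖fun i : Fin m => γ t i.castSucc - p i.castSucc‖ / 4)
    (‖γ t - p‖ / q) with hψdef
  have hψ : Continuous ψ := by
    refine Continuous.max ?_ ?_
    · refine Continuous.div_const (Continuous.norm (continuous_pi fun i => ?_)) _
      exact (hcoord _).sub continuous_const
    · exact ((hγ.sub continuous_const).norm).div_const _
  have hψ1 : ψ t₁ < 1 := by
    have h2 : (fun i : Fin m => γ t₁ i.castSucc - p i.castSucc) = 0 := by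
      funext i; simp [hp]
    have h3 : ψ t₁ = 0 := by
      rw [hψdef]
      simp only
      rw [h2, ← hp, sub_self]
      simp
    rw [h3]; exact one_pos
  have hstep : ∀ t, t₁ ≤ t → (∀ s ∈ Icc t₁ t, ψ s ≤ 1) → ψ t < 1 := by
    intro t ht hle
    have hloc : ∀ s ∈ Icc t₁ t, (∀ i : Fin m, |fold (γ s i.castSucc) -
        (a - h p) i.castSucc /
          (‖fun j : Fin m => (a - h p) j.castSucc‖ + |(a - h p) (Fin.last m)|)| ≤ 1 / 4) ∧
        |γ s (Fin.last m)| ≤ 2 * Real.log (rho R p) := by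
      intro s hs'
      refine trap_local hR h1 hs hg hd hε hε1 hεd hdp ?_ c1 c2 c3 c4 ?_
      · have h2 := (le_max_right _ _).trans (hle s hs')
        rw [div_le_one hq] at h2
        exact h2
      · have h2 := hT1 s (ht1.trans hs'.1)
        rw [dist_eq_norm] at h2
        exact h2.le
    have hfold : ∀ i : Fin m, |γ t i.castSucc - p i.castSucc| < 4 := by
      intro i
      exact trap_fold (hcoord i.castSucc) ht (fun s hs' => (hloc s hs').1 i)
    have hlast1 := (hloc t ⟨ht, le_rfl⟩).2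
    have hlast2 := (hloc t₁ ⟨le_rfl, ht⟩).2
    rw [← hp] at hlast2
    refine max_lt ?_ ?_
    · rw [div_lt_one (by norm_num)]
      exact (pi_norm_lt_iff (by norm_num)).2 (fun i => by
        rw [Real.norm_eq_abs]; exact hfold i)
    · rw [div_lt_one hq]
      have h2 := norm_le_sum (γ t - p)
      have h3 : ∑ i : Fin m, |(γ t - p) i.castSucc| ≤ 4 * m := by
        have : ∀ i ∈ (Finset.univ : Finset (Fin m)), |(γ t - p) i.castSucc| ≤ 4 := fun i _ =>
          (hfold i).le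
        have h4 := Finset.sum_le_card_nsmul _ _ _ this
        rw [Finset.card_univ, Fintype.card_fin, nsmul_eq_mul] at h4
        linarith
      have h5 : |(γ t - p) (Fin.last m)| ≤ 4 * Real.log (rho R p) := by
        have h6 : (γ t - p) (Fin.last m) = γ t (Fin.last m) - p (Fin.last m) := rfl
        rw [h6]
        have h7 := abs_sub (γ t (Fin.last m)) (p (Fin.last m))
        linarith
      linarith
  have hall := stay hψ hψ1 hstep
  -- contradiction
  obtain ⟨T3, hT3⟩ := eventually_atTop.1 (hinf.eventually_ge_atTop (‖p‖ + q + 1))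
  have h2 := hT3 (max T3 t₁) (le_max_left _ _)
  have h3 := hall (max T3 t₁) (le_max_right _ _)
  have h4 := (le_max_right _ _).trans_lt h3
  rw [div_lt_one hq] at h4
  have h5 : ‖γ (max T3 t₁)‖ ≤ ‖γ (max T3 t₁) - p‖ + ‖p‖ := by
    have := norm_add_le (γ (max T3 t₁) - p) p
    rwa [sub_add_cancel] at this
  linarith

end QRAsym
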