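import Pool.Agent.Lib_MP_53ae57.Defs

/-!
[QR-G1] `clamp` and `strip`.

`strip_mix`: `⌊l⌋₊ = k`. `strip_low`: for `l < k + 1/2 + ..` the clamp vanishes.
`strip_lip`: for `0 ≤ l ≤ N` one has
`strip A l u = A 0 u + ∑_{k < N} clamp (2 (l - k) - 1) • (A (k+1) u - A k u)`: the terms with
`k < ⌊l⌋₊` have clamp `1` (telescoping sum `A ⌊l⌋₊ u`), those with `k > ⌊l⌋₊` have clamp `0`
(and for `l = N` the term `k = ⌊l⌋₊ = N` of the definition is `0`). Each summand is a product of a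
`2`-Lipschitz function of `l` with values in `[0,1]` and a bounded Lipschitz function of `u`.
-/

open Set

namespace QRAsym

theorem clamp_nonneg (r : ℝ) : 0 ≤ clamp r := le_max_left _ _

theorem clamp_le_one (r : ℝ) : clamp r ≤ 1 := max_le zero_le_one (min_le_left _ _)

theorem clamp_lip (r s : ℝ) : |clamp r - clamp s| ≤ |r - s| := by
  have key : ∀ r s : ℝ, r ≤ s → |clamp r - clamp s| ≤ |r - s| := by
    intro r s h
    have h1 : clamp r ≤ clamp s := max_le_max le_rfl (min_le_min le_rfl h)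
    rw [abs_sub_comm, abs_sub_comm r s, abs_of_nonneg (sub_nonneg.2 h1), abs_of_nonneg (sub_nonneg.2 h)]
    unfold clamp
    rcases le_total 1 r with a | a <;> rcases le_total 1 s with b | b <;> rcases le_total 0 r with c | c <;>
      rcases le_total 0 s with d | d <;> simp [a, b, c, d] <;> linarith
  rcases le_total r s with h | h
  · exact key r s h
  · rw [abs_sub_comm, abs_sub_comm r s]
    exact key s r h

theorem clamp_of_nonpos {r : ℝ} (h : r ≤ 0) : clamp r = 0 := max_eq_left ((min_le_right _ _).trans h)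

theorem clamp_of_one_le {r : ℝ} (h : 1 ≤ r) : clamp r = 1 := by
  unfold clamp
  rw [min_eq_left h]
  exact max_eq_right zero_le_one

section
variable {V : Type*} [NormedAddCommGroup V] [NormedSpace ℝ V]

theorem strip_mix (A : ℕ → ℝ → V) {k : ℕ} {l : ℝ} (u : ℝ) (h : k ≤ l) (h' : l < k + 1) :
    strip A l u = A k u + clamp (2 * (l - k) - 1) • (A (k + 1) u - A k u) := by
  have hk : ⌊l⌋₊ = k := (Nat.floor_eq_iff ((Nat.cast_nonneg k).trans h)).2 ⟨h, h'⟩
  unfold strip
  rw [hk]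

theorem strip_low (A : ℕ → ℝ → V) {k : ℕ} {l : ℝ} (u : ℝ) (h : k ≤ l) (h' : l ≤ k + 1 / 2) :
    strip A l u = A k u := by
  rw [strip_mix A u h (by linarith), clamp_of_nonpos (by linarith), zero_smul, add_zero]

private theorem eq_aux (c c' : ℝ) (x y : V) : c • x - c' • y = (c - c') • x + c' • (x - y) := by
  rw [sub_smul, smul_sub]
  abel

private theorem strip_sum_le (A : ℕ → ℝ → V) {l : ℝ} (u : ℝ) (n : ℕ) (hn : (n : ℝ) ≤ l) :
    A 0 u + ∑ k ∈ Finset.range n, clamp (2 * (l - k) - 1) • (A (k + 1) u - A k u) = A n u := by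
  induction n with
  | zero => simp
  | succ n ih =>
    rw [Nat.cast_add, Nat.cast_one] at hn
    rw [Finset.sum_range_succ, ← add_assoc, ih (by linarith), clamp_of_one_le (by linarith), one_smul]
    abel

private theorem strip_sum (A : ℕ → ℝ → V) {l : ℝ} (u : ℝ) (hl : 0 ≤ l) (n : ℕ) (hn : ⌊l⌋₊ + 1 ≤ n) :
    A 0 u + ∑ k ∈ Finset.range n, clamp (2 * (l - k) - 1) • (A (k + 1) u - A k u) = strip A l u := by
  induction n, hn using Nat.le_induction with
  | base =>
    rw [Finset.sum_range_succ, ← add_assoc, strip_sum_le A u _ (Nat.floor_le hl)]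
    rfl
  | succ n hn ih =>
    have h1 : l < n := lt_of_lt_of_le (Nat.lt_floor_add_one l) (by exact_mod_cast hn)
    rw [Finset.sum_range_succ, ← add_assoc, ih, clamp_of_nonpos (by linarith), zero_smul, add_zero]

/-- Bounded and Lipschitz on `[0, N] × [-2, 2]` for every `N`. -/
def LipBd (Φ : ℝ → ℝ → V) : Prop :=
  ∀ N : ℕ, ∃ B : ℝ, 0 ≤ B ∧ ∀ l ∈ Icc (0 : ℝ) N, ∀ l' ∈ Icc (0 : ℝ) N,
    ∀ u ∈ Icc (-2 : ℝ) 2, ∀ u' ∈ Icc (-2 : ℝ) 2,
      ‖Φ l u‖ ≤ B ∧ ‖Φ l u - Φ l' u'‖ ≤ B * (|l - l'| + |u - u'|)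

theorem strip_lipBd {A : ℕ → ℝ → V}
    (hA : ∀ k, ∃ B : ℝ, 0 ≤ B ∧ ∀ u ∈ Icc (-2 : ℝ) 2, ∀ u' ∈ Icc (-2 : ℝ) 2,
      ‖A k u‖ ≤ B ∧ ‖A k u - A k u'‖ ≤ B * |u - u'|) : LipBd (strip A) := by
  intro N
  choose B hB0 hB using hA
  set S : ℝ := B 0 + ∑ k ∈ Finset.range (N + 1), (B (k + 1) + B k) with hS
  have hS0 : 0 ≤ S := add_nonneg (hB0 0) (Finset.sum_nonneg fun k _ => add_nonneg (hB0 _) (hB0 _))
  have hrep : ∀ l ∈ Icc (0 : ℝ) N, ∀ u, strip A l u =
      A 0 u + ∑ k ∈ Finset.range (N + 1), clamp (2 * (l - k) - 1) • (A (k + 1) u - A k u) := by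
    intro l hl u
    refine (strip_sum A u hl.1 (N + 1) ?_).symm
    exact Nat.add_le_add_right (Nat.floor_le_of_le hl.2) 1
  have hd : ∀ k, ∀ u ∈ Icc (-2 : ℝ) 2, ∀ u' ∈ Icc (-2 : ℝ) 2, ‖A (k + 1) u - A k u‖ ≤ B (k + 1) + B k ∧
      ‖(A (k + 1) u - A k u) - (A (k + 1) u' - A k u')‖ ≤ (B (k + 1) + B k) * |u - u'| := by
    intro k u hu u' hu'
    constructor
    · exact (norm_sub_le _ _).trans (add_le_add (hB _ u hu u' hu').1 (hB _ u hu u' hu').1)
    · have e : (A (k + 1) u - A k u) - (A (k + 1) u' - A k u') =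
          (A (k + 1) u - A (k + 1) u') - (A k u - A k u') := by abel
      rw [e, add_mul]
      exact (norm_sub_le _ _).trans (add_le_add (hB _ u hu u' hu').2 (hB _ u hu u' hu').2)
  refine ⟨2 * S, by linarith, ?_⟩
  intro l hl l' hl' u hu u' hu'
  constructor
  · rw [hrep l hl u]
    have h1 : ‖∑ k ∈ Finset.range (N + 1), clamp (2 * (l - k) - 1) • (A (k + 1) u - A k u)‖ ≤
        ∑ k ∈ Finset.range (N + 1), (B (k + 1) + B k) := by
      refine norm_sum_le_of_le _ ?_
      intro k _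
      rw [norm_smul, Real.norm_eq_abs, abs_of_nonneg (clamp_nonneg _)]
      have h2 := (hd k u hu u' hu').1
      calc clamp (2 * (l - k) - 1) * ‖A (k + 1) u - A k u‖ ≤ 1 * ‖A (k + 1) u - A k u‖ :=
            mul_le_mul_of_nonneg_right (clamp_le_one _) (norm_nonneg _)
        _ ≤ B (k + 1) + B k := by rw [one_mul]; exact h2
    have h3 := (norm_add_le _ _).trans (add_le_add (hB 0 u hu u' hu').1 h1)
    linarith
  · rw [hrep l hl u, hrep l' hl' u']
    have e : A 0 u + ∑ k ∈ Finset.range (N + 1), clamp (2 * (l - k) - 1) • (A (k + 1) u - A k u) -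
        (A 0 u' + ∑ k ∈ Finset.range (N + 1), clamp (2 * (l' - k) - 1) • (A (k + 1) u' - A k u')) =
        (A 0 u - A 0 u') + ∑ k ∈ Finset.range (N + 1), (clamp (2 * (l - k) - 1) • (A (k + 1) u - A k u) -
          clamp (2 * (l' - k) - 1) • (A (k + 1) u' - A k u')) := by
      rw [Finset.sum_sub_distrib]
      abel
    rw [e]
    have h1 : ‖∑ k ∈ Finset.range (N + 1), (clamp (2 * (l - k) - 1) • (A (k + 1) u - A k u) -
          clamp (2 * (l' - k) - 1) • (A (k + 1) u' - A k u'))‖ ≤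
        ∑ k ∈ Finset.range (N + 1), (B (k + 1) + B k) * (2 * |l - l'| + |u - u'|) := by
      refine norm_sum_le_of_le _ ?_
      intro k _
      have e2 : clamp (2 * (l - k) - 1) • (A (k + 1) u - A k u) -
          clamp (2 * (l' - k) - 1) • (A (k + 1) u' - A k u') =
          (clamp (2 * (l - k) - 1) - clamp (2 * (l' - k) - 1)) • (A (k + 1) u - A k u) +
          clamp (2 * (l' - k) - 1) • ((A (k + 1) u - A k u) - (A (k + 1) u' - A k u')) := by
        exact eq_aux _ _ _ _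
      rw [e2]
      have h2 := (hd k u hu u' hu').1
      have h3 := (hd k u hu u' hu').2
      have h4 : |clamp (2 * (l - k) - 1) - clamp (2 * (l' - k) - 1)| ≤ 2 * |l - l'| := by
        refine (clamp_lip _ _).trans (le_of_eq ?_)
        have : 2 * (l - k) - 1 - (2 * (l' - k) - 1) = 2 * (l - l') := by ring
        rw [this, abs_mul, abs_of_nonneg (by norm_num : (0 : ℝ) ≤ 2)]
      have h0 : 0 ≤ B (k + 1) + B k := add_nonneg (hB0 _) (hB0 _)
      refine (norm_add_le _ _).trans ?_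
      rw [norm_smul, norm_smul, Real.norm_eq_abs, Real.norm_eq_abs, abs_of_nonneg (clamp_nonneg _)]
      have h5 : |clamp (2 * (l - k) - 1) - clamp (2 * (l' - k) - 1)| * ‖A (k + 1) u - A k u‖ ≤
          2 * |l - l'| * (B (k + 1) + B k) := mul_le_mul h4 h2 (norm_nonneg _) (by positivity)
      have h6 : clamp (2 * (l' - k) - 1) * ‖(A (k + 1) u - A k u) - (A (k + 1) u' - A k u')‖ ≤
          1 * ((B (k + 1) + B k) * |u - u'|) :=
        mul_le_mul (clamp_le_one _) h3 (norm_nonneg _) zero_le_one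
      linarith
    rw [← Finset.sum_mul] at h1
    have h2 := (norm_add_le _ _).trans (add_le_add (hB 0 u hu u' hu').2 h1)
    refine h2.trans ?_
    have h3 : 0 ≤ ∑ k ∈ Finset.range (N + 1), (B (k + 1) + B k) :=
      Finset.sum_nonneg fun k _ => add_nonneg (hB0 _) (hB0 _)
    have h4 := hB0 0
    have h5 := abs_nonneg (l - l')
    have h6 := abs_nonneg (u - u')
    rw [hS]
    nlinarith [mul_nonneg h4 h5, mul_nonneg h4 h6, mul_nonneg h3 h5, mul_nonneg h3 h6]

end

end QRAsym
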