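import Pool.Agent.Lib_MP_53ae57.G1_Strip

/-!
[QR-G2] `Psi` is bounded and Lipschitz on `[0, N] × [-2, 2]` for every `N`.

Proof. `LipBd.add`, `LipBd.smul`: sums and products of bounded Lipschitz functions. `dir i j l` has
norm at most `2` and is Lipschitz in `l` with constant `8π` (`cos`, `sin` are 1-Lipschitz).
`dJ b k` is nonnegative, 1-Lipschitz and bounded on `[-2, 2]`; `cen c k` is a finite sum of
`clamp(..) • vector`, `wall c k` a constant times a finite product of functions with values in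
`[0,1]` which are Lipschitz with constant `4·3^k` (induction over the finite set, or
`Finset.abs_prod_sub_prod_le`-type estimate). Then `strip_lipBd`.
-/

open Set

namespace QRAsym

section
variable {V : Type*} [NormedAddCommGroup V] [NormedSpace ℝ V]

theorem LipBd.add {Φ Φ' : ℝ → ℝ → V} (h : LipBd Φ) (h' : LipBd Φ') :
    LipBd (fun l u => Φ l u + Φ' l u) := by
  intro N
  obtain ⟨B, hB, h1⟩ := h N
  obtain ⟨B', hB', h2⟩ := h' N
  refine ⟨B + B', add_nonneg hB hB', fun l hl l' hl' u hu u' hu' => ?_⟩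
  obtain ⟨a1, a2⟩ := h1 l hl l' hl' u hu u' hu'
  obtain ⟨b1, b2⟩ := h2 l hl l' hl' u hu u' hu'
  constructor
  · exact (norm_add_le _ _).trans (add_le_add a1 b1)
  · calc ‖Φ l u + Φ' l u - (Φ l' u' + Φ' l' u')‖
        = ‖(Φ l u - Φ l' u') + (Φ' l u - Φ' l' u')‖ := by rw [add_sub_add_comm]
      _ ≤ B * (|l - l'| + |u - u'|) + B' * (|l - l'| + |u - u'|) :=
          (norm_add_le _ _).trans (add_le_add a2 b2)
      _ = (B + B') * (|l - l'| + |u - u'|) := by ring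

theorem LipBd.smul {g : ℝ → ℝ → ℝ} {Φ : ℝ → ℝ → V} (h : LipBd g) (h' : LipBd Φ) :
    LipBd (fun l u => g l u • Φ l u) := by
  intro N
  obtain ⟨B, hB, h1⟩ := h N
  obtain ⟨B', hB', h2⟩ := h' N
  refine ⟨2 * (B * B'), by positivity, fun l hl l' hl' u hu u' hu' => ?_⟩
  obtain ⟨a1, a2⟩ := h1 l hl l' hl' u hu u' hu'
  obtain ⟨b1, b2⟩ := h2 l hl l' hl' u hu u' hu'
  obtain ⟨b3, -⟩ := h2 l' hl' l hl u' hu' u hu
  have hBB : 0 ≤ B * B' := mul_nonneg hB hB'
  constructor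
  · rw [norm_smul]
    have h3 : ‖g l u‖ * ‖Φ l u‖ ≤ B * B' := mul_le_mul a1 b1 (norm_nonneg _) hB
    linarith
  · have h3 : g l u • Φ l u - g l' u' • Φ l' u' =
        g l u • (Φ l u - Φ l' u') + (g l u - g l' u') • Φ l' u' := by
      rw [smul_sub, sub_smul]
      abel
    have hd : 0 ≤ |l - l'| + |u - u'| := by positivity
    have h4 : ‖g l u‖ * ‖Φ l u - Φ l' u'‖ ≤ B * (B' * (|l - l'| + |u - u'|)) :=
      mul_le_mul a1 b2 (norm_nonneg _) hB
    have h5 : ‖g l u - g l' u'‖ * ‖Φ l' u'‖ ≤ (B * (|l - l'| + |u - u'|)) * B' :=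
      mul_le_mul a2 b3 (norm_nonneg _) (mul_nonneg hB hd)
    rw [h3]
    refine (norm_add_le _ _).trans ?_
    rw [norm_smul, norm_smul]
    linarith

end

variable {n : ℕ}

theorem abs_dJ_sub_le (b : ℕ → Bool) (k : ℕ) (u u' : ℝ) : |dJ b k u - dJ b k u'| ≤ |u - u'| := by
  unfold dJ
  refine (abs_max_sub_max_le_max _ _ _ _).trans (max_le ?_ ?_)
  · rw [sub_self, abs_zero]
    exact abs_nonneg _
  · refine (abs_max_sub_max_le_max _ _ _ _).trans (max_le ?_ ?_)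
    · rw [show cl b k - u - (cl b k - u') = -(u - u') by ring, abs_neg]
    · rw [show u - cl b k - 1 / 3 ^ k - (u' - cl b k - 1 / 3 ^ k) = u - u' by ring]

private theorem G2_const {V : Type*} [NormedAddCommGroup V] [NormedSpace ℝ V] (v : V) :
    LipBd (fun _ _ => v) := by
  intro N
  refine ⟨‖v‖, norm_nonneg _, fun l _ l' _ u _ u' _ => ⟨le_rfl, ?_⟩⟩
  rw [sub_self, norm_zero]
  positivity

private theorem G2_trig (f : ℝ → ℝ) (h1 : ∀ x, |f x| ≤ 1) (h2 : ∀ x y, |f x - f y| ≤ |x - y|) :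
    LipBd (fun l _ => f (4 * Real.pi * l)) := by
  intro N
  have hpi := Real.pi_pos
  refine ⟨1 + 4 * Real.pi, by positivity, fun l _ l' _ u _ u' _ => ⟨?_, ?_⟩⟩
  · have h3 := h1 (4 * Real.pi * l)
    rw [Real.norm_eq_abs]
    linarith
  · rw [Real.norm_eq_abs]
    refine (h2 _ _).trans ?_
    rw [← mul_sub, abs_mul, abs_of_pos (by positivity : 0 < 4 * Real.pi)]
    have h4 : 0 ≤ |l - l'| := abs_nonneg _
    have h5 : 0 ≤ |u - u'| := abs_nonneg _
    nlinarith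

theorem dir_lipBd (i j : Fin n) : LipBd (fun l _ => dir i j l) := by
  have hc : ∀ x y : ℝ, |Real.cos x - Real.cos y| ≤ |x - y| := by
    intro x y
    have h := Real.lipschitzWith_cos.dist_le_mul x y
    rwa [Real.dist_eq, Real.dist_eq, NNReal.coe_one, one_mul] at h
  have hs : ∀ x y : ℝ, |Real.sin x - Real.sin y| ≤ |x - y| := by
    intro x y
    have h := Real.lipschitzWith_sin.dist_le_mul x y
    rwa [Real.dist_eq, Real.dist_eq, NNReal.coe_one, one_mul] at h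
  exact ((G2_trig Real.cos Real.abs_cos_le_one hc).smul
    (G2_const (EuclideanSpace.single i (1 : ℝ)))).add
    ((G2_trig Real.sin Real.abs_sin_le_one hs).smul (G2_const (EuclideanSpace.single j (1 : ℝ))))

/-- differences of products -/
private theorem G2_prod {ι : Type*} (s : Finset ι) (f g : ι → ℝ) (hf : ∀ i ∈ s, 0 ≤ f i ∧ f i ≤ 1)
    (hg : ∀ i ∈ s, 0 ≤ g i ∧ g i ≤ 1) :
    |∏ i ∈ s, f i - ∏ i ∈ s, g i| ≤ ∑ i ∈ s, |f i - g i| := by
  classical
  induction s using Finset.induction_on with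
  | empty => simp
  | insert a s ha ih =>
    have ih' := ih (fun i hi => hf i (Finset.mem_insert_of_mem hi))
      (fun i hi => hg i (Finset.mem_insert_of_mem hi))
    rw [Finset.prod_insert ha, Finset.prod_insert ha, Finset.sum_insert ha]
    obtain ⟨a0, a1⟩ := hf a (Finset.mem_insert_self a s)
    have g0 : 0 ≤ ∏ i ∈ s, g i := Finset.prod_nonneg fun i hi => (hg i (Finset.mem_insert_of_mem hi)).1
    have g1 : ∏ i ∈ s, g i ≤ 1 := Finset.prod_le_one
      (fun i hi => (hg i (Finset.mem_insert_of_mem hi)).1)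
      (fun i hi => (hg i (Finset.mem_insert_of_mem hi)).2)
    have e : f a * ∏ i ∈ s, f i - g a * ∏ i ∈ s, g i =
        f a * (∏ i ∈ s, f i - ∏ i ∈ s, g i) + (f a - g a) * ∏ i ∈ s, g i := by ring
    rw [e]
    refine (abs_add_le _ _).trans ?_
    rw [abs_mul, abs_mul, abs_of_nonneg a0, abs_of_nonneg g0]
    have e1 : f a * |∏ i ∈ s, f i - ∏ i ∈ s, g i| ≤ 1 * |∏ i ∈ s, f i - ∏ i ∈ s, g i| :=
      mul_le_mul_of_nonneg_right a1 (abs_nonneg _)
    have e2 : |f a - g a| * ∏ i ∈ s, g i ≤ |f a - g a| * 1 :=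
      mul_le_mul_of_nonneg_left g1 (abs_nonneg _)
    linarith

theorem cen_lip (c : ℕ → (ℕ → Bool) → E n) (k : ℕ) : ∃ B : ℝ, 0 ≤ B ∧
    ∀ u ∈ Icc (-2 : ℝ) 2, ∀ u' ∈ Icc (-2 : ℝ) 2,
      ‖cen c k u‖ ≤ B ∧ ‖cen c k u - cen c k u'‖ ≤ B * |u - u'| := by
  have hL : (0 : ℝ) ≤ 4 * 3 ^ k := by positivity
  refine ⟨∑ v : Fin k → Bool, (1 + 4 * 3 ^ k) * ‖c k (ext v)‖, Finset.sum_nonneg fun v _ => by positivity,
    fun u _ u' _ => ⟨?_, ?_⟩⟩
  · unfold cen
    refine (norm_sum_le _ _).trans (Finset.sum_le_sum fun v _ => ?_)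
    rw [norm_smul, Real.norm_eq_abs, abs_of_nonneg (clamp_nonneg _)]
    have h1 := clamp_le_one (2 - 4 * 3 ^ k * dJ (ext v) k u)
    refine mul_le_mul_of_nonneg_right ?_ (norm_nonneg _)
    linarith
  · unfold cen
    rw [← Finset.sum_sub_distrib, Finset.sum_mul]
    refine (norm_sum_le _ _).trans (Finset.sum_le_sum fun v _ => ?_)
    rw [← sub_smul, norm_smul, Real.norm_eq_abs]
    have h1 := clamp_lip (2 - 4 * 3 ^ k * dJ (ext v) k u) (2 - 4 * 3 ^ k * dJ (ext v) k u')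
    have h2 : |2 - 4 * 3 ^ k * dJ (ext v) k u - (2 - 4 * 3 ^ k * dJ (ext v) k u')| ≤
        4 * 3 ^ k * |u - u'| := by
      rw [show 2 - 4 * 3 ^ k * dJ (ext v) k u - (2 - 4 * 3 ^ k * dJ (ext v) k u') =
        -(4 * 3 ^ k * (dJ (ext v) k u - dJ (ext v) k u')) by ring, abs_neg, abs_mul, abs_of_nonneg hL]
      exact mul_le_mul_of_nonneg_left (abs_dJ_sub_le _ _ _ _) hL
    have h3 : |clamp (2 - 4 * 3 ^ k * dJ (ext v) k u) - clamp (2 - 4 * 3 ^ k * dJ (ext v) k u')| ≤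
        (1 + 4 * 3 ^ k) * |u - u'| := by
      have h4 := abs_nonneg (u - u')
      linarith
    calc _ ≤ ((1 + 4 * 3 ^ k) * |u - u'|) * ‖c k (ext v)‖ :=
          mul_le_mul_of_nonneg_right h3 (norm_nonneg _)
      _ = (1 + 4 * 3 ^ k) * ‖c k (ext v)‖ * |u - u'| := by ring

theorem wall_lip (c : ℕ → (ℕ → Bool) → E n) (k : ℕ) : ∃ B : ℝ, 0 ≤ B ∧
    ∀ u ∈ Icc (-2 : ℝ) 2, ∀ u' ∈ Icc (-2 : ℝ) 2,
      ‖wall c k u‖ ≤ B ∧ ‖wall c k u - wall c k u'‖ ≤ B * |u - u'| := by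
  have hL : (0 : ℝ) ≤ 4 * 3 ^ k := by positivity
  have hg : ∀ (u : ℝ) (v : Fin k → Bool), 0 ≤ min 1 (4 * 3 ^ k * dJ (ext v) k u) ∧
      min 1 (4 * 3 ^ k * dJ (ext v) k u) ≤ 1 := by
    intro u v
    refine ⟨le_min zero_le_one (mul_nonneg hL (le_max_left _ _)), min_le_left _ _⟩
  have hl : ∀ (u u' : ℝ) (v : Fin k → Bool), |min 1 (4 * 3 ^ k * dJ (ext v) k u) -
      min 1 (4 * 3 ^ k * dJ (ext v) k u')| ≤ 4 * 3 ^ k * |u - u'| := by
    intro u u' v
    refine (abs_min_sub_min_le_max _ _ _ _).trans (max_le ?_ ?_)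
    · rw [sub_self, abs_zero]
      exact mul_nonneg hL (abs_nonneg _)
    · rw [← mul_sub, abs_mul, abs_of_nonneg hL]
      exact mul_le_mul_of_nonneg_left (abs_dJ_sub_le _ _ _ _) hL
  refine ⟨|hgt c k| * (1 + ∑ v : Fin k → Bool, 4 * 3 ^ k), by positivity, fun u _ u' _ => ⟨?_, ?_⟩⟩
  · unfold wall
    rw [norm_mul, Real.norm_eq_abs, Real.norm_eq_abs]
    refine mul_le_mul_of_nonneg_left ?_ (abs_nonneg _)
    rw [abs_of_nonneg (Finset.prod_nonneg fun v _ => (hg u v).1)]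
    have h1 : ∏ v : Fin k → Bool, min 1 (4 * 3 ^ k * dJ (ext v) k u) ≤ 1 :=
      Finset.prod_le_one (fun v _ => (hg u v).1) (fun v _ => (hg u v).2)
    have h2 : (0 : ℝ) ≤ ∑ v : Fin k → Bool, 4 * 3 ^ k := Finset.sum_nonneg fun _ _ => hL
    linarith
  · unfold wall
    rw [← mul_sub, norm_mul, Real.norm_eq_abs, Real.norm_eq_abs, mul_assoc]
    refine mul_le_mul_of_nonneg_left ?_ (abs_nonneg _)
    refine (G2_prod Finset.univ _ _ (fun v _ => hg u v) (fun v _ => hg u' v)).trans ?_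
    have h1 : ∑ v : Fin k → Bool, |min 1 (4 * 3 ^ k * dJ (ext v) k u) -
        min 1 (4 * 3 ^ k * dJ (ext v) k u')| ≤ ∑ v : Fin k → Bool, 4 * 3 ^ k * |u - u'| :=
      Finset.sum_le_sum fun v _ => hl u u' v
    refine h1.trans ?_
    rw [← Finset.sum_mul]
    have h3 := abs_nonneg (u - u')
    linarith

theorem Psi_lipBd (c : ℕ → (ℕ → Bool) → E n) (i j : Fin n) : LipBd (Psi c i j) :=
  (strip_lipBd (cen_lip c)).add ((strip_lipBd (wall_lip c)).smul (dir_lipBd i j))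

end QRAsym
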