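import Pool.Agent.Lib_MP_53ae57.G1_Strip

/-!
[QR-H1] Cantor intervals.

`cl_congr`, `dJ_congr`: induction on `k`. `dJ_succ_le`: the interval of level `k+1` is contained in
that of level `k`: `cl b k ≤ cl b (k+1)` and `cl b (k+1) + 3^-(k+1) ≤ cl b k + 3^-k`.
`cl_sep`: if `b` and `b'` differ at some `i < k` then `|cl b k - cl b' k| ≥ 2·3^-k`. Induction: if they
differ below `k` then `|cl b (k+1) - cl b' (k+1)| ≥ 2·3^-k - 2·3^-(k+1) = 4·3^-(k+1)`; otherwise
`cl b k = cl b' k` and the digits at `k` differ: the difference is `2·3^-(k+1)`.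
`dJ_sep`: the intervals have distance `≥ 3^-k`, so `dJ b k u + dJ b' k u ≥ 3^-k`.
`cantorPt`: the series converges (geometric); `cl b k` is the partial sum over `i < k`, and the rest
lies between `0` and `∑_{i ≥ k} 2·3^-(i+1) = 3^-k`.
-/

open Set

namespace QRAsym

theorem dJ_nonneg (b : ℕ → Bool) (k : ℕ) (u : ℝ) : 0 ≤ dJ b k u := le_max_left _ _

theorem cl_congr {b b' : ℕ → Bool} {k : ℕ} (h : ∀ i < k, b i = b' i) : cl b k = cl b' k := by
  induction k with
  | zero => rfl
  | succ k ih =>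
    have h1 := ih (fun i hi => h i (by omega))
    have h2 := h k (by omega)
    simp only [cl, h1, h2]

theorem dJ_congr {b b' : ℕ → Bool} {k : ℕ} (h : ∀ i < k, b i = b' i) (u : ℝ) :
    dJ b k u = dJ b' k u := by
  unfold dJ
  rw [cl_congr h]

theorem cl_succ_ge (b : ℕ → Bool) (k : ℕ) : cl b k ≤ cl b (k + 1) := by
  simp only [cl]
  have h3 : (0 : ℝ) < 3 ^ (k + 1) := by positivity
  split_ifs
  · have : (0 : ℝ) ≤ 2 / 3 ^ (k + 1) := by positivity
    linarith
  · simp

theorem cl_succ_le (b : ℕ → Bool) (k : ℕ) :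
    cl b (k + 1) + 1 / 3 ^ (k + 1) ≤ cl b k + 1 / 3 ^ k := by
  simp only [cl]
  have e : (1 : ℝ) / 3 ^ k = 3 * (1 / 3 ^ (k + 1)) := by
    rw [pow_succ]; field_simp
  have h3 : (0 : ℝ) < 1 / 3 ^ (k + 1) := by positivity
  have e2 : (2 : ℝ) / 3 ^ (k + 1) = 2 * (1 / 3 ^ (k + 1)) := by ring
  split_ifs
  · rw [e, e2]; linarith
  · rw [e, zero_div]; linarith

theorem dJ_succ (b : ℕ → Bool) (k : ℕ) (u : ℝ) : dJ b k u ≤ dJ b (k + 1) u := by
  have h1 := cl_succ_ge b k
  have h2 := cl_succ_le b k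
  unfold dJ
  apply max_le_max le_rfl
  apply max_le_max <;> linarith

theorem dJ_mono (b : ℕ → Bool) {k k' : ℕ} (h : k ≤ k') (u : ℝ) : dJ b k u ≤ dJ b k' u :=
  monotone_nat_of_le_succ (fun k => dJ_succ b k u) h

theorem cl_sep {b b' : ℕ → Bool} {k : ℕ} (h : ∃ i < k, b i ≠ b' i) :
    2 * (1 / 3 ^ k) ≤ |cl b k - cl b' k| := by
  induction k with
  | zero => obtain ⟨i, hi, _⟩ := h; omega
  | succ k ih =>
    have e : (1 : ℝ) / 3 ^ k = 3 * (1 / 3 ^ (k + 1)) := by
      rw [pow_succ]; field_simp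
    have h3 : (0 : ℝ) < 1 / 3 ^ (k + 1) := by positivity
    set ε : ℝ := 1 / 3 ^ (k + 1) with hε
    have hd : ∀ c : Bool, (if c then (2 : ℝ) else 0) / 3 ^ (k + 1) = (if c then 2 * ε else 0) := by
      intro c
      cases c
      · simp
      · simp only [if_true, hε]; ring
    by_cases hk : ∃ i < k, b i ≠ b' i
    · have h4 := ih hk
      rw [e] at h4
      simp only [cl, hd]
      set A := cl b k
      set B := cl b' k
      rcases abs_cases (A - B) with ⟨ha, hb⟩ | ⟨ha, hb⟩
      · rw [ha] at h4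
        refine le_trans ?_ (le_abs_self _)
        split_ifs <;> linarith
      · rw [ha] at h4
        refine le_trans ?_ (neg_le_abs _)
        split_ifs <;> linarith
    · push Not at hk
      have h5 : b k ≠ b' k := by
        obtain ⟨i, hi, hne⟩ := h
        rcases Nat.lt_succ_iff_lt_or_eq.1 hi with h6 | h6
        · exact absurd (hk i h6) hne
        · rw [← h6]; exact hne
      simp only [cl, hd, cl_congr hk]
      cases hb : b k <;> cases hb' : b' k
      · rw [hb, hb'] at h5; exact absurd rfl h5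
      · refine le_trans ?_ (neg_le_abs _)
        simp
      · refine le_trans ?_ (le_abs_self _)
        simp
      · rw [hb, hb'] at h5; exact absurd rfl h5

theorem dJ_sep {b b' : ℕ → Bool} {k : ℕ} (h : ∃ i < k, b i ≠ b' i) {u : ℝ}
    (hu : dJ b k u < 1 / (4 * 3 ^ k)) : 1 / (2 * 3 ^ k) ≤ dJ b' k u := by
  have h1 := cl_sep h
  have hp : (0 : ℝ) < 1 / 3 ^ k := by positivity
  have e4 : (1 : ℝ) / (4 * 3 ^ k) = (1 / 3 ^ k) / 4 := by field_simp
  have e2 : (1 : ℝ) / (2 * 3 ^ k) = (1 / 3 ^ k) / 2 := by field_simp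
  rw [e4] at hu
  rw [e2]
  unfold dJ at hu ⊢
  set ε : ℝ := 1 / 3 ^ k
  have h2 : cl b k - u < ε / 4 := lt_of_le_of_lt ((le_max_left _ _).trans (le_max_right _ _)) hu
  have h3 : u - cl b k - ε < ε / 4 :=
    lt_of_le_of_lt ((le_max_right _ _).trans (le_max_right _ _)) hu
  rcases abs_cases (cl b k - cl b' k) with ⟨ha, hb⟩ | ⟨ha, hb⟩
  · rw [ha] at h1
    refine le_trans ?_ ((le_max_right _ _).trans (le_max_right _ _))
    linarith
  · rw [ha] at h1
    refine le_trans ?_ ((le_max_left _ _).trans (le_max_right _ _))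
    linarith

theorem cl_eq_sum (b : ℕ → Bool) (k : ℕ) :
    cl b k = ∑ i ∈ Finset.range k, (if b i then (2 : ℝ) else 0) / 3 ^ (i + 1) := by
  induction k with
  | zero => simp [cl]
  | succ k ih => rw [Finset.sum_range_succ, ← ih]; rfl

theorem cantor_summable (b : ℕ → Bool) :
    Summable (fun i : ℕ => (if b i then (2 : ℝ) else 0) / 3 ^ (i + 1)) := by
  have h0 : Summable (fun i : ℕ => (2 / 3 : ℝ) * (1 / 3) ^ i) :=
    (summable_geometric_of_lt_one (by norm_num) (by norm_num)).mul_left _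
  apply Summable.of_nonneg_of_le _ _ h0
  · intro i
    split_ifs <;> positivity
  · intro i
    have e : (2 / 3 : ℝ) * (1 / 3) ^ i = 2 / 3 ^ (i + 1) := by
      rw [pow_succ, one_div_pow]; field_simp
    rw [e]
    split_ifs
    · exact le_rfl
    · rw [zero_div]; positivity

theorem cl_le_cantorPt (b : ℕ → Bool) (k : ℕ) : cl b k ≤ cantorPt b := by
  rw [cl_eq_sum]
  unfold cantorPt
  apply (cantor_summable b).sum_le_tsum
  intro i _
  split_ifs <;> positivity

theorem cantorPt_le (b : ℕ → Bool) (k : ℕ) : cantorPt b ≤ cl b k + 1 / 3 ^ k := by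
  have h1 := (cantor_summable b).hasSum.tendsto_sum_nat
  have h2 : Filter.Tendsto (fun k => cl b k) Filter.atTop (nhds (cantorPt b)) := by
    have : (fun k => cl b k) = fun k => ∑ i ∈ Finset.range k, (if b i then (2 : ℝ) else 0) / 3 ^ (i + 1) := by
      funext k; exact cl_eq_sum b k
    rw [this]
    exact h1
  have hanti : Antitone (fun k : ℕ => cl b k + 1 / 3 ^ k) :=
    antitone_nat_of_succ_le (fun k => cl_succ_le b k)
  apply le_of_tendsto h2
  filter_upwards [Filter.eventually_ge_atTop k] with j hj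
  have h3 : cl b j + 1 / 3 ^ j ≤ cl b k + 1 / 3 ^ k := hanti hj
  have h4 : (0 : ℝ) < 1 / 3 ^ j := by positivity
  linarith

theorem cantorPt_mem (b : ℕ → Bool) : cantorPt b ∈ Icc (0 : ℝ) 1 := by
  have h1 := cl_le_cantorPt b 0
  have h2 := cantorPt_le b 0
  simp only [cl, pow_zero, div_one, zero_add] at h1 h2
  exact ⟨h1, h2⟩

theorem dJ_cantorPt (b : ℕ → Bool) (k : ℕ) : dJ b k (cantorPt b) = 0 := by
  have h1 := cl_le_cantorPt b k
  have h2 := cantorPt_le b k
  unfold dJ
  apply max_eq_left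
  apply max_le <;> linarith

end QRAsym
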