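import Pool.Agent.Lib_MP_53ae57.H1_Cantor

/-!
[QR-H2] Centres and walls.

`ext_agrees`: `ext (fun i : Fin k => b i)` agrees with `b` below `k`.
`cen_eq`: the summand of the word `v = b|k` has `dJ (ext v) k u = dJ b k u < 1/(4·3^k)`, so the argument
of the clamp is `≥ 1`, and `c k (ext v) = c k b`; for `v ≠ b|k` the words `ext v` and `b` differ below
`k`, `dJ (ext v) k u ≥ 1/(2·3^k)` (`dJ_sep`), so the clamp is `0` (`Finset.sum_eq_single`).
`norm_cen_le`: all clamps are in `[0,1]`. `wall_far`: all factors of the product are `1`.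
`wall_zero`: the factor of `v = b|k` is `0`. `norm_dir`: `‖cos e_i + sin e_j‖ = 1` for `i ≠ j`
(e.g. `EuclideanSpace.norm_eq`, or orthonormality / Pythagoras).
`Psi_wall`: with `λ = clamp (2(l-k)-1)`: `Psi = (1-λ) C_k + λ C_{k+1} + ((1-λ) Λ_k + λ Λ_{k+1}) dir`.
The point `u` is also far from the intervals of level `k+1`
(`dJ b (k+1) u ≥ dJ b k u ≥ 1/(4·3^k) ≥ 1/(4·3^(k+1))`), so `Λ_k = hgt c k`, `Λ_{k+1} = hgt c (k+1)`, and
`‖Psi‖ ≥ (1-λ)(hgt c k - ‖C_k‖) + λ (hgt c (k+1) - ‖C_{k+1}‖) ≥ (1-λ) k + λ (k+1) ≥ k`.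
-/

open Set

namespace QRAsym

variable {n : ℕ}

private theorem ext_agrees (b : ℕ → Bool) (k : ℕ) :
    ∀ i < k, ext (fun i : Fin k => b i) i = b i := by
  intro i hi
  unfold ext
  rw [dif_pos hi]

private theorem ext_ne {b : ℕ → Bool} {k : ℕ} {v : Fin k → Bool}
    (hv : v ≠ fun i : Fin k => b i) : ∃ i < k, b i ≠ ext v i := by
  by_contra hcon
  push Not at hcon
  apply hv
  funext i
  have h := hcon i i.2
  unfold ext at h
  rw [dif_pos i.2] at h
  exact h.symm

theorem cen_eq {c : ℕ → (ℕ → Bool) → E n} (hc : Adapted c) {b : ℕ → Bool} {k : ℕ} {u : ℝ}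
    (hu : dJ b k u < 1 / (4 * 3 ^ k)) : cen c k u = c k b := by
  have h3 : (0 : ℝ) < 3 ^ k := by positivity
  unfold cen
  rw [Finset.sum_eq_single (fun i : Fin k => b i)]
  · have hd : dJ (ext fun i : Fin k => b i) k u = dJ b k u := dJ_congr (ext_agrees b k) u
    rw [hd, clamp_of_one_le, one_smul]
    · exact hc k _ _ (ext_agrees b k)
    · rw [lt_div_iff₀ (by positivity)] at hu
      linarith
  · intro v _ hv
    have h := dJ_sep (ext_ne hv) hu
    rw [clamp_of_nonpos, zero_smul]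
    rw [div_le_iff₀ (by positivity)] at h
    linarith
  · intro h
    exact absurd (Finset.mem_univ _) h

theorem norm_cen_le (c : ℕ → (ℕ → Bool) → E n) (k : ℕ) (u : ℝ) : ‖cen c k u‖ + k ≤ hgt c k := by
  unfold cen hgt
  have h : ‖∑ v : Fin k → Bool, clamp (2 - 4 * 3 ^ k * dJ (ext v) k u) • c k (ext v)‖ ≤
      ∑ v : Fin k → Bool, ‖c k (ext v)‖ := by
    refine (norm_sum_le _ _).trans (Finset.sum_le_sum fun v _ => ?_)
    rw [norm_smul, Real.norm_of_nonneg (clamp_nonneg _)]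
    exact mul_le_of_le_one_left (norm_nonneg _) (clamp_le_one _)
  linarith

private theorem hgt_nonneg (c : ℕ → (ℕ → Bool) → E n) (k : ℕ) : 0 ≤ hgt c k := by
  unfold hgt
  have h : 0 ≤ ∑ v : Fin k → Bool, ‖c k (ext v)‖ := Finset.sum_nonneg fun v _ => norm_nonneg _
  have hk : (0 : ℝ) ≤ k := Nat.cast_nonneg k
  linarith

theorem wall_nonneg (c : ℕ → (ℕ → Bool) → E n) (k : ℕ) (u : ℝ) : 0 ≤ wall c k u := by
  unfold wall
  refine mul_nonneg (hgt_nonneg c k) (Finset.prod_nonneg fun v _ => ?_)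
  exact le_min zero_le_one (mul_nonneg (by positivity) (dJ_nonneg _ _ _))

theorem wall_far (c : ℕ → (ℕ → Bool) → E n) {k : ℕ} {u : ℝ}
    (hu : ∀ b, 1 / (4 * 3 ^ k) ≤ dJ b k u) : wall c k u = hgt c k := by
  unfold wall
  rw [Finset.prod_eq_one, mul_one]
  intro v _
  have h := hu (ext v)
  rw [div_le_iff₀ (by positivity)] at h
  exact min_eq_left (by linarith)

theorem wall_zero (c : ℕ → (ℕ → Bool) → E n) {b : ℕ → Bool} {k : ℕ} {u : ℝ}
    (hu : dJ b k u = 0) : wall c k u = 0 := by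
  unfold wall
  rw [Finset.prod_eq_zero (Finset.mem_univ (fun i : Fin k => b i)), mul_zero]
  have hd : dJ (ext fun i : Fin k => b i) k u = dJ b k u := dJ_congr (ext_agrees b k) u
  rw [hd, hu, mul_zero]
  exact min_eq_right zero_le_one

theorem norm_dir {i j : Fin n} (hij : i ≠ j) (l : ℝ) : ‖dir i j l‖ = 1 := by
  unfold dir
  have h : ‖Real.cos (4 * Real.pi * l) • (EuclideanSpace.single i (1 : ℝ) : E n) +
      Real.sin (4 * Real.pi * l) • (EuclideanSpace.single j (1 : ℝ) : E n)‖ ^ 2 = 1 := by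
    rw [norm_add_sq_real, norm_smul, norm_smul, inner_smul_left, inner_smul_right,
      EuclideanSpace.inner_single_left, EuclideanSpace.norm_single, EuclideanSpace.norm_single]
    simp only [EuclideanSpace.single_apply, if_neg hij, norm_one, mul_one, mul_zero, add_zero,
      Real.norm_eq_abs, sq_abs]
    exact Real.cos_sq_add_sin_sq _
  exact (pow_eq_one_iff_of_nonneg (norm_nonneg _) two_ne_zero).1 h

theorem Psi_wall (c : ℕ → (ℕ → Bool) → E n) {i j : Fin n} (hij : i ≠ j) {k : ℕ} {l u : ℝ}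
    (h : k ≤ l) (h' : l < k + 1) (hu : ∀ b, 1 / (4 * 3 ^ k) ≤ dJ b k u) :
    (k : ℝ) ≤ ‖Psi c i j l u‖ := by
  have hu' : ∀ b, 1 / (4 * 3 ^ (k + 1)) ≤ dJ b (k + 1) u := by
    intro b
    refine le_trans ?_ ((hu b).trans (dJ_mono b (Nat.le_succ k) u))
    apply one_div_le_one_div_of_le (by positivity)
    have : (3 : ℝ) ^ k ≤ 3 ^ (k + 1) := pow_le_pow_right₀ (by norm_num) (Nat.le_succ k)
    linarith
  unfold Psi
  rw [strip_mix (cen c) u h h', strip_mix (wall c) u h h', wall_far c hu, wall_far c hu']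
  set s := clamp (2 * (l - k) - 1) with hs
  have hs0 : 0 ≤ s := clamp_nonneg _
  have hs1 : s ≤ 1 := clamp_le_one _
  have hC0 := norm_cen_le c k u
  have hC1 := norm_cen_le c (k + 1) u
  have hH0 := hgt_nonneg c k
  have hH1 := hgt_nonneg c (k + 1)
  have e1 : cen c k u + s • (cen c (k + 1) u - cen c k u) =
      (1 - s) • cen c k u + s • cen c (k + 1) u := by
    rw [smul_sub, sub_smul, one_smul]; abel
  have e2 : hgt c k + s • (hgt c (k + 1) - hgt c k) = (1 - s) * hgt c k + s * hgt c (k + 1) := by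
    rw [smul_eq_mul]; ring
  rw [e1, e2]
  have hC : ‖(1 - s) • cen c k u + s • cen c (k + 1) u‖ ≤
      (1 - s) * ‖cen c k u‖ + s * ‖cen c (k + 1) u‖ := by
    refine (norm_add_le _ _).trans (le_of_eq ?_)
    rw [norm_smul, norm_smul, Real.norm_of_nonneg hs0, Real.norm_of_nonneg (by linarith)]
  have hD : ‖((1 - s) * hgt c k + s * hgt c (k + 1)) • dir i j l‖ =
      (1 - s) * hgt c k + s * hgt c (k + 1) := by
    rw [norm_smul, norm_dir hij, mul_one, Real.norm_of_nonneg]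
    exact add_nonneg (mul_nonneg (by linarith) hH0) (mul_nonneg hs0 hH1)
  have htri := norm_sub_le
    ((1 - s) • cen c k u + s • cen c (k + 1) u +
      ((1 - s) * hgt c k + s * hgt c (k + 1)) • dir i j l)
    ((1 - s) • cen c k u + s • cen c (k + 1) u)
  rw [add_sub_cancel_left, hD] at htri
  push_cast at hC1
  have h1 : (1 - s) * (‖cen c k u‖ + k) ≤ (1 - s) * hgt c k :=
    mul_le_mul_of_nonneg_left hC0 (by linarith)
  have h2 : s * (‖cen c (k + 1) u‖ + (k + 1)) ≤ s * hgt c (k + 1) :=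
    mul_le_mul_of_nonneg_left hC1 hs0
  nlinarith

end QRAsym
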