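import Pool.Agent.Lib_MP_53ae57.D1_Slow
import Pool.Agent.Lib_MP_53ae57.G1_Strip

/-!
[QR-I] Slow composition.

`exists_slow_fun`: `L s = inf_N (N + max 0 (s - S N))` (infimum over natural numbers of nonnegative
numbers, `ciInf`). It is an infimum of 1-Lipschitz functions, so 1-Lipschitz; `L s ≤ N` for `s ≤ S N`;
and `L s ≥ M` as soon as `s ≥ M + S N` for all `N < M` (for `N ≥ M` the term is `≥ N ≥ M`).
`exists_slow`: let `B N ≥ 1` be a bound and Lipschitz constant of `Φ` on `[0, N] × [-2, 2]`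
(`LipBd`), nondecreasing in `N` (replace `B N` by `∑ k ≤ N` or a running maximum). Choose
`R ≥ max(R₀, 1)` with `10 B 1 ≤ η √R` and `B 1 ≤ R`, and `S N ≥ N` with: every `s ≥ S N` satisfies
`10 B (N+2) ≤ η e^(s/2)` and `B (N+2) ≤ e^s`. Let `L` be the function of `exists_slow_fun` for `S`,
`l x = L (log (rho R x))`, `u x = 2 x_i / rho R x ∈ [-2, 2]` (`norm_le_rho`).
Let `p` be a point, `ρ = rho R p ≥ R`, and `N` the least natural number with `log ρ ≤ S N` (exists as
`S N ≥ N`). Then `l p ≤ N`, and `10 B (N+1) ≤ η √ρ`, `B (N+1) ≤ ρ`: for `N = 0` because `ρ ≥ R`, for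
`N ≥ 1` because `log ρ > S (N-1)`. So `‖Φ (l p) (u p)‖ ≤ B (N+1) ≤ ρ`. For `x ∈ B(p, ρ/2)`:
`ρ/2 ≤ rho R x ≤ 3ρ/2` (`abs_rho_sub_le`), so `|log rho x - log ρ| ≤ log 2 ≤ 1`, `0 ≤ l x ≤ N + 1`. For
`x, y` in the ball `|l x - l y| ≤ |log rho x - log rho y| ≤ (2/ρ) ‖x - y‖` and
`|u x - u y| ≤ 2|x_i - y_i|/rho x + 2|y_i| |rho x - rho y|/(rho x rho y) ≤ (8/ρ) ‖x - y‖`
(as `|y_i| ≤ ‖y‖ ≤ rho y`). So the map is Lipschitz on the ball with constant
`10 B (N+1) / ρ ≤ η / √ρ`.
-/

open Set Filter Topology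

namespace QRAsym

theorem exists_slow_fun (S : ℕ → ℝ) : ∃ L : ℝ → ℝ, (∀ s t, |L s - L t| ≤ |s - t|) ∧
    (∀ s, 0 ≤ L s) ∧ Tendsto L atTop atTop ∧ ∀ N s, s ≤ S N → L s ≤ N := by
  classical
  have hnn : ∀ (s : ℝ) (N : ℕ), 0 ≤ (N : ℝ) + max 0 (s - S N) := fun s N => by positivity
  have hbdd : ∀ s : ℝ, BddBelow (Set.range fun N : ℕ => (N : ℝ) + max 0 (s - S N)) := by
    intro s
    refine ⟨0, ?_⟩
    rintro _ ⟨N, rfl⟩
    exact hnn s N
  have key : ∀ s t : ℝ, (⨅ N : ℕ, (N : ℝ) + max 0 (s - S N)) - |s - t| ≤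
      ⨅ N : ℕ, (N : ℝ) + max 0 (t - S N) := by
    intro s t
    refine le_ciInf fun N => ?_
    have h1 := ciInf_le (hbdd s) N
    have h2 : max 0 (s - S N) ≤ max 0 (t - S N) + |s - t| := by
      refine max_le ?_ ?_
      · have := le_max_left 0 (t - S N)
        have := abs_nonneg (s - t)
        linarith
      · have := le_max_right 0 (t - S N)
        have := le_abs_self (s - t)
        linarith
    linarith
  refine ⟨fun s => ⨅ N : ℕ, (N : ℝ) + max 0 (s - S N), ?_, ?_, ?_, ?_⟩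
  · intro s t
    have h1 := key s t
    have h2 := key t s
    rw [abs_sub_comm t s] at h2
    rw [abs_le]
    constructor <;> linarith
  · intro s
    exact le_ciInf fun N => hnn s N
  · rw [tendsto_atTop]
    intro b
    obtain ⟨M, hM⟩ := exists_nat_ge b
    filter_upwards [eventually_ge_atTop ((M : ℝ) + ∑ N ∈ Finset.range M, |S N|)] with s hs
    refine le_ciInf fun N => ?_
    by_cases hN : N < M
    · have h1 : |S N| ≤ ∑ N ∈ Finset.range M, |S N| :=
        Finset.single_le_sum (f := fun N => |S N|) (fun _ _ => abs_nonneg _)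
          (Finset.mem_range.2 hN)
      have h2 := le_abs_self (S N)
      have h3 := le_max_right 0 (s - S N)
      have h4 : (0 : ℝ) ≤ N := Nat.cast_nonneg N
      linarith
    · have h1 : (M : ℝ) ≤ N := by exact_mod_cast not_lt.1 hN
      have h3 := le_max_left 0 (s - S N)
      linarith
  · intro N s hs
    have h1 := ciInf_le (hbdd s) N
    have h2 : max 0 (s - S N) = 0 := max_eq_left (by linarith)
    rw [h2, add_zero] at h1
    exact h1

private lemma abs_coord_le {n : ℕ} (x : E n) (i : Fin n) : |x i| ≤ ‖x‖ := by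
  have := EuclideanSpace.norm_eq x
  rw [this]
  refine Real.le_sqrt_of_sq_le ?_
  have h1 : ‖x i‖ ^ 2 ≤ ∑ j, ‖x j‖ ^ 2 :=
    Finset.single_le_sum (f := fun j => ‖x j‖ ^ 2) (fun _ _ => by positivity) (Finset.mem_univ i)
  simpa [Real.norm_eq_abs] using h1

private lemma log_lip {ρ a b : ℝ} (hρ : 0 < ρ) (ha : ρ / 2 ≤ a) (hb : ρ / 2 ≤ b) :
    Real.log a - Real.log b ≤ 2 / ρ * |a - b| := by
  have ha0 : 0 < a := by linarith
  have hb0 : 0 < b := by linarith
  rw [← Real.log_div ha0.ne' hb0.ne']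
  have h1 := Real.log_le_sub_one_of_pos (div_pos ha0 hb0)
  have h2 : a / b - 1 = (a - b) / b := by field_simp
  rw [h2] at h1
  refine h1.trans ?_
  have h3 : (a - b) / b ≤ |a - b| / b := by
    gcongr
    exact le_abs_self _
  refine h3.trans ?_
  have h4 : |a - b| / b ≤ |a - b| / (ρ / 2) := by
    gcongr
  refine h4.trans (le_of_eq ?_)
  field_simp

theorem exists_slow {n : ℕ} {Φ : ℝ → ℝ → E n} (hΦ : LipBd Φ) (i : Fin n) {η R₀ : ℝ} (hη : 0 < η) :
    ∃ R : ℝ, 1 ≤ R ∧ R₀ ≤ R ∧ ∃ L : ℝ → ℝ, Continuous L ∧ (∀ s, 0 ≤ L s) ∧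
      Tendsto L atTop atTop ∧
      SlowMap R η (fun x => Φ (L (Real.log (rho R x))) (2 * x i / rho R x)) ∧
      ∀ x : E n, ‖Φ (L (Real.log (rho R x))) (2 * x i / rho R x)‖ ≤ rho R x := by
  classical
  choose B hB0 hB using hΦ
  -- monotone bound
  obtain ⟨C, hC⟩ : ∃ C : ℕ → ℝ, C = fun N => 1 + ∑ k ∈ Finset.range (N + 1), B k := ⟨_, rfl⟩
  have hC1 : ∀ N, 1 ≤ C N := by
    intro N
    have : 0 ≤ ∑ k ∈ Finset.range (N + 1), B k := Finset.sum_nonneg fun k _ => hB0 k
    rw [hC]
    simp only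
    linarith
  have hBC : ∀ N, B N ≤ C N := by
    intro N
    have : B N ≤ ∑ k ∈ Finset.range (N + 1), B k :=
      Finset.single_le_sum (f := B) (fun k _ => hB0 k) (Finset.mem_range.2 (Nat.lt_succ_self N))
    rw [hC]
    simp only
    linarith
  have hΦC : ∀ N : ℕ, ∀ l ∈ Icc (0 : ℝ) N, ∀ l' ∈ Icc (0 : ℝ) N,
      ∀ u ∈ Icc (-2 : ℝ) 2, ∀ u' ∈ Icc (-2 : ℝ) 2,
        ‖Φ l u‖ ≤ C N ∧ ‖Φ l u - Φ l' u'‖ ≤ C N * (|l - l'| + |u - u'|) := by
    intro N l hl l' hl' u hu u' hu'
    obtain ⟨h1, h2⟩ := hB N l hl l' hl' u hu u' hu'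
    refine ⟨h1.trans (hBC N), h2.trans ?_⟩
    have : 0 ≤ |l - l'| + |u - u'| := by positivity
    exact mul_le_mul_of_nonneg_right (hBC N) this
  -- choice of `R`
  obtain ⟨R, hR1, hR0, hRa, hRb⟩ : ∃ R : ℝ, 1 ≤ R ∧ R₀ ≤ R ∧ 10 * C 1 ≤ η * Real.sqrt R ∧
      C 1 ≤ R := by
    refine ⟨max (max 1 R₀) (max ((10 * C 1 / η) ^ 2) (C 1)), ?_, ?_, ?_, ?_⟩
    · exact (le_max_left _ _).trans (le_max_left _ _)
    · exact (le_max_right _ _).trans (le_max_left _ _)
    · have h1 : (10 * C 1 / η) ^ 2 ≤ max (max 1 R₀) (max ((10 * C 1 / η) ^ 2) (C 1)) :=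
        (le_max_left _ _).trans (le_max_right _ _)
      have h2 := Real.le_sqrt_of_sq_le h1
      have h3 : 10 * C 1 = η * (10 * C 1 / η) := by field_simp
      exact h3.le.trans (mul_le_mul_of_nonneg_left h2 hη.le)
    · exact (le_max_right _ _).trans (le_max_right _ _)
  -- choice of `S`
  have hS : ∀ N : ℕ, ∃ s₀ : ℝ, (N : ℝ) ≤ s₀ ∧ ∀ s, s₀ ≤ s →
      10 * C (N + 2) ≤ η * Real.exp (s / 2) ∧ C (N + 2) ≤ Real.exp s := by
    intro N
    have hCp : 0 < C (N + 2) := lt_of_lt_of_le one_pos (hC1 _)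
    refine ⟨max N (max (2 * Real.log (10 * C (N + 2) / η)) (Real.log (C (N + 2)))),
      le_max_left _ _, ?_⟩
    intro s hs
    constructor
    · have h1 : 2 * Real.log (10 * C (N + 2) / η) ≤ s :=
        ((le_max_left _ _).trans (le_max_right _ _)).trans hs
      have h2 : Real.log (10 * C (N + 2) / η) ≤ s / 2 := by linarith
      have h3 : 10 * C (N + 2) / η ≤ Real.exp (s / 2) := by
        rw [← Real.log_le_iff_le_exp (by positivity)]
        exact h2
      have h4 : 10 * C (N + 2) = η * (10 * C (N + 2) / η) := by field_simp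
      exact h4.le.trans (mul_le_mul_of_nonneg_left h3 hη.le)
    · have h1 : Real.log (C (N + 2)) ≤ s :=
        ((le_max_right _ _).trans (le_max_right _ _)).trans hs
      rw [← Real.log_le_iff_le_exp hCp]
      exact h1
  choose S hSN hS using hS
  obtain ⟨L, hLlip, hL0, hLtop, hLS⟩ := exists_slow_fun S
  have hLcont : Continuous L := by
    have : LipschitzWith 1 L := by
      refine LipschitzWith.of_dist_le_mul fun s t => ?_
      rw [Real.dist_eq, Real.dist_eq]
      simpa using hLlip s t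
    exact this.continuous
  have hRpos : 0 < R := lt_of_lt_of_le one_pos hR1
  have hρR : ∀ x : E n, R ≤ rho R x := fun x => le_rho hRpos.le x
  have hρpos : ∀ x : E n, 0 < rho R x := fun x => lt_of_lt_of_le hRpos (hρR x)
  -- the level
  have hlev : ∀ p : E n, ∃ N : ℕ, L (Real.log (rho R p)) ≤ N ∧
      10 * C (N + 1) ≤ η * Real.sqrt (rho R p) ∧ C (N + 1) ≤ rho R p := by
    intro p
    have hex : ∃ N : ℕ, Real.log (rho R p) ≤ S N := by
      obtain ⟨N, hN⟩ := exists_nat_ge (Real.log (rho R p))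
      exact ⟨N, hN.trans (hSN N)⟩
    refine ⟨Nat.find hex, hLS _ _ (Nat.find_spec hex), ?_⟩
    rcases Nat.eq_zero_or_pos (Nat.find hex) with h0 | hpos
    · rw [h0]
      refine ⟨hRa.trans ?_, hRb.trans (hρR p)⟩
      exact mul_le_mul_of_nonneg_left (Real.sqrt_le_sqrt (hρR p)) hη.le
    · obtain ⟨M, hM⟩ : ∃ M, Nat.find hex = M + 1 := ⟨Nat.find hex - 1, by omega⟩
      have hlt : ¬ Real.log (rho R p) ≤ S M := Nat.find_min hex (by omega)
      have h1 := hS M (Real.log (rho R p)) (not_le.1 hlt).le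
      rw [hM]
      have e1 : Real.exp (Real.log (rho R p) / 2) = Real.sqrt (rho R p) := by
        have : Real.exp (Real.log (rho R p) / 2) ^ 2 = rho R p := by
          rw [← Real.exp_nat_mul]
          rw [show ((2 : ℕ) : ℝ) * (Real.log (rho R p) / 2) = Real.log (rho R p) by
            push_cast; ring]
          exact Real.exp_log (hρpos p)
        rw [← this, Real.sqrt_sq (Real.exp_pos _).le, this]
      rw [e1, Real.exp_log (hρpos p)] at h1
      exact h1
  have hu : ∀ x : E n, 2 * x i / rho R x ∈ Icc (-2 : ℝ) 2 := by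
    intro x
    have h1 : |x i| ≤ rho R x := (abs_coord_le x i).trans (norm_le_rho R x)
    have h2 := abs_le.1 h1
    rw [mem_Icc, le_div_iff₀ (hρpos x), div_le_iff₀ (hρpos x)]
    constructor <;> nlinarith [h2.1, h2.2]
  refine ⟨R, hR1, hR0, L, hLcont, hL0, hLtop, ?_, ?_⟩
  · intro p x hx y hy
    obtain ⟨N, hN1, hN2, hN3⟩ := hlev p
    have hρ := hρpos p
    -- bounds for the points of the ball
    have hball : ∀ z ∈ Metric.ball p (rho R p / 2),
        rho R p / 2 ≤ rho R z ∧ L (Real.log (rho R z)) ∈ Icc (0 : ℝ) ((N + 1 : ℕ) : ℝ) := by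
      intro z hz
      have h1 : ‖z - p‖ < rho R p / 2 := by
        rw [Metric.mem_ball, dist_eq_norm] at hz
        exact hz
      have h2 := abs_rho_sub_le R z p
      have h3 := abs_le.1 (h2.trans h1.le)
      have h4 : rho R p / 2 ≤ rho R z := by linarith [h3.1]
      refine ⟨h4, hL0 _, ?_⟩
      have h5 : Real.log (rho R z) - Real.log (rho R p) ≤ 1 := by
        have := log_lip hρ h4 (by linarith : rho R p / 2 ≤ rho R p)
        refine this.trans ?_
        have h6 : |rho R z - rho R p| ≤ rho R p / 2 := h2.trans h1.le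
        calc 2 / rho R p * |rho R z - rho R p| ≤ 2 / rho R p * (rho R p / 2) := by gcongr
          _ = 1 := by field_simp
      have h5' : Real.log (rho R p) - Real.log (rho R z) ≤ 1 := by
        have := log_lip hρ (by linarith : rho R p / 2 ≤ rho R p) h4
        refine this.trans ?_
        have h6 : |rho R p - rho R z| ≤ rho R p / 2 := by
          rw [abs_sub_comm]
          exact h2.trans h1.le
        calc 2 / rho R p * |rho R p - rho R z| ≤ 2 / rho R p * (rho R p / 2) := by gcongr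
          _ = 1 := by field_simp
      have h7 : |Real.log (rho R z) - Real.log (rho R p)| ≤ 1 := by
        rw [abs_le]
        constructor <;> linarith
      have h8 := (hLlip (Real.log (rho R z)) (Real.log (rho R p))).trans h7
      have h9 := abs_le.1 h8
      push_cast
      linarith [h9.2]
    obtain ⟨hx1, hx2⟩ := hball x hx
    obtain ⟨hy1, hy2⟩ := hball y hy
    have hmain := (hΦC (N + 1) _ hx2 _ hy2 _ (hu x) _ (hu y)).2
    have hl : |L (Real.log (rho R x)) - L (Real.log (rho R y))| ≤ 2 / rho R p * ‖x - y‖ := by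
      refine (hLlip _ _).trans ?_
      have h1 := log_lip hρ hx1 hy1
      have h2 := log_lip hρ hy1 hx1
      have h3 := abs_rho_sub_le R x y
      have h4 : 2 / rho R p * |rho R x - rho R y| ≤ 2 / rho R p * ‖x - y‖ := by gcongr
      rw [abs_sub_comm (rho R y) (rho R x)] at h2
      rw [abs_le]
      constructor <;> linarith
    have hcoord : |x i - y i| ≤ ‖x - y‖ := by
      have := abs_coord_le (x - y) i
      simpa using this
    have huu : |2 * x i / rho R x - 2 * y i / rho R y| ≤ 8 / rho R p * ‖x - y‖ := by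
      have ha := hρpos x
      have hb := hρpos y
      have e : 2 * x i / rho R x - 2 * y i / rho R y =
          2 * (x i - y i) / rho R x + 2 * (y i / rho R y) * ((rho R y - rho R x) / rho R x) := by
        field_simp
        ring
      have h1 : |2 * (x i - y i) / rho R x| ≤ 4 / rho R p * ‖x - y‖ := by
        rw [abs_div, abs_mul, abs_of_pos ha, abs_of_pos (by norm_num : (0 : ℝ) < 2)]
        calc 2 * |x i - y i| / rho R x ≤ 2 * ‖x - y‖ / (rho R p / 2) := by gcongr
          _ = 4 / rho R p * ‖x - y‖ := by field_simp; ring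
      have h2 : |y i / rho R y| ≤ 1 := by
        rw [abs_div, abs_of_pos hb, div_le_one hb]
        exact (abs_coord_le y i).trans (norm_le_rho R y)
      have h3 : |(rho R y - rho R x) / rho R x| ≤ 2 / rho R p * ‖x - y‖ := by
        rw [abs_div, abs_of_pos ha]
        have h4 := abs_rho_sub_le R x y
        rw [abs_sub_comm] at h4
        calc |rho R y - rho R x| / rho R x ≤ ‖x - y‖ / (rho R p / 2) := by gcongr
          _ = 2 / rho R p * ‖x - y‖ := by field_simp
      rw [e]
      refine (abs_add_le _ _).trans ?_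
      have h5 : |2 * (y i / rho R y) * ((rho R y - rho R x) / rho R x)| ≤
          4 / rho R p * ‖x - y‖ := by
        rw [abs_mul, abs_mul, abs_of_pos (by norm_num : (0 : ℝ) < 2)]
        calc 2 * |y i / rho R y| * |(rho R y - rho R x) / rho R x|
            ≤ 2 * 1 * (2 / rho R p * ‖x - y‖) := by gcongr
          _ = 4 / rho R p * ‖x - y‖ := by ring
      have h6 : 8 / rho R p * ‖x - y‖ = 4 / rho R p * ‖x - y‖ + 4 / rho R p * ‖x - y‖ := by ring
      rw [h6]
      exact add_le_add h1 h5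
    refine hmain.trans ?_
    have hCp : 0 ≤ C (N + 1) := by linarith [hC1 (N + 1)]
    have hsq : Real.sqrt (rho R p) * Real.sqrt (rho R p) = rho R p := Real.mul_self_sqrt hρ.le
    have hsqp : 0 < Real.sqrt (rho R p) := Real.sqrt_pos.2 hρ
    calc C (N + 1) * (|L (Real.log (rho R x)) - L (Real.log (rho R y))| +
          |2 * x i / rho R x - 2 * y i / rho R y|)
        ≤ C (N + 1) * (2 / rho R p * ‖x - y‖ + 8 / rho R p * ‖x - y‖) := by gcongr
      _ = (10 * C (N + 1)) / rho R p * ‖x - y‖ := by ring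
      _ ≤ (η * Real.sqrt (rho R p)) / rho R p * ‖x - y‖ := by gcongr
      _ = η / Real.sqrt (rho R p) * ‖x - y‖ := by
        congr 1
        rw [div_eq_div_iff hρ.ne' hsqp.ne', mul_assoc, hsq]
  · intro x
    obtain ⟨N, hN1, hN2, hN3⟩ := hlev x
    have hmem : L (Real.log (rho R x)) ∈ Icc (0 : ℝ) ((N + 1 : ℕ) : ℝ) := by
      refine ⟨hL0 _, ?_⟩
      push_cast
      linarith
    exact ((hΦC (N + 1) _ hmem _ hmem _ (hu x) _ (hu x)).1).trans hN3

end QRAsym
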