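import Pool.Agent.Lib_MP_53ae57.H2_Walls

/-!
[QR-J1] A limit of `Psi` along a path selects a branch.

Proof. Let `b₀ = ‖a‖ + 1`, `T₀` with `‖Psi (l t) (u t)‖ < b₀` for `t ≥ T₀`, and `k₀` a natural number with
`k₀ ≥ b₀`, `k₀ > l T₀`. For `k ≥ k₀` let `T k = sup {t ≥ T₀ : l t ≤ k}` (contains `T₀`, bounded above as
`l → ∞`, closed), so `T k ≥ T₀`, `l (T k) = k` and `l t ≥ k` for `t ≥ T k` (`exists_last`).
(1) For `t ≥ T k` some `b` has `dJ b k (u t) < 1/(4·3^k)`: with `j = ⌊l t⌋₊ ≥ k ≥ k₀`, `Psi_wall` at level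
`j` would give `‖Psi‖ ≥ j ≥ b₀` if all `dJ b j (u t)` were `≥ 1/(4·3^j)`; so `dJ b j (u t) < 1/(4·3^j)` for
some `b`; use `dJ_mono`.
(2) One word for all `t ≥ T k`: for `b` in the finite set of words `ext v`, `v : Fin k → Bool`
(`dJ_congr`), the sets `O_b = {t | dJ b k (u t) < 1/(4·3^k)}` are open, pairwise disjoint for words which
differ below `k` (`dJ_sep`: `1/(2·3^k) > 1/(4·3^k)`), and cover `[T k, ∞)`, which is preconnected
(`isPreconnected_Ici`). So one of them contains it: `b_k`.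
(3) For `k₀ ≤ k ≤ k'` the words `b_k`, `b_{k'}` agree below `k`: at `t = max (T k) (T k')` both
`dJ b_k k (u t)` and `dJ b_{k'} k (u t) ≤ dJ b_{k'} k' (u t)` are `< 1/(4·3^k)`; `dJ_sep`.
So `b i = b_{max k₀ (i+1)} i` agrees with `b_k` below `k` for all `k ≥ k₀`, `c k b = c k b_k`.
(4) Let `ε > 0` and `k ≥ k₀` so large that `‖Psi (l t) (u t) - a‖ ≤ ε` for `t ≥ T k` (`T k → ∞`, or
simply: `l` is bounded on `[T₀, T']`, so `T k ≥ T'` for large `k`). At `t = T k`, `l t = k`: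
`Psi = c k b_k + Λ e_i` (`strip_low`, `cen_eq`, `cos 4πk = 1`, `sin = 0`), `Λ ≥ 0`. There is `t' ≥ T k` with
`l t' = k + 1/4` (intermediate value theorem): `Psi = c k b_k - Λ' e_i` (`cos(4πk + π) = -1`). So
`Λ + Λ' = ‖Psi(t) - Psi(t')‖ ≤ 2ε` and `‖c k b - a‖ ≤ ε + Λ ≤ 3ε`.
-/

open Set Filter Topology

namespace QRAsym

variable {n : ℕ}

theorem exists_last {l : ℝ → ℝ} (hl : Continuous l) (hlt : Tendsto l atTop atTop) {T₀ k : ℝ}
    (h : l T₀ ≤ k) : ∃ T, T₀ ≤ T ∧ l T = k ∧ ∀ t, T ≤ t → k ≤ l t := by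
  obtain ⟨M, hM⟩ := eventually_atTop.1 (hlt.eventually_gt_atTop k)
  set S : Set ℝ := {t | T₀ ≤ t ∧ l t ≤ k} with hS
  have hSne : S.Nonempty := ⟨T₀, le_rfl, h⟩
  have hSb : BddAbove S := by
    refine ⟨M, fun t ht => ?_⟩
    by_contra hcon
    exact absurd ht.2 (not_le.2 (hM t (not_le.1 hcon).le))
  have hSc : IsClosed S :=
    (isClosed_le continuous_const continuous_id).inter (isClosed_le hl continuous_const)
  have hTS : sSup S ∈ S := hSc.csSup_mem hSne hSb
  set T := sSup S with hT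
  have hgt : ∀ t, T < t → k < l t := by
    intro t ht
    by_contra hcon
    have : t ∈ S := ⟨hTS.1.trans ht.le, not_lt.1 hcon⟩
    exact absurd (le_csSup hSb this) (not_le.2 ht)
  have hlT : l T = k := by
    refine le_antisymm hTS.2 ?_
    have h1 : Tendsto l (𝓝[>] T) (𝓝 (l T)) := (hl.tendsto T).mono_left nhdsWithin_le_nhds
    refine ge_of_tendsto h1 ?_
    filter_upwards [self_mem_nhdsWithin] with t ht
    exact (hgt t ht).le
  refine ⟨T, hTS.1, hlT, fun t ht => ?_⟩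
  rcases ht.eq_or_lt with h' | h'
  · rw [← h', hlT]
  · exact (hgt t h').le

theorem dir_nat (i j : Fin n) (k : ℕ) : dir i j (k : ℝ) = EuclideanSpace.single i (1 : ℝ) := by
  have h1 : Real.cos (4 * Real.pi * k) = 1 := by
    rw [show 4 * Real.pi * (k : ℝ) = ((2 * k : ℕ) : ℝ) * (2 * Real.pi) by push_cast; ring]
    exact Real.cos_nat_mul_two_pi _
  have h2 : Real.sin (4 * Real.pi * k) = 0 := by
    rw [show 4 * Real.pi * (k : ℝ) = ((4 * k : ℕ) : ℝ) * Real.pi by push_cast; ring]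
    exact Real.sin_nat_mul_pi _
  rw [dir, h1, h2, one_smul, zero_smul, add_zero]

theorem dir_nat_quarter (i j : Fin n) (k : ℕ) :
    dir i j ((k : ℝ) + 1 / 4) = -EuclideanSpace.single i (1 : ℝ) := by
  have h1 : Real.cos (4 * Real.pi * (k + 1 / 4)) = -1 := by
    rw [show 4 * Real.pi * ((k : ℝ) + 1 / 4) = Real.pi + ((2 * k : ℕ) : ℝ) * (2 * Real.pi) by
      push_cast; ring]
    rw [Real.cos_add_nat_mul_two_pi, Real.cos_pi]
  have h2 : Real.sin (4 * Real.pi * (k + 1 / 4)) = 0 := by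
    rw [show 4 * Real.pi * ((k : ℝ) + 1 / 4) = ((4 * k + 1 : ℕ) : ℝ) * Real.pi by
      push_cast; ring]
    exact Real.sin_nat_mul_pi _
  rw [dir, h1, h2, zero_smul, add_zero, neg_one_smul]

theorem limit_branch {c : ℕ → (ℕ → Bool) → E n} (hc : Adapted c) {i j : Fin n} (hij : i ≠ j)
    {l u : ℝ → ℝ} (hl : Continuous l) (hu : Continuous u) (hlt : Tendsto l atTop atTop) {a : E n}
    (hlim : Tendsto (fun t => Psi c i j (l t) (u t)) atTop (𝓝 a)) : a ∈ limits c := by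
  obtain ⟨T₀, hT₀⟩ : ∃ T₀, ∀ t, T₀ ≤ t → ‖Psi c i j (l t) (u t)‖ < ‖a‖ + 1 :=
    eventually_atTop.1 ((hlim.norm).eventually_lt_const (by linarith : ‖a‖ < ‖a‖ + 1))
  obtain ⟨k₀, hk₀⟩ := exists_nat_ge (max (‖a‖ + 1) (l T₀))
  have hk₁ : ‖a‖ + 1 ≤ k₀ := (le_max_left _ _).trans hk₀
  have hk₂ : l T₀ ≤ k₀ := (le_max_right _ _).trans hk₀
  have hT : ∀ k : ℕ, k₀ ≤ k → ∃ T, T₀ ≤ T ∧ l T = k ∧ ∀ t, T ≤ t → (k : ℝ) ≤ l t := by
    intro k hk
    exact exists_last hl hlt (hk₂.trans (Nat.cast_le.2 hk))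
  choose! T hT0 hT1 hT2 using hT
  -- the point is close to an interval
  have hclose : ∀ k : ℕ, k₀ ≤ k → ∀ t, T k ≤ t → ∃ b, dJ b k (u t) < 1 / (4 * 3 ^ k) := by
    intro k hk t ht
    by_contra hcon
    push Not at hcon
    have hkl : (k : ℝ) ≤ l t := hT2 k hk t ht
    have h0 : (0 : ℝ) ≤ l t := (Nat.cast_nonneg k).trans hkl
    have hkj : k ≤ ⌊l t⌋₊ := Nat.le_floor hkl
    have hw := Psi_wall c hij (k := ⌊l t⌋₊) (l := l t) (u := u t) (Nat.floor_le h0)
      (Nat.lt_floor_add_one _) (fun b => by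
        refine le_trans ?_ ((hcon b).trans (dJ_mono b hkj _))
        have h3 : (3 : ℝ) ^ k ≤ 3 ^ ⌊l t⌋₊ := pow_le_pow_right₀ (by norm_num) hkj
        exact one_div_le_one_div_of_le (by positivity) (by linarith))
    have h4 := hT₀ t ((hT0 k hk).trans ht)
    have h5 : (k₀ : ℝ) ≤ (⌊l t⌋₊ : ℝ) := Nat.cast_le.2 (hk.trans hkj)
    linarith
  -- one word for all large times
  have hword : ∀ k : ℕ, k₀ ≤ k → ∃ b, ∀ t, T k ≤ t → dJ b k (u t) < 1 / (4 * 3 ^ k) := by
    intro k hk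
    obtain ⟨b, hb⟩ := hclose k hk (T k) le_rfl
    refine ⟨b, ?_⟩
    have hcont : ∀ b' : ℕ → Bool, Continuous fun t => dJ b' k (u t) := by
      intro b'
      unfold dJ
      fun_prop
    set U : Set ℝ := {t | dJ b k (u t) < 1 / (4 * 3 ^ k)} with hU
    set V : Set ℝ := ⋃ b' : ℕ → Bool, ⋃ _ : ∃ i < k, b i ≠ b' i,
      {t | dJ b' k (u t) < 1 / (4 * 3 ^ k)} with hV
    have hUo : IsOpen U := isOpen_lt (hcont b) continuous_const
    have hVo : IsOpen V := isOpen_iUnion fun b' => isOpen_iUnion fun _ =>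
      isOpen_lt (hcont b') continuous_const
    have hUV : Disjoint U V := by
      rw [Set.disjoint_left]
      intro t ht ht'
      simp only [hV, mem_iUnion, exists_prop] at ht'
      obtain ⟨b', hne, ht'⟩ := ht'
      have h1 := dJ_sep hne ht
      have h2 : (1 : ℝ) / (4 * 3 ^ k) < 1 / (2 * 3 ^ k) :=
        one_div_lt_one_div_of_lt (by positivity)
          (by nlinarith [pow_pos (by norm_num : (0 : ℝ) < 3) k])
      exact absurd (lt_of_le_of_lt h1 ht') (not_lt.2 h2.le)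
    have hsub : Ici (T k) ⊆ U ∪ V := by
      intro t ht
      obtain ⟨b', hb'⟩ := hclose k hk t ht
      by_cases hag : ∀ i < k, b i = b' i
      · left
        change dJ b k (u t) < _
        rwa [dJ_congr hag]
      · right
        push Not at hag
        simp only [hV, mem_iUnion, exists_prop]
        exact ⟨b', hag, hb'⟩
    have hfin := isPreconnected_Ici.subset_left_of_subset_union hUo hVo hUV hsub
      ⟨T k, Set.mem_Ici.2 le_rfl, hb⟩
    exact fun t ht => hfin ht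
  choose! B hB using hword
  have hcons : ∀ k k' : ℕ, k₀ ≤ k → k ≤ k' → ∀ i < k, B k i = B k' i := by
    intro k k' hk hkk'
    by_contra hcon
    push Not at hcon
    have h1 := hB k hk (max (T k) (T k')) (le_max_left _ _)
    have h2 := hB k' (hk.trans hkk') (max (T k) (T k')) (le_max_right _ _)
    have h3 := dJ_sep hcon h1
    have h4 := dJ_mono (B k') hkk' (u (max (T k) (T k')))
    have h5 : (3 : ℝ) ^ k ≤ 3 ^ k' := pow_le_pow_right₀ (by norm_num) hkk'
    have h6 : (1 : ℝ) / (4 * 3 ^ k') ≤ 1 / (4 * 3 ^ k) :=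
      one_div_le_one_div_of_le (by positivity) (by linarith)
    have h7 : (1 : ℝ) / (4 * 3 ^ k) < 1 / (2 * 3 ^ k) :=
      one_div_lt_one_div_of_lt (by positivity)
        (by nlinarith [pow_pos (by norm_num : (0 : ℝ) < 3) k])
    linarith
  refine ⟨fun i => B (max k₀ (i + 1)) i, ?_⟩
  have hagree : ∀ k, k₀ ≤ k → ∀ i < k, B (max k₀ (i + 1)) i = B k i := by
    intro k hk i hi
    exact hcons _ _ (le_max_left _ _) (max_le hk hi) i
      (lt_of_lt_of_le (Nat.lt_succ_self i) (le_max_right _ _))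
  rw [Metric.tendsto_atTop]
  intro ε hε
  obtain ⟨T', hT'⟩ : ∃ T', ∀ t, T' ≤ t → ‖Psi c i j (l t) (u t) - a‖ < ε / 4 := by
    have h1 := (tendsto_iff_norm_sub_tendsto_zero.1 hlim).eventually_lt_const
      (by linarith : (0 : ℝ) < ε / 4)
    exact eventually_atTop.1 h1
  obtain ⟨M, hM⟩ : ∃ M, ∀ t ∈ Icc T₀ T', l t ≤ M := by
    obtain ⟨M, hM⟩ := (isCompact_Icc (a := T₀) (b := T')).bddAbove_image hl.continuousOn
    exact ⟨M, fun t ht => hM (mem_image_of_mem _ ht)⟩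
  obtain ⟨N, hN⟩ := exists_nat_gt M
  refine ⟨max k₀ N, fun k hk => ?_⟩
  have hk0 : k₀ ≤ k := (le_max_left _ _).trans hk
  have hkN : N ≤ k := (le_max_right _ _).trans hk
  have hTT' : T' < T k := by
    by_contra hcon
    have h1 := hM (T k) ⟨hT0 k hk0, not_lt.1 hcon⟩
    rw [hT1 k hk0] at h1
    have h2 : (N : ℝ) ≤ k := Nat.cast_le.2 hkN
    linarith
  have hcb : c k (fun i => B (max k₀ (i + 1)) i) = c k (B k) := hc k _ _ (hagree k hk0)
  -- first test time
  have e1 : Psi c i j (l (T k)) (u (T k)) =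
      c k (B k) + wall c k (u (T k)) • EuclideanSpace.single i (1 : ℝ) := by
    rw [hT1 k hk0, Psi, strip_low _ _ le_rfl (by linarith), strip_low _ _ le_rfl (by linarith),
      cen_eq hc (hB k hk0 _ le_rfl), dir_nat]
  -- second test time
  obtain ⟨t', ht', hlt'⟩ : ∃ t', T k ≤ t' ∧ l t' = (k : ℝ) + 1 / 4 := by
    obtain ⟨M', hM'⟩ := eventually_atTop.1 (hlt.eventually_ge_atTop ((k : ℝ) + 1 / 4))
    have h1 : T k ≤ max (T k) M' := le_max_left _ _
    have h2 := intermediate_value_Icc h1 hl.continuousOn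
    obtain ⟨t', ht', h3⟩ := h2 (show (k : ℝ) + 1 / 4 ∈ Icc (l (T k)) (l (max (T k) M')) from
      ⟨by rw [hT1 k hk0]; linarith, hM' _ (le_max_right _ _)⟩)
    exact ⟨t', ht'.1, h3⟩
  have e2 : Psi c i j (l t') (u t') =
      c k (B k) + wall c k (u t') • (-EuclideanSpace.single i (1 : ℝ)) := by
    rw [hlt', Psi, strip_low (k := k) _ _ (by linarith) (by linarith),
      strip_low (k := k) _ _ (by linarith) (by linarith), cen_eq hc (hB k hk0 _ ht'), dir_nat_quarter]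
  have h1 := hT' (T k) hTT'.le
  have h2 := hT' t' (hTT'.le.trans ht')
  rw [e1] at h1
  rw [e2] at h2
  set e : E n := EuclideanSpace.single i (1 : ℝ) with he
  have hnorm : ‖e‖ = 1 := by rw [he]; simp
  have hw1 : 0 ≤ wall c k (u (T k)) := wall_nonneg c k _
  have hw2 : 0 ≤ wall c k (u t') := wall_nonneg c k _
  have h3 : wall c k (u (T k)) + wall c k (u t') < ε / 2 := by
    have h4 : (wall c k (u (T k)) + wall c k (u t')) • e =
        (c k (B k) + wall c k (u (T k)) • e - a) - (c k (B k) + wall c k (u t') • (-e) - a) := by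
      rw [add_smul, smul_neg]
      abel
    have h5 : ‖(wall c k (u (T k)) + wall c k (u t')) • e‖ =
        wall c k (u (T k)) + wall c k (u t') := by
      rw [norm_smul, hnorm, mul_one, Real.norm_eq_abs, abs_of_nonneg (by linarith)]
    rw [← h5, h4]
    refine lt_of_le_of_lt (norm_sub_le _ _) ?_
    linarith
  rw [dist_eq_norm, hcb]
  have h6 : c k (B k) - a = (c k (B k) + wall c k (u (T k)) • e - a) -
      wall c k (u (T k)) • e := by abel
  have h7 : ‖wall c k (u (T k)) • e‖ = wall c k (u (T k)) := by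
    rw [norm_smul, hnorm, mul_one, Real.norm_eq_abs, abs_of_nonneg hw1]
  rw [h6]
  refine lt_of_le_of_lt (norm_sub_le _ _) ?_
  rw [h7]
  linarith

end QRAsym
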