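import Pool.Agent.Lib_MP_53ae57.H2_Walls
import Pool.Agent.Lib_MP_53ae57.D1_Slow
import Pool.Agent.Lib_MP_53ae57.A2_SineBasic

/-!
[QR-J2] The asymptotic curve of a branch.

`limit_curve`: at `u = cantorPt b`: `dJ b k u = 0` for all `k`, so `cen c k u = c k b` and `wall c k u = 0`.
For `l ≥ 0`, `k = ⌊l⌋₊`: `Psi = (1-λ) c k b + λ c (k+1) b`, `λ ∈ [0,1]` (`strip_mix`), and `k → ∞`.
`exists_curve`: let `q = cantorPt b / 2 ∈ [0, 1/2]`, `r t = |t| + 2R`, and let `γ t` have coordinates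
`q r` at `i`, `√(r² (1 - q²) - R²)` at `j` (the radicand is `≥ 3r²/4 - R² ≥ 0`), `0` elsewhere. Then
`‖γ t‖² = r² - R²`, so `rho R (γ t) = r t → ∞`, `2 (γ t)_i / rho R (γ t) = cantorPt b`, and the last
coordinate is `0`.
`limits_subset`: along this curve `h (γ t) = Psi c i j (L (log (r t))) (cantorPt b) → a`, and
`‖(√ρ)⁻¹ • sine‖ ≤ (√(r t))⁻¹ (m+1) e^0 → 0` (`norm_sine_le`).
-/

open Set Filter Topology

namespace QRAsym

theorem limit_curve {n : ℕ} {c : ℕ → (ℕ → Bool) → E n} (hc : Adapted c) {i j : Fin n}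
    {b : ℕ → Bool} {a : E n} (h : Tendsto (fun k => c k b) atTop (𝓝 a)) :
    Tendsto (fun l => Psi c i j l (cantorPt b)) atTop (𝓝 a) := by
  have hdJ : ∀ k, dJ b k (cantorPt b) = 0 := dJ_cantorPt b
  have hcen : ∀ k, cen c k (cantorPt b) = c k b := by
    intro k
    refine cen_eq hc ?_
    rw [hdJ]
    positivity
  have hwall : ∀ k, wall c k (cantorPt b) = 0 := fun k => wall_zero c (hdJ k)
  have e : ∀ l : ℝ, Psi c i j l (cantorPt b) =
      c ⌊l⌋₊ b + clamp (2 * (l - ⌊l⌋₊) - 1) • (c (⌊l⌋₊ + 1) b - c ⌊l⌋₊ b) := by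
    intro l
    rw [Psi, strip, strip, hcen, hcen, hwall, hwall, sub_self, smul_zero, add_zero, zero_smul,
      add_zero]
  have hfl : Tendsto (fun l : ℝ => ⌊l⌋₊) atTop atTop := tendsto_nat_floor_atTop
  have h1 : Tendsto (fun l : ℝ => c ⌊l⌋₊ b) atTop (𝓝 a) := h.comp hfl
  have h2 : Tendsto (fun l : ℝ => c (⌊l⌋₊ + 1) b) atTop (𝓝 a) :=
    h.comp ((tendsto_add_atTop_nat 1).comp hfl)
  have h3 : Tendsto (fun l : ℝ => c (⌊l⌋₊ + 1) b - c ⌊l⌋₊ b) atTop (𝓝 0) := by
    have := h2.sub h1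
    rwa [sub_self] at this
  have h4 : Tendsto (fun l : ℝ => clamp (2 * (l - ⌊l⌋₊) - 1) •
      (c (⌊l⌋₊ + 1) b - c ⌊l⌋₊ b)) atTop (𝓝 0) := by
    refine squeeze_zero_norm (fun l => ?_) (tendsto_zero_iff_norm_tendsto_zero.1 h3)
    rw [norm_smul, Real.norm_of_nonneg (clamp_nonneg _)]
    exact mul_le_of_le_one_left (norm_nonneg _) (clamp_le_one _)
  have h5 := h1.add h4
  rw [add_zero] at h5
  exact h5.congr fun l => (e l).symm

variable {m : ℕ}

theorem exists_curve {R : ℝ} (hR : 0 < R) {i j : Fin (m + 1)} (hij : i ≠ j)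
    (hi : i ≠ Fin.last m) (hj : j ≠ Fin.last m) (b : ℕ → Bool) :
    ∃ γ : ℝ → E (m + 1), Continuous γ ∧ Tendsto (fun t => rho R (γ t)) atTop atTop ∧
      (∀ t, 2 * γ t i / rho R (γ t) = cantorPt b) ∧ ∀ t, γ t (Fin.last m) = 0 := by
  obtain ⟨hq0, hq1⟩ := cantorPt_mem b
  set q : ℝ := cantorPt b / 2 with hq
  have hq2 : q ^ 2 ≤ 1 / 4 := by
    have h0 : 0 ≤ q := by positivity
    have h1 : q ≤ 1 / 2 := by
      rw [hq]
      linarith
    nlinarith
  let r : ℝ → ℝ := fun t => |t| + 2 * R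
  have hr : ∀ t, 2 * R ≤ r t := fun t => le_add_of_nonneg_left (abs_nonneg t)
  have hr0 : ∀ t, 0 < r t := fun t => lt_of_lt_of_le (by linarith) (hr t)
  let s : ℝ → ℝ := fun t => Real.sqrt (r t ^ 2 * (1 - q ^ 2) - R ^ 2)
  have hrad : ∀ t, 0 ≤ r t ^ 2 * (1 - q ^ 2) - R ^ 2 := by
    intro t
    have h1 : (2 * R) ^ 2 ≤ r t ^ 2 := pow_le_pow_left₀ (by linarith) (hr t) 2
    have h2 : r t ^ 2 * (3 / 4) ≤ r t ^ 2 * (1 - q ^ 2) :=
      mul_le_mul_of_nonneg_left (by linarith) (sq_nonneg _)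
    nlinarith [sq_nonneg R]
  let ei : E (m + 1) := EuclideanSpace.single i (1 : ℝ)
  let ej : E (m + 1) := EuclideanSpace.single j (1 : ℝ)
  let γ : ℝ → E (m + 1) := fun t => (q * r t) • ei + s t • ej
  have hco : ∀ t k, γ t k = q * r t * (if k = i then 1 else 0) + s t * (if k = j then 1 else 0) := by
    intro t k
    change (q * r t) * ei k + s t * ej k = _
    rw [show ei k = if k = i then (1 : ℝ) else 0 from PiLp.single_apply 2 ℝ i 1 k,
      show ej k = if k = j then (1 : ℝ) else 0 from PiLp.single_apply 2 ℝ j 1 k]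
  have hrc : Continuous r := by
    change Continuous fun t : ℝ => |t| + 2 * R
    fun_prop
  have hsc : Continuous s := by
    change Continuous fun t : ℝ => Real.sqrt (r t ^ 2 * (1 - q ^ 2) - R ^ 2)
    fun_prop
  have hnorm : ∀ t, ‖γ t‖ ^ 2 = r t ^ 2 - R ^ 2 := by
    intro t
    rw [EuclideanSpace.norm_sq_eq]
    have h1 : ∀ k, ‖γ t k‖ ^ 2 = (q * r t) ^ 2 * (if k = i then 1 else 0) +
        s t ^ 2 * (if k = j then 1 else 0) := by
      intro k
      rw [hco, Real.norm_eq_abs, sq_abs]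
      by_cases hki : k = i
      · have hkj : k ≠ j := fun h => hij (hki.symm.trans h)
        rw [if_pos hki, if_neg hkj]
        ring
      · by_cases hkj : k = j
        · rw [if_neg hki, if_pos hkj]
          ring
        · rw [if_neg hki, if_neg hkj]
          ring
    rw [Finset.sum_congr rfl fun k _ => h1 k, Finset.sum_add_distrib, ← Finset.mul_sum,
      ← Finset.mul_sum, Finset.sum_ite_eq' Finset.univ i, Finset.sum_ite_eq' Finset.univ j,
      if_pos (Finset.mem_univ _), if_pos (Finset.mem_univ _)]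
    change (q * r t) ^ 2 * 1 + Real.sqrt (r t ^ 2 * (1 - q ^ 2) - R ^ 2) ^ 2 * 1 = _
    rw [Real.sq_sqrt (hrad t)]
    ring
  have hrho : ∀ t, rho R (γ t) = r t := by
    intro t
    rw [rho, hnorm, add_sub_cancel, Real.sqrt_sq (hr0 t).le]
  refine ⟨γ, ?_, ?_, ?_, ?_⟩
  · exact ((continuous_const.mul hrc).smul continuous_const).add (hsc.smul continuous_const)
  · refine Tendsto.congr (fun t => (hrho t).symm) ?_
    exact tendsto_atTop_add_const_right _ _ tendsto_abs_atTop_atTop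
  · intro t
    rw [hrho, hco, if_pos rfl, if_neg hij]
    have := hr0 t
    rw [hq]
    field_simp
    ring
  · intro t
    rw [hco, if_neg (Ne.symm hi), if_neg (Ne.symm hj)]
    ring

theorem limits_subset {c : ℕ → (ℕ → Bool) → E (m + 1)} (hc : Adapted c) {i j : Fin (m + 1)}
    (hij : i ≠ j) (hi : i ≠ Fin.last m) (hj : j ≠ Fin.last m) {R : ℝ} (hR : 0 < R) {L : ℝ → ℝ}
    (hL : Tendsto L atTop atTop) :
    limits c ⊆ asymptoticValues
      (bigMap R (fun x => Psi c i j (L (Real.log (rho R x))) (2 * x i / rho R x))) := by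
  rintro a ⟨b, hb⟩
  obtain ⟨γ, hγ, hrho, hu, hlast⟩ := exists_curve hR hij hi hj b
  refine ⟨γ, hγ, ?_, ?_⟩
  · refine tendsto_atTop_mono (fun t => ?_) (tendsto_atTop_add_const_right _ (-R) hrho)
    have := rho_le hR.le (γ t)
    linarith
  · have h1 : Tendsto (fun t => Psi c i j (L (Real.log (rho R (γ t)))) (cantorPt b)) atTop (𝓝 a) :=
      (limit_curve hc hb).comp (hL.comp (Real.tendsto_log_atTop.comp hrho))
    have h2 : Tendsto (fun t => (Real.sqrt (rho R (γ t)))⁻¹ • sine (γ t)) atTop (𝓝 0) := by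
      have h3 : Tendsto (fun t => (Real.sqrt (rho R (γ t)))⁻¹ * ((m : ℝ) + 1)) atTop (𝓝 0) := by
        have h4 : Tendsto (fun t => (Real.sqrt (rho R (γ t)))⁻¹) atTop (𝓝 0) :=
          tendsto_inv_atTop_zero.comp (Real.tendsto_sqrt_atTop.comp hrho)
        have h5 := h4.mul_const ((m : ℝ) + 1)
        rwa [zero_mul] at h5
      refine squeeze_zero_norm (fun t => ?_) h3
      rw [norm_smul, Real.norm_of_nonneg (by positivity)]
      refine mul_le_mul_of_nonneg_left ?_ (by positivity)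
      have h6 := norm_sine_le (γ t)
      rwa [hlast, abs_zero, Real.exp_zero, mul_one] at h6
    have h7 := h1.add h2
    rw [add_zero] at h7
    refine h7.congr fun t => ?_
    rw [bigMap, hu]

end QRAsym
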