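import Pool.Agent.Lib_MP_53ae57.Defs

/-!
[QR-K] Every analytic set is the set of limits of an adapted function on the binary tree.

Proof. `A = ∅`: `c k b = (k : ℝ) • e`, `e ≠ 0`: no limits. Otherwise (`MeasureTheory.AnalyticSet`) there is a
continuous `f : (ℕ → ℕ) → E n` with range `A`. For `b : ℕ → Bool` and `k` let `p = fun i => b i = true ∧ i < k`,
`M k b = Nat.count (fun i => b i = true) k` (number of ones below `k`) and
`s k b i = if i < M k b then (Nat.unpair (Nat.nth p i)).1 else 0`.
`c k b = f (s k b) + (if k is odd then 1/(M k b + 1) else 0) • e`, `e = EuclideanSpace.single i 1`.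
(1) `b` with infinitely many ones: `M k b → ∞`, for each `i` eventually `s k b i = σ i`,
`σ i = (Nat.unpair (Nat.nth (b · = true) i)).1`, so `s k b → σ`, and `c k b → f σ ∈ A`.
(2) `b` with finitely many ones: `M k b` and `s k b` are eventually constant and `c k b` takes alternately
the values `P` and `P + e/(M+1)`: no limit.
(3) Surjectivity: given `σ` choose a strictly increasing `φ : ℕ → ℕ` with `(Nat.unpair (φ i)).1 = σ i`
and `b i = decide (i ∈ range φ)`; then `Nat.nth (b · = true) = φ`.
-/

open Set Filter Topology MeasureTheory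

namespace QRAsym

/-- the number of ones below `k` -/
noncomputable def onesBelow (k : ℕ) (b : ℕ → Bool) : ℕ := by
  classical
  exact Nat.count (fun i => b i = true) k

/-- the truncated code -/
noncomputable def code (k : ℕ) (b : ℕ → Bool) (i : ℕ) : ℕ :=
  if i < onesBelow k b then (Nat.unpair (Nat.nth (fun j => b j = true ∧ j < k) i)).1 else 0

theorem onesBelow_congr {k : ℕ} {b b' : ℕ → Bool} (h : ∀ i < k, b i = b' i) :
    onesBelow k b = onesBelow k b' := by
  classical
  unfold onesBelow
  rw [Nat.count_eq_card_filter_range, Nat.count_eq_card_filter_range]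
  congr 1
  refine Finset.filter_congr fun i hi => ?_
  rw [h i (Finset.mem_range.1 hi)]

theorem code_congr {k : ℕ} {b b' : ℕ → Bool} (h : ∀ i < k, b i = b' i) :
    code k b = code k b' := by
  funext i
  unfold code
  have h1 : (fun j => b j = true ∧ j < k) = fun j => b' j = true ∧ j < k := by
    funext j
    apply propext
    constructor
    · rintro ⟨h2, h3⟩
      exact ⟨by rw [← h j h3]; exact h2, h3⟩
    · rintro ⟨h2, h3⟩
      exact ⟨by rw [h j h3]; exact h2, h3⟩
  rw [onesBelow_congr h, h1]

/-- the truncation does not matter -/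
theorem nth_trunc {k i : ℕ} {b : ℕ → Bool} (h : i < onesBelow k b) :
    Nat.nth (fun j => b j = true ∧ j < k) i = Nat.nth (fun j => b j = true) i := by
  classical
  have h' : i < Nat.count (fun j => b j = true) k := by
    unfold onesBelow at h
    exact h
  have hN : Nat.nth (fun j => b j = true) i < k := Nat.nth_lt_of_lt_count h'
  have hcard : ∀ hf : (Set.ofPred fun j => b j = true).Finite, i < hf.toFinset.card := by
    intro hf
    refine lt_of_lt_of_le h' ?_
    rw [Nat.count_eq_card_filter_range]
    apply Finset.card_le_card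
    intro j hj
    rw [Set.Finite.mem_toFinset]
    exact (Finset.mem_filter.1 hj).2
  have hmem : b (Nat.nth (fun j => b j = true) i) = true := Nat.nth_mem i hcard
  have hcount : Nat.count (fun j => b j = true) (Nat.nth (fun j => b j = true) i) = i :=
    Nat.count_nth hcard
  have hcount' : Nat.count (fun j => b j = true ∧ j < k) (Nat.nth (fun j => b j = true) i) = i := by
    refine Eq.trans ?_ hcount
    rw [Nat.count_eq_card_filter_range, Nat.count_eq_card_filter_range]
    congr 1
    refine Finset.filter_congr fun j hj => ?_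
    constructor
    · exact fun h => h.1
    · exact fun h => ⟨h, (Finset.mem_range.1 hj).trans hN⟩
  have h2 := Nat.nth_count (p := fun j => b j = true ∧ j < k)
    (n := Nat.nth (fun j => b j = true) i) ⟨hmem, hN⟩
  rwa [hcount'] at h2

theorem code_eq {k i : ℕ} {b : ℕ → Bool} (h : i < onesBelow k b) :
    code k b i = (Nat.unpair (Nat.nth (fun j => b j = true) i)).1 := by
  unfold code
  rw [if_pos h, nth_trunc h]

theorem lt_onesBelow {b : ℕ → Bool} (hb : (Set.ofPred fun j => b j = true).Infinite) {i k : ℕ}
    (h : Nat.nth (fun j => b j = true) i < k) : i < onesBelow k b := by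
  classical
  unfold onesBelow
  exact (Nat.lt_nth_iff_count_lt hb (a := i) (b := k)).2 h

/-- the value of the coding -/
noncomputable def codeVal {n : ℕ} (i : Fin n) (f : (ℕ → ℕ) → E n) (k : ℕ) (b : ℕ → Bool) : E n :=
  f (code k b) + (if Odd k then 1 / ((onesBelow k b : ℝ) + 1) else 0) •
    EuclideanSpace.single i (1 : ℝ)

/-- infinitely many ones: the coding converges -/
theorem tendsto_codeVal {n : ℕ} (i : Fin n) {f : (ℕ → ℕ) → E n} (hf : Continuous f)
    {b : ℕ → Bool} (hb : (Set.ofPred fun j => b j = true).Infinite) :
    Tendsto (fun k => codeVal i f k b) atTop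
      (𝓝 (f fun j => (Nat.unpair (Nat.nth (fun j => b j = true) j)).1)) := by
  have h1 : Tendsto (fun k => code k b) atTop
      (𝓝 fun j => (Nat.unpair (Nat.nth (fun j => b j = true) j)).1) := by
    rw [tendsto_pi_nhds]
    intro j
    refine tendsto_const_nhds.congr' ?_
    filter_upwards [eventually_gt_atTop (Nat.nth (fun j => b j = true) j)] with k hk
    exact (code_eq (lt_onesBelow hb hk)).symm
  have h2 : Tendsto (fun k => (onesBelow k b : ℝ)) atTop atTop := by
    refine tendsto_natCast_atTop_atTop.comp (tendsto_atTop.2 fun m => ?_)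
    filter_upwards [eventually_gt_atTop (Nat.nth (fun j => b j = true) m)] with k hk
    exact (lt_onesBelow hb hk).le
  have h3 : Tendsto (fun k => (if Odd k then 1 / ((onesBelow k b : ℝ) + 1) else 0)) atTop
      (𝓝 0) := by
    have h4 : Tendsto (fun k => 1 / ((onesBelow k b : ℝ) + 1)) atTop (𝓝 0) := by
      have := (tendsto_atTop_add_const_right atTop (1 : ℝ) h2).inv_tendsto_atTop
      refine this.congr fun k => ?_
      simp
    refine squeeze_zero (fun k => ?_) (fun k => ?_) h4
    · split_ifs
      · positivity
      · exact le_rfl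
    · split_ifs
      · exact le_rfl
      · positivity
  have h4 := (hf.tendsto _).comp h1
  have h5 := h4.add (h3.smul_const (EuclideanSpace.single i (1 : ℝ)))
  rw [zero_smul, add_zero] at h5
  exact h5

/-- finitely many ones: the coding has no limit -/
theorem not_tendsto_codeVal {n : ℕ} (i : Fin n) (f : (ℕ → ℕ) → E n)
    {b : ℕ → Bool} (hb : (Set.ofPred fun j => b j = true).Finite) (a : E n) :
    ¬ Tendsto (fun k => codeVal i f k b) atTop (𝓝 a) := by
  classical
  intro h
  obtain ⟨K, hK⟩ := hb.bddAbove
  have hK' : ∀ j, K < j → b j = false := by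
    intro j hj
    by_contra hne
    rw [Bool.not_eq_false] at hne
    exact absurd (hK hne) (not_le.2 hj)
  have hM : ∀ k, K < k → onesBelow k b = onesBelow (K + 1) b := by
    intro k hk
    unfold onesBelow
    rw [Nat.count_eq_card_filter_range, Nat.count_eq_card_filter_range]
    congr 1
    ext j
    simp only [Finset.mem_filter, Finset.mem_range]
    constructor
    · rintro ⟨_, h2⟩
      refine ⟨?_, h2⟩
      by_contra hn
      rw [hK' j (by omega)] at h2
      exact absurd h2 (by decide)
    · rintro ⟨h1, h2⟩
      exact ⟨by omega, h2⟩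
  have hc : ∀ k, K < k → code k b = code (K + 1) b := by
    intro k hk
    funext j
    by_cases hj : j < onesBelow (K + 1) b
    · rw [code_eq (by rwa [hM k hk]), code_eq hj]
    · unfold code
      rw [if_neg (by rwa [hM k hk]), if_neg hj]
  have hφ : Tendsto (fun k : ℕ => 2 * k) atTop atTop :=
    tendsto_id.const_mul_atTop' (by norm_num)
  have hψ : Tendsto (fun k : ℕ => 2 * k + 1) atTop atTop :=
    tendsto_atTop_mono (fun k => Nat.le_succ _) hφ
  have h1 := h.comp hφ
  have h2 := h.comp hψ
  have e1 : Tendsto ((fun k => codeVal i f k b) ∘ fun k : ℕ => 2 * k) atTop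
      (𝓝 (f (code (K + 1) b))) := by
    refine tendsto_const_nhds.congr' ?_
    filter_upwards [eventually_gt_atTop K] with k hk
    simp only [Function.comp_apply]
    unfold codeVal
    rw [hc (2 * k) (by omega), if_neg (by simp), zero_smul, add_zero]
  have e2 : Tendsto ((fun k => codeVal i f k b) ∘ fun k : ℕ => 2 * k + 1) atTop
      (𝓝 (f (code (K + 1) b) + (1 / ((onesBelow (K + 1) b : ℝ) + 1)) •
        EuclideanSpace.single i (1 : ℝ))) := by
    refine tendsto_const_nhds.congr' ?_
    filter_upwards [eventually_gt_atTop K] with k hk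
    simp only [Function.comp_apply]
    unfold codeVal
    rw [hc (2 * k + 1) (by omega), hM (2 * k + 1) (by omega), if_pos (by simp)]
  have e3 := tendsto_nhds_unique h1 e1
  have e4 := tendsto_nhds_unique h2 e2
  rw [e3] at e4
  have e5 : (1 / ((onesBelow (K + 1) b : ℝ) + 1)) • EuclideanSpace.single i (1 : ℝ)
      = (0 : E n) := by
    have := congrArg (fun x => x - f (code (K + 1) b)) e4
    simpa using this.symm
  rw [smul_eq_zero] at e5
  rcases e5 with e5 | e5
  · have : (0 : ℝ) < 1 / ((onesBelow (K + 1) b : ℝ) + 1) := by positivity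
    exact this.ne' e5
  · have := congrArg (fun x : E n => x i) e5
    simp at this

theorem exists_coding {n : ℕ} (i : Fin n) {A : Set (E n)} (hA : AnalyticSet A) :
    ∃ c : ℕ → (ℕ → Bool) → E n, Adapted c ∧ limits c = A := by
  classical
  rw [AnalyticSet] at hA
  rcases hA with rfl | ⟨f, hf, rfl⟩
  · refine ⟨fun k _ => (k : ℝ) • EuclideanSpace.single i (1 : ℝ), fun _ _ _ _ => rfl, ?_⟩
    rw [Set.eq_empty_iff_forall_notMem]
    rintro a ⟨b, hb⟩
    have h1 : Tendsto (fun k : ℕ => ‖(k : ℝ) • (EuclideanSpace.single i (1 : ℝ) : E n)‖) atTop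
        (𝓝 ‖a‖) := hb.norm
    have h2 : (fun k : ℕ => ‖(k : ℝ) • (EuclideanSpace.single i (1 : ℝ) : E n)‖)
        = fun k : ℕ => (k : ℝ) := by
      funext k
      rw [norm_smul]
      simp
    rw [h2] at h1
    exact not_tendsto_nhds_of_tendsto_atTop tendsto_natCast_atTop_atTop _ h1
  · refine ⟨codeVal i f, ?_, ?_⟩
    · intro k b b' h
      unfold codeVal
      rw [code_congr h, onesBelow_congr h]
    · apply Set.Subset.antisymm
      · rintro a ⟨b, hb⟩
        rcases (Set.ofPred fun j => b j = true).finite_or_infinite with hfin | hinf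
        · exact absurd hb (not_tendsto_codeVal i f hfin a)
        · exact ⟨_, tendsto_nhds_unique (tendsto_codeVal i hf hinf) hb⟩
      · rintro _ ⟨σ, rfl⟩
        -- an increasing sequence of codes
        have hfr : ∀ m : ℕ, ∃ᶠ N in atTop, (Nat.unpair N).1 = σ m := by
          intro m
          rw [Filter.frequently_atTop]
          intro N
          exact ⟨Nat.pair (σ m) N, Nat.right_le_pair _ _, by rw [Nat.unpair_pair]⟩
        obtain ⟨φ, hφ, hφσ⟩ := Filter.extraction_forall_of_frequently hfr
        obtain ⟨b, hb⟩ : ∃ b : ℕ → Bool, ∀ j, b j = true ↔ j ∈ range φ :=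
          ⟨fun j => decide (j ∈ range φ), fun j => by simp⟩
        have hinf : (Set.ofPred fun j => b j = true).Infinite := by
          have h1 : (Set.ofPred fun j => b j = true) = range φ := by
            ext j
            exact hb j
          rw [h1]
          exact Set.infinite_range_of_injective hφ.injective
        have hnth : ∀ m, Nat.nth (fun j => b j = true) m = φ m := by
          intro m
          have h1 := Nat.nth_comp_of_strictMono (p := fun j => b j = true) (n := m) hφ
            (fun k hk => (hb k).1 hk) (fun hfi => absurd hfi hinf)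
          have h2 : (fun j => b (φ j) = true) = fun _ => True := by
            funext j
            exact propext ⟨fun _ => trivial, fun _ => (hb _).2 ⟨j, rfl⟩⟩
          rw [h2, Nat.nth_of_forall (fun _ _ => trivial)] at h1
          exact h1.symm
        refine ⟨b, ?_⟩
        have h1 := tendsto_codeVal i hf hinf
        have h2 : (fun j => (Nat.unpair (Nat.nth (fun j => b j = true) j)).1) = σ := by
          funext j
          rw [hnth, hφσ]
        rw [h2] at h1
        exact h1

end QRAsym
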