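import Pool.Agent.Lib_MP_53ae57.Defs

/-!
[QR-L] The set of asymptotic values of a continuous map is analytic.

Proof. `C(ℝ, E n)` with the compact-open topology is a Polish space: second countable
(`ContinuousMap.instSecondCountableTopology`...), completely metrisable (`CompleteSpace C(ℝ, E n)`
for the compact convergence uniformity, which is countably generated as `ℝ` is σ-compact and weakly
locally compact; `UniformSpace.metrizable...`, `PolishSpace.of_separableSpace_completeSpace_metrizable`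
or `IsCompletelyMetrizableSpace`). So `C(ℝ, E n) × E n` is Polish. With
`B = {(γ, a) : ‖γ t‖ → ∞, f (γ t) → a} = ⋂_{N : ℕ} ⋃_{T : ℕ} ⋂_{t : ℝ, t ≥ T} {‖f (γ t) - a‖ ≤ 1/(N+1), ‖γ t‖ ≥ N}`
the innermost intersection is closed (evaluation at `t` is continuous), so `B` is Borel, so analytic
(`MeasurableSet.analyticSet`), and `asymptoticValues f` is its image under the second projection
(`AnalyticSet.image_of_continuous`).
-/

open Set Filter Topology MeasureTheory

namespace QRAsym

theorem asymptoticValues_analytic {n : ℕ} {f : E n → E n} (hf : Continuous f) :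
    AnalyticSet (asymptoticValues f) := by
  borelize (C(ℝ, E n) × E n)
  obtain ⟨B, hBdef⟩ : ∃ B : Set (C(ℝ, E n) × E n), B = ⋂ N : ℕ, ⋃ T : ℕ, ⋂ t : ℝ,
      ⋂ (_ : (T : ℝ) ≤ t), {p | ‖f (p.1 t) - p.2‖ ≤ 1 / ((N : ℝ) + 1) ∧ (N : ℝ) ≤ ‖p.1 t‖} :=
    ⟨_, rfl⟩
  have hB : MeasurableSet B := by
    rw [hBdef]
    refine MeasurableSet.iInter fun N => MeasurableSet.iUnion fun T => IsClosed.measurableSet ?_
    refine isClosed_iInter fun t => isClosed_iInter fun _ => ?_
    have h1 : Continuous fun p : C(ℝ, E n) × E n => p.1 t :=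
      (continuous_eval_const t).comp continuous_fst
    exact (isClosed_le ((hf.comp h1).sub continuous_snd).norm continuous_const).inter
      (isClosed_le continuous_const h1.norm)
  have hmem : ∀ p : C(ℝ, E n) × E n, p ∈ B ↔
      Tendsto (fun t => ‖p.1 t‖) atTop atTop ∧ Tendsto (fun t => f (p.1 t)) atTop (𝓝 p.2) := by
    intro p
    rw [hBdef]
    simp only [mem_iInter, mem_iUnion]
    constructor
    · intro h
      constructor
      · rw [tendsto_atTop]
        intro b
        obtain ⟨N, hN⟩ := exists_nat_ge b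
        obtain ⟨T, hT⟩ := h N
        filter_upwards [eventually_ge_atTop (T : ℝ)] with t ht
        exact hN.trans (hT t ht).2
      · rw [Metric.tendsto_atTop]
        intro ε hε
        obtain ⟨N, hN⟩ := exists_nat_one_div_lt hε
        obtain ⟨T, hT⟩ := h N
        refine ⟨T, fun t ht => ?_⟩
        rw [dist_eq_norm]
        exact lt_of_le_of_lt (hT t ht).1 hN
    · rintro ⟨h1, h2⟩ N
      have h3 : ∀ᶠ t : ℝ in atTop, (N : ℝ) ≤ ‖p.1 t‖ := (tendsto_atTop.1 h1) N
      have h4 : ∀ᶠ t : ℝ in atTop, dist (f (p.1 t)) p.2 < 1 / ((N : ℝ) + 1) :=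
        (Metric.tendsto_nhds.1 h2) _ (by positivity)
      obtain ⟨T₀, hT₀⟩ := eventually_atTop.1 (h3.and h4)
      obtain ⟨T, hT⟩ := exists_nat_ge T₀
      refine ⟨T, fun t ht => ⟨?_, (hT₀ t (hT.trans ht)).1⟩⟩
      rw [← dist_eq_norm]
      exact (hT₀ t (hT.trans ht)).2.le
  have heq : asymptoticValues f = Prod.snd '' B := by
    ext a
    constructor
    · rintro ⟨γ, hγ, h1, h2⟩
      exact ⟨(⟨γ, hγ⟩, a), (hmem _).2 ⟨h1, h2⟩, rfl⟩
    · rintro ⟨p, hp, rfl⟩
      obtain ⟨h1, h2⟩ := (hmem p).1 hp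
      exact ⟨p.1, p.1.continuous, h1, h2⟩
  rw [heq]
  exact hB.analyticSet.image_of_continuous continuous_snd

end QRAsym
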