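import Pool.Agent.Lib_MP_53ae57.A2_SineBasic
import Pool.Agent.Lib_MP_53ae57.D1_Slow
import Pool.Agent.Lib_MP_53ae57.E1_RadHomeo

/-!
[QR-M1] Growth and non-constancy.

`growth`: `‖bigMap R h y‖ ≤ rho R y + (√ρ)⁻¹ (m+1) e^|y_last| ≤ R + ‖y‖ + (m+1) e^‖y‖ ≤ (R + m + 2) e^‖y‖`
(`rho_le`, `norm_sine_le`, `√ρ ≥ 1`, `|y_last| ≤ ‖y‖`). With `y = rad κ x`, `‖y‖ ≤ (1+‖x‖²)^(κ/2) ≤
(2‖x‖²)^(κ/2) ≤ 2 ‖x‖^κ` for `‖x‖ ≥ 1` (`norm_rad_le`). So it suffices that
`log (R + m + 2) + 2 r^κ ≤ r^δ` for large `r` (`κ < δ`: `isLittleO_rpow_rpow`/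
`tendsto_rpow_atTop`).
`nonconst`: if `bigMap R h` were constant, `= w`, then along `y = t e_last`
`(e^t - 1)/√(R + t) ≤ ‖w‖ + ‖h y‖ ≤ ‖w‖ + R + t` for all `t ≥ 0` (`norm_sine_axis`, `rho_le`), false
for large `t`.
-/

open Set Filter Topology

namespace QRAsym

variable {m : ℕ}

private theorem abs_last_le (x : E (m + 1)) : |x (Fin.last m)| ≤ ‖x‖ := by
  have h := PiLp.norm_apply_le x (Fin.last m)
  rwa [Real.norm_eq_abs] at h

private theorem norm_bigMap_le {R : ℝ} (hR : 1 ≤ R) {h : E (m + 1) → E (m + 1)}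
    (hg : ∀ x, ‖h x‖ ≤ rho R x) (y : E (m + 1)) :
    ‖bigMap R h y‖ ≤ (R + m + 2) * Real.exp ‖y‖ := by
  have hR0 : (0 : ℝ) ≤ R := by linarith
  have h1 : (1 : ℝ) ≤ Real.sqrt (rho R y) := by
    rw [Real.one_le_sqrt]
    exact hR.trans (le_rho hR0 y)
  have h2 : (Real.sqrt (rho R y))⁻¹ ≤ 1 := inv_le_one_of_one_le₀ h1
  have h20 : 0 ≤ (Real.sqrt (rho R y))⁻¹ := by positivity
  have h3 : ‖(Real.sqrt (rho R y))⁻¹ • sine y‖ ≤ (m + 1) * Real.exp ‖y‖ := by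
    rw [norm_smul, Real.norm_of_nonneg h20]
    calc (Real.sqrt (rho R y))⁻¹ * ‖sine y‖ ≤ 1 * ((m + 1) * Real.exp |y (Fin.last m)|) :=
          mul_le_mul h2 (norm_sine_le y) (norm_nonneg _) zero_le_one
      _ = (m + 1) * Real.exp |y (Fin.last m)| := one_mul _
      _ ≤ (m + 1) * Real.exp ‖y‖ :=
          mul_le_mul_of_nonneg_left (Real.exp_le_exp.2 (abs_last_le y)) (by positivity)
  have h4 : ‖h y‖ ≤ R + ‖y‖ := (hg y).trans (rho_le hR0 y)
  have h5 : ‖y‖ + 1 ≤ Real.exp ‖y‖ := Real.add_one_le_exp _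
  have h6 : (1 : ℝ) ≤ Real.exp ‖y‖ := Real.one_le_exp (norm_nonneg _)
  have h7 : R ≤ R * Real.exp ‖y‖ := le_mul_of_one_le_right hR0 h6
  calc ‖bigMap R h y‖ ≤ ‖h y‖ + ‖(Real.sqrt (rho R y))⁻¹ • sine y‖ := norm_add_le _ _
    _ ≤ (R + ‖y‖) + (m + 1) * Real.exp ‖y‖ := add_le_add h4 h3
    _ ≤ (R + m + 2) * Real.exp ‖y‖ := by nlinarith

theorem growth (m : ℕ) {κ δ : ℝ} (hκ : 0 < κ) (hκ1 : κ ≤ 1) (hδ : κ < δ) {R : ℝ} (hR : 1 ≤ R)
    {h : E (m + 1) → E (m + 1)} (hg : ∀ x, ‖h x‖ ≤ rho R x) :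
    ∃ R₀ : ℝ, ∀ x : E (m + 1), R₀ ≤ ‖x‖ → ‖bigMap R h (rad κ x)‖ ≤ Real.exp (‖x‖ ^ δ) := by
  have hA : (1 : ℝ) ≤ R + m + 2 := by
    have : (0 : ℝ) ≤ m := Nat.cast_nonneg m
    linarith
  set C : ℝ := Real.log (R + m + 2) with hC
  have hC0 : 0 ≤ C := Real.log_nonneg hA
  have ht : Tendsto (fun r : ℝ => r ^ (δ - κ)) atTop atTop := tendsto_rpow_atTop (by linarith)
  obtain ⟨R₁, hR₁⟩ := eventually_atTop.1 (ht.eventually_ge_atTop (C + 2))
  refine ⟨max R₁ 1, fun x hx => ?_⟩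
  set r := ‖x‖ with hr
  have hr1 : 1 ≤ r := (le_max_right _ _).trans hx
  have hr0 : 0 < r := by linarith
  have hrR : C + 2 ≤ r ^ (δ - κ) := hR₁ r ((le_max_left _ _).trans hx)
  have hk1 : 1 ≤ r ^ κ := Real.one_le_rpow hr1 hκ.le
  have h1 : ‖rad κ x‖ ≤ 2 * r ^ κ := by
    calc ‖rad κ x‖ ≤ (1 + r ^ 2) ^ (κ / 2) := norm_rad_le hκ hκ1 x
      _ ≤ (2 * r ^ 2) ^ (κ / 2) := by
          apply Real.rpow_le_rpow (by positivity) _ (by linarith)
          nlinarith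
      _ = 2 ^ (κ / 2) * (r ^ 2) ^ (κ / 2) := Real.mul_rpow (by norm_num) (by positivity)
      _ = 2 ^ (κ / 2) * r ^ κ := by
          congr 1
          rw [← Real.rpow_natCast r 2, ← Real.rpow_mul hr0.le]
          congr 1
          push_cast
          ring
      _ ≤ 2 * r ^ κ := by
          apply mul_le_mul_of_nonneg_right _ (by positivity)
          calc (2 : ℝ) ^ (κ / 2) ≤ 2 ^ (1 : ℝ) :=
                Real.rpow_le_rpow_of_exponent_le (by norm_num) (by linarith)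
            _ = 2 := Real.rpow_one 2
  have h2 : r ^ δ = r ^ κ * r ^ (δ - κ) := by
    rw [← Real.rpow_add hr0]
    congr 1
    ring
  have h3 : C + ‖rad κ x‖ ≤ r ^ δ := by
    rw [h2]
    nlinarith
  calc ‖bigMap R h (rad κ x)‖ ≤ (R + m + 2) * Real.exp ‖rad κ x‖ := norm_bigMap_le hR hg _
    _ = Real.exp (C + ‖rad κ x‖) := by
        rw [Real.exp_add, hC, Real.exp_log (by linarith)]
    _ ≤ Real.exp (r ^ δ) := Real.exp_le_exp.2 h3

theorem nonconst {R : ℝ} (hR : 1 ≤ R) {h : E (m + 1) → E (m + 1)} (hg : ∀ x, ‖h x‖ ≤ rho R x) :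
    ∃ x y, bigMap R h x ≠ bigMap R h y := by
  by_contra hne
  push Not at hne
  have hR0 : (0 : ℝ) ≤ R := by linarith
  set w := bigMap R h 0 with hw
  set A := ‖w‖ + R with hA
  have hA1 : 1 ≤ A := by
    have := norm_nonneg w
    linarith
  set t : ℝ := 81 * A with htdef
  have ht0 : 0 ≤ t := by linarith
  set y : E (m + 1) := EuclideanSpace.single (Fin.last m) t with hy
  have hyn : ‖y‖ = t := by
    rw [hy, EuclideanSpace.norm_single, Real.norm_of_nonneg ht0]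
  have e1 : bigMap R h y = w := hne y 0
  have hρ1 : 1 ≤ rho R y := hR.trans (le_rho hR0 y)
  have hs0 : 0 < Real.sqrt (rho R y) := Real.sqrt_pos.2 (by linarith)
  have hs1 : Real.sqrt (rho R y) ≤ rho R y := by
    rw [Real.sqrt_le_left (by linarith)]
    nlinarith
  have hρ2 : rho R y ≤ R + t := by
    have := rho_le hR0 y
    rwa [hyn] at this
  have e2 : (Real.sqrt (rho R y))⁻¹ • sine y = w - h y := by
    rw [← e1]
    unfold bigMap
    abel
  have e3 : sine y = Real.sqrt (rho R y) • (w - h y) := by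
    rw [← e2, smul_smul, mul_inv_cancel₀ hs0.ne', one_smul]
  have h1 : Real.exp t - 1 ≤ (R + t) * (A + t) := by
    have := norm_sine_axis (m := m) t
    rw [abs_of_nonneg ht0] at this
    calc Real.exp t - 1 ≤ ‖sine y‖ := this
      _ = Real.sqrt (rho R y) * ‖w - h y‖ := by
          rw [e3, norm_smul, Real.norm_of_nonneg hs0.le]
      _ ≤ (R + t) * (A + t) := by
          apply mul_le_mul (hs1.trans hρ2) _ (norm_nonneg _) (by linarith)
          calc ‖w - h y‖ ≤ ‖w‖ + ‖h y‖ := norm_sub_le _ _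
            _ ≤ ‖w‖ + (R + t) := by
                have := (hg y).trans hρ2
                linarith
            _ = A + t := by rw [hA]; ring
  have h2 : (1 + t / 3) ^ 3 ≤ Real.exp t := by
    have h3 : t / 3 + 1 ≤ Real.exp (t / 3) := Real.add_one_le_exp _
    calc (1 + t / 3) ^ 3 ≤ (Real.exp (t / 3)) ^ 3 :=
          pow_le_pow_left₀ (by positivity) (by linarith) 3
      _ = Real.exp t := by
          rw [← Real.exp_nat_mul]
          congr 1
          push_cast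
          ring
  have hRA : R ≤ A := by
    have := norm_nonneg w
    linarith
  have h3 : (R + t) * (A + t) ≤ (A + t) * (A + t) :=
    mul_le_mul_of_nonneg_right (by linarith) (by linarith)
  have h4 : (1 + t / 3) ^ 3 - 1 ≤ (A + t) * (A + t) := by linarith
  rw [htdef] at h4
  have h5 : (1 + 81 * A / 3) ^ 3 - 1 = 81 * A + 2187 * A ^ 2 + 19683 * A ^ 3 := by ring
  have h6 : (A + 81 * A) * (A + 81 * A) = 6724 * A ^ 2 := by ring
  rw [h5, h6] at h4
  nlinarith [sq_nonneg A, mul_nonneg (sq_nonneg A) (sub_nonneg.2 hA1)]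

end QRAsym
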