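import Pool.Agent.Lib_MP_53ae57.C_Weak
import Pool.Agent.Lib_MP_53ae57.D2_BigQR
import Pool.Agent.Lib_MP_53ae57.E2_RadQR
import Pool.Agent.Lib_MP_53ae57.F2_Trap
import Pool.Agent.Lib_MP_53ae57.G2_PsiLip
import Pool.Agent.Lib_MP_53ae57.I_SlowComp
import Pool.Agent.Lib_MP_53ae57.J1_Branch
import Pool.Agent.Lib_MP_53ae57.J2_Curve
import Pool.Agent.Lib_MP_53ae57.K_Coding
import Pool.Agent.Lib_MP_53ae57.L_Analytic
import Pool.Agent.Lib_MP_53ae57.M1_Growth

/-!
Assembly (helper80).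
-/

open Set Filter Topology MeasureTheory

namespace QRAsym

variable {m : ℕ}

theorem main_exists (m : ℕ) (hm : 2 ≤ m) {δ : ℝ} (hδ : 0 < δ) : ∃ K : ℝ, 1 ≤ K ∧
    ∀ A : Set (E (m + 1)), AnalyticSet A → ∃ f : E (m + 1) → E (m + 1), Quasiregular K f ∧
      (∃ x y, f x ≠ f y) ∧ (∃ R₀ : ℝ, ∀ x, R₀ ≤ ‖x‖ → ‖f x‖ ≤ Real.exp (‖x‖ ^ δ)) ∧
      asymptoticValues f = A := by
  obtain ⟨K, hK, η, hη, hη1, R₀, hR₀, hbig⟩ := bigMap_lipQR m
  set κ : ℝ := min (δ / 2) 1 with hκd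
  have hκ : 0 < κ := lt_min (by positivity) one_pos
  have hκ1 : κ ≤ 1 := min_le_right _ _
  have hκδ : κ < δ := lt_of_le_of_lt (min_le_left _ _) (by linarith)
  obtain ⟨K', hK', hrad⟩ := rad_lipQR (m + 1) hκ hκ1
  refine ⟨K * K', by nlinarith, fun A hA => ?_⟩
  have h0 : (0 : Fin (m + 1)) ≠ Fin.last m := by
    intro h
    have := congrArg Fin.val h
    simp at this
    omega
  obtain ⟨j, hj⟩ : ∃ j : Fin (m + 1), j.val = 1 := ⟨⟨1, by omega⟩, rfl⟩
  have h1 : j ≠ Fin.last m := by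
    intro h
    have := congrArg Fin.val h
    simp at this
    omega
  have h01 : (0 : Fin (m + 1)) ≠ j := by
    intro h
    have := congrArg Fin.val h
    simp at this
    omega
  obtain ⟨c, hc, hcA⟩ := exists_coding (0 : Fin (m + 1)) hA
  obtain ⟨R, hR1, hRR, L, hLc, hL0, hLt, hslow, hbd⟩ :=
    exists_slow (Psi_lipBd c 0 j) (0 : Fin (m + 1)) (R₀ := R₀) hη
  set h : E (m + 1) → E (m + 1) :=
    fun x => Psi c 0 j (L (Real.log (rho R x))) (2 * x 0 / rho R x) with hh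
  have hq := hbig R hRR h hslow
  refine ⟨fun x => bigMap R h (rad κ x), lipQR_quasiregular (hrad K _ hK hq), ?_, ?_, ?_⟩
  · obtain ⟨x, y, hxy⟩ := nonconst hR1 hbd
    obtain ⟨x', hx'⟩ := (rad_bijective hκ hκ1).2 x
    obtain ⟨y', hy'⟩ := (rad_bijective hκ hκ1).2 y
    exact ⟨x', y', by simpa only [hx', hy'] using hxy⟩
  · exact growth m hκ hκ1 hκδ hR1 hbd
  · rw [asymptoticValues_comp_rad hκ hκ1, ← hcA]
    refine Set.Subset.antisymm ?_ (limits_subset hc h01 h0 h1 (by linarith) hLt)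
    rintro a ⟨γ, hγ, hinf, hlim⟩
    have htr := trap hR1 hη.le hη1 hslow hbd hγ hinf hlim
    have hrho : Continuous (fun x : E (m + 1) => rho R x) := by
      unfold rho
      fun_prop
    have hpos : ∀ x : E (m + 1), rho R x ≠ 0 := fun x =>
      (lt_of_lt_of_le (by linarith : (0 : ℝ) < R) (le_rho (by linarith) x)).ne'
    refine limit_branch hc h01 (l := fun t => L (Real.log (rho R (γ t))))
      (u := fun t => 2 * γ t 0 / rho R (γ t)) ?_ ?_ ?_ htr
    · exact hLc.comp ((hrho.comp hγ).log (fun t => hpos _))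
    · refine Continuous.div ?_ (hrho.comp hγ) (fun t => hpos _)
      exact continuous_const.mul ((EuclideanSpace.proj (0 : Fin (m + 1))).continuous.comp hγ)
    · refine hLt.comp (Real.tendsto_log_atTop.comp ?_)
      exact tendsto_atTop_mono (fun t => norm_le_rho R (γ t)) hinf

end QRAsym
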